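import Mathlib

/-!
Furstenberg's theorem: for multiplicatively independent `p, q`, the orbit `p^i q^j x` of a point `x`
of infinite order of the circle is dense.  (Boshernitzan's proof.)
-/

set_option autoImplicit false

open Filter Topology Set

namespace Pool.Agent.H847R3.XpXq

/-- the additive semigroup generated by `a, b > 0` with `a / b` irrational has eventually small gaps -/
lemma gap {a b : ℝ} (ha : 0 < a) (hb : 0 < b) (hirr : Irrational (a / b)) {ε : ℝ} (hε : 0 < ε) :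
    ∃ L : ℝ, ∀ y : ℝ, L ≤ y → ∃ i j : ℕ, y ≤ i * a + j * b ∧ i * a + j * b ≤ y + ε := by
  have hd := dense_addSubgroupClosure_pair_iff.2 hirr
  obtain ⟨δ, hδmem, hδ⟩ := hd.exists_mem_open isOpen_Ioo (⟨ε / 2, by constructor <;> linarith⟩ :
    (Ioo (0 : ℝ) ε).Nonempty)
  obtain ⟨m, n, hmn⟩ := (AddSubgroup.mem_closure_pair).1 hδmem
  simp only [zsmul_eq_mul] at hmn
  have hδ0 : 0 < δ := hδ.1
  have hδε : δ < ε := hδ.2
  set P := a + b with hP
  have hP0 : 0 < P := by positivity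
  set K : ℕ := ⌈P / δ⌉₊ with hK
  set M : ℕ := m.natAbs + n.natAbs with hM
  refine ⟨(K * M + 1) * P, fun y hy => ?_⟩
  set N : ℕ := ⌊y / P⌋₊ with hN
  have hy0 : 0 ≤ y := le_trans (by positivity) hy
  have hN1 : (N : ℝ) * P ≤ y := by
    have := Nat.floor_le (show 0 ≤ y / P by positivity)
    rwa [le_div_iff₀ hP0] at this
  have hN2 : y < (N + 1) * P := by
    have := Nat.lt_floor_add_one (y / P)
    rwa [div_lt_iff₀ hP0] at this
  have hNK : K * M ≤ N := by
    by_contra hcon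
    push Not at hcon
    have : (N : ℝ) + 1 ≤ K * M := by exact_mod_cast hcon
    nlinarith
  set k : ℕ := ⌈(y - N * P) / δ⌉₊ with hk
  have hk1 : (y - N * P) ≤ k * δ := by
    have := Nat.le_ceil ((y - N * P) / δ)
    rwa [div_le_iff₀ hδ0] at this
  have hk2 : k * δ < (y - N * P) + δ := by
    have := Nat.ceil_lt_add_one (show 0 ≤ (y - N * P) / δ from div_nonneg (by linarith) hδ0.le)
    have h2 : (k : ℝ) * δ < ((y - N * P) / δ + 1) * δ := mul_lt_mul_of_pos_right this hδ0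
    have h3 : ((y - N * P) / δ + 1) * δ = (y - N * P) + δ := by field_simp
    linarith
  have hkK : k ≤ K := by
    apply Nat.ceil_le_ceil
    apply div_le_div_of_nonneg_right _ hδ0.le
    linarith
  have hkM : k * M ≤ N := le_trans (Nat.mul_le_mul_right _ hkK) hNK
  have hi : 0 ≤ (N : ℤ) + k * m := by
    have h1 : -(m.natAbs : ℤ) ≤ m := by omega
    have h2 : (m.natAbs : ℤ) ≤ M := by omega
    have h3 : (k : ℤ) * M ≤ N := by exact_mod_cast hkM
    have h4 : (0 : ℤ) ≤ k := by positivity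
    nlinarith
  have hj : 0 ≤ (N : ℤ) + k * n := by
    have h1 : -(n.natAbs : ℤ) ≤ n := by omega
    have h2 : (n.natAbs : ℤ) ≤ M := by omega
    have h3 : (k : ℤ) * M ≤ N := by exact_mod_cast hkM
    have h4 : (0 : ℤ) ≤ k := by positivity
    nlinarith
  refine ⟨((N : ℤ) + k * m).toNat, ((N : ℤ) + k * n).toNat, ?_⟩
  have e1 : ((((N : ℤ) + k * m).toNat : ℕ) : ℝ) = N + k * m := by
    have : ((((N : ℤ) + k * m).toNat : ℕ) : ℤ) = N + k * m := Int.toNat_of_nonneg hi
    exact_mod_cast this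
  have e2 : ((((N : ℤ) + k * n).toNat : ℕ) : ℝ) = N + k * n := by
    have : ((((N : ℤ) + k * n).toNat : ℕ) : ℤ) = N + k * n := Int.toNat_of_nonneg hj
    exact_mod_cast this
  rw [e1, e2]
  have e3 : ((N : ℝ) + k * m) * a + (N + k * n) * b = N * P + k * δ := by
    rw [← hmn, hP]; ring
  rw [e3]
  constructor <;> linarith

abbrev TT := UnitAddCircle

/-- representative of `t` in `[1, 2)` -/
lemma exists_rep12 (t : TT) : ∃ v : ℝ, (v : TT) = t ∧ 1 ≤ v ∧ v < 2 := by
  obtain ⟨r, rfl⟩ := QuotientAddGroup.mk_surjective t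
  refine ⟨Int.fract r + 1, ?_, by linarith [Int.fract_nonneg r], by linarith [Int.fract_lt_one r]⟩
  rw [← Int.self_sub_floor, AddCircle.coe_add, AddCircle.coe_sub]
  have h1 : ((1 : ℝ) : TT) = 0 := AddCircle.coe_period 1
  have h2 : ((⌊r⌋ : ℝ) : TT) = 0 := by
    rw [AddCircle.coe_eq_zero_iff]; exact ⟨⌊r⌋, by simp⟩
  rw [h1, h2]; simp

/-- representative with the absolute value equal to the norm -/
lemma exists_rep_norm (u : TT) : ∃ r : ℝ, (r : TT) = u ∧ |r| = ‖u‖ := by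
  obtain ⟨x, rfl⟩ := QuotientAddGroup.mk_surjective u
  refine ⟨x - round x, ?_, ?_⟩
  · have h2 : ((round x : ℝ) : TT) = 0 := by
      rw [AddCircle.coe_eq_zero_iff]; exact ⟨round x, by simp⟩
    rw [AddCircle.coe_sub, h2, sub_zero]
  · exact (UnitAddCircle.norm_eq).symm

lemma dist_coe_le (x y : ℝ) : dist (x : TT) (y : TT) ≤ |x - y| := by
  rw [dist_eq_norm, ← AddCircle.coe_sub, UnitAddCircle.norm_eq]
  simpa using round_le (x - y) 0

/-- closed under multiplication by `P` and `Q` -/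
def Inv (P Q : ℕ) (X : Set TT) : Prop := ∀ x ∈ X, P • x ∈ X ∧ Q • x ∈ X

lemma Inv.smul {P Q : ℕ} {X : Set TT} (h : Inv P Q X) {x : TT} (hx : x ∈ X) (i j : ℕ) :
    (P ^ i * Q ^ j) • x ∈ X := by
  have h1 : ∀ j : ℕ, (Q ^ j) • x ∈ X := by
    intro j
    induction j with
    | zero => simpa using hx
    | succ j ih => rw [pow_succ', mul_nsmul']; exact (h _ ih).2
  induction i with
  | zero => simpa using h1 j
  | succ i ih => rw [pow_succ', mul_assoc, mul_nsmul']; exact (h _ ih).1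

lemma Inv.pow {P Q : ℕ} {X : Set TT} (h : Inv P Q X) (N : ℕ) : Inv (P ^ N) (Q ^ N) X := by
  intro x hx
  constructor
  · simpa using h.smul hx N 0
  · simpa using h.smul hx 0 N

lemma acc_zero {P Q : ℕ} (hP : 2 ≤ P) (hQ : 2 ≤ Q)
    (hirr : Irrational (Real.log P / Real.log Q)) {X : Set TT} (hX : IsClosed X) (hinv : Inv P Q X)
    (hacc : ∀ ε : ℝ, 0 < ε → ∃ x ∈ X, x ≠ 0 ∧ ‖x‖ < ε) : X = univ := by
  have hP1 : (1 : ℝ) < P := by exact_mod_cast (by omega : 1 < P)
  have hQ1 : (1 : ℝ) < Q := by exact_mod_cast (by omega : 1 < Q)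
  rw [eq_univ_iff_forall]
  intro t
  rw [← hX.closure_eq, Metric.mem_closure_iff]
  intro ε hε
  have hε' : 0 < Real.log (1 + ε / 4) := Real.log_pos (by linarith)
  obtain ⟨L, hL⟩ := gap (Real.log_pos hP1) (Real.log_pos hQ1) hirr hε'
  obtain ⟨x, hxX, hx0, hx⟩ := hacc (Real.exp (-L)) (Real.exp_pos _)
  obtain ⟨r, hr, hrx⟩ := exists_rep_norm x
  have hr0 : 0 < |r| := by rw [hrx]; exact norm_pos_iff.2 hx0
  have hr0' : r ≠ 0 := abs_pos.1 hr0
  -- the target `v`
  obtain ⟨v, hv1, hv2, hvt⟩ : ∃ v : ℝ, 1 ≤ v ∧ v < 2 ∧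
      ∀ s : ℕ, dist t (s • x) ≤ |v - s * abs r| := by
    rcases lt_or_gt_of_ne hr0' with h | h
    · obtain ⟨v, hv, hv1, hv2⟩ := exists_rep12 (-t)
      refine ⟨v, hv1, hv2, fun s => ?_⟩
      have e1 : t = ((-v : ℝ) : TT) := by rw [AddCircle.coe_neg, hv, neg_neg]
      have e2 : s • x = ((s * r : ℝ) : TT) := by
        rw [← hr, ← AddCircle.coe_nsmul, nsmul_eq_mul]
      rw [e1, e2]
      refine (dist_coe_le _ _).trans_eq ?_
      rw [abs_of_neg h, ← abs_neg]
      congr 1; ring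
    · obtain ⟨v, hv, hv1, hv2⟩ := exists_rep12 t
      refine ⟨v, hv1, hv2, fun s => ?_⟩
      have e2 : s • x = ((s * r : ℝ) : TT) := by
        rw [← hr, ← AddCircle.coe_nsmul, nsmul_eq_mul]
      rw [← hv, e2, abs_of_pos h]
      exact dist_coe_le _ _
  have hy : L ≤ Real.log (v / |r|) := by
    rw [Real.log_div (by linarith) hr0.ne']
    have h1 : 0 ≤ Real.log v := Real.log_nonneg hv1
    have h2 : Real.log |r| < -L := by
      rw [Real.log_lt_iff_lt_exp hr0, hrx]; exact hx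
    linarith
  obtain ⟨i, j, hij1, hij2⟩ := hL _ hy
  have hs : Real.log ((P ^ i * Q ^ j : ℕ) : ℝ) = i * Real.log P + j * Real.log Q := by
    push_cast
    rw [Real.log_mul (by positivity) (by positivity), Real.log_pow, Real.log_pow]
  have hs0 : (0 : ℝ) < ((P ^ i * Q ^ j : ℕ) : ℝ) := by
    have : 0 < P ^ i * Q ^ j := by positivity
    exact_mod_cast this
  rw [← hs] at hij1 hij2
  have hv0 : 0 < v / |r| := by positivity
  have k1 : v / |r| ≤ ((P ^ i * Q ^ j : ℕ) : ℝ) := (Real.log_le_log_iff hv0 hs0).1 hij1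
  have k2 : ((P ^ i * Q ^ j : ℕ) : ℝ) ≤ v / |r| * (1 + ε / 4) := by
    rw [← Real.log_le_log_iff hs0 (by positivity), Real.log_mul hv0.ne' (by positivity)]
    exact hij2
  have k3 : v ≤ ((P ^ i * Q ^ j : ℕ) : ℝ) * |r| := by rwa [div_le_iff₀ hr0] at k1
  have k4 : ((P ^ i * Q ^ j : ℕ) : ℝ) * |r| ≤ v * (1 + ε / 4) := by
    calc ((P ^ i * Q ^ j : ℕ) : ℝ) * |r| ≤ v / |r| * (1 + ε / 4) * |r| := by gcongr
      _ = v * (1 + ε / 4) := by field_simp
  refine ⟨_, hinv.smul hxX i j, (hvt _).trans_lt ?_⟩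
  rw [abs_sub_comm, abs_of_nonneg (by linarith)]
  nlinarith

lemma orbit_inj {P : ℕ} (hP : 2 ≤ P) {x : TT} (hx : ¬ IsOfFinAddOrder x) :
    Function.Injective fun i : ℕ => (P ^ i) • x := by
  intro i j hij
  have h1 : Function.Injective fun n : ℕ => n • x := injective_nsmul_iff_not_isOfFinAddOrder.2 hx
  exact Nat.pow_right_injective hP (h1 hij)

lemma exists_lim {f : ℕ → TT} (hf : Function.Injective f) :
    ∃ a : TT, ∀ ε : ℝ, 0 < ε → ∃ i j : ℕ, f i ≠ a ∧ f i ≠ f j ∧ dist (f i) a < ε ∧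
      dist (f j) a < ε := by
  obtain ⟨a, -, φ, hφ, ha⟩ := isCompact_univ.tendsto_subseq (fun n => mem_univ (f n))
  refine ⟨a, fun ε hε => ?_⟩
  obtain ⟨n, hn⟩ := Metric.tendsto_atTop.1 ha ε hε
  have h1 := hn n le_rfl
  have h2 := hn (n + 1) (Nat.le_succ n)
  simp only [Function.comp] at h1 h2
  have hne : f (φ n) ≠ f (φ (n + 1)) := fun h => by
    have := hf h
    have := hφ (Nat.lt_add_one n)
    omega
  by_cases h : f (φ n) = a
  · exact ⟨φ (n + 1), φ n, fun h' => hne (h.trans h'.symm), hne.symm, h2, h1⟩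
  · exact ⟨φ n, φ (n + 1), h, hne, h1, h2⟩

lemma exists_close {P Q : ℕ} (hP : 2 ≤ P) {W : Set TT} (hinv : Inv P Q W) {x : TT} (hx : x ∈ W)
    (hxo : ¬ IsOfFinAddOrder x) {ε : ℝ} (hε : 0 < ε) : ∃ a ∈ W, ∃ b ∈ W, a ≠ b ∧ dist a b < ε := by
  obtain ⟨a, ha⟩ := exists_lim (orbit_inj hP hxo)
  obtain ⟨i, j, -, h2, h3, h4⟩ := ha (ε / 2) (by positivity)
  have m1 : ∀ i : ℕ, (P ^ i) • x ∈ W := fun i => by simpa using hinv.smul hx i 0
  refine ⟨_, m1 i, _, m1 j, h2, ?_⟩
  calc dist ((P ^ i) • x) ((P ^ j) • x) ≤ dist ((P ^ i) • x) a + dist ((P ^ j) • x) a :=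
        dist_triangle_right _ _ _
    _ < ε := by linarith

lemma step_exists {P Q : ℕ} (hP : 2 ≤ P) (hQ : 2 ≤ Q)
    (hirr : Irrational (Real.log P / Real.log Q)) {W : Set TT} (hW : IsClosed W)
    (hne : W.Nonempty) (hinv : Inv P Q W) (hnt : ∀ x ∈ W, ¬ IsOfFinAddOrder x) (h : TT) :
    ∃ x ∈ W, x + h ∈ W := by
  set D : Set TT := (fun z : TT × TT => z.2 - z.1) '' (W ×ˢ W) with hD
  have hDc : IsClosed D :=
    ((hW.isCompact.prod hW.isCompact).image (continuous_snd.sub continuous_fst)).isClosed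
  have hDinv : Inv P Q D := by
    rintro _ ⟨⟨a, b⟩, ⟨ha, hb⟩, rfl⟩
    exact ⟨⟨(P • a, P • b), ⟨(hinv a ha).1, (hinv b hb).1⟩, by simp [nsmul_sub]⟩,
      ⟨(Q • a, Q • b), ⟨(hinv a ha).2, (hinv b hb).2⟩, by simp [nsmul_sub]⟩⟩
  have hDu : D = univ := by
    refine acc_zero hP hQ hirr hDc hDinv fun ε hε => ?_
    obtain ⟨x, hx⟩ := hne
    obtain ⟨a, ha, b, hb, hab, hd⟩ := exists_close hP hinv hx (hnt x hx) hε
    refine ⟨a - b, ⟨(b, a), ⟨hb, ha⟩, rfl⟩, sub_ne_zero.2 hab, ?_⟩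
    rwa [← dist_eq_norm]
  obtain ⟨⟨a, b⟩, ⟨ha, hb⟩, hab⟩ : h ∈ D := by rw [hDu]; trivial
  refine ⟨a, ha, ?_⟩
  have : a + h = b := by rw [← hab]; simp
  rwa [this]

lemma irr_pow {p q N : ℕ} (hN : 1 ≤ N) (hirr : Irrational (Real.log p / Real.log q)) :
    Irrational (Real.log ((p ^ N : ℕ) : ℝ) / Real.log ((q ^ N : ℕ) : ℝ)) := by
  have hN0 : (N : ℝ) ≠ 0 := by exact_mod_cast (by omega : N ≠ 0)
  have : Real.log ((p ^ N : ℕ) : ℝ) / Real.log ((q ^ N : ℕ) : ℝ) = Real.log p / Real.log q := by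
    push_cast
    rw [Real.log_pow, Real.log_pow, mul_div_mul_left _ _ hN0]
  rwa [this]

lemma fix_of_coprime {p t : ℕ} (hpt : Nat.Coprime p t) {r : TT} (hr : t • r = 0) :
    (p ^ Nat.totient t) • r = r := by
  have h1 : p ^ Nat.totient t ≡ 1 [MOD t] := Nat.ModEq.pow_totient hpt
  rcases Nat.eq_zero_or_pos t with rfl | ht
  · simp
  have h2 : (1 : ℕ) ≡ p ^ Nat.totient t [MOD t] := h1.symm
  rcases Nat.eq_zero_or_pos p with rfl | hp
  · have : t = 1 := by simpa using hpt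
    subst this
    simp at hr
    simp [hr]
  have h3 : 1 ≤ p ^ Nat.totient t := Nat.one_le_pow _ _ hp
  obtain ⟨c, hc⟩ := (Nat.modEq_iff_dvd' h3).1 h2
  have h4 : p ^ Nat.totient t = 1 + c * t := by
    have : p ^ Nat.totient t = 1 + t * c := by omega
    rw [this]; ring
  rw [h4, add_nsmul, mul_nsmul', hr]
  simp

lemma net {p q : ℕ} (hp : 2 ≤ p) (hq : 2 ≤ q) (hirr : Irrational (Real.log p / Real.log q))
    {Z : Set TT} (hZ : IsClosed Z) (hne : Z.Nonempty) (hinv : Inv p q Z)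
    (hnt : ∀ x ∈ Z, ¬ IsOfFinAddOrder x) {t : ℕ} (ht : 1 ≤ t) (hpt : Nat.Coprime p t)
    (hqt : Nat.Coprime q t) {h : TT} (hh : t • h = 0) (k : ℕ) :
    ∃ x, ∀ i ≤ k, x + i • h ∈ Z := by
  set N := Nat.totient t with hN
  have hN1 : 1 ≤ N := Nat.totient_pos.2 ht
  have hP : 2 ≤ p ^ N := le_trans hp (Nat.le_self_pow (by omega) p)
  have hQ : 2 ≤ q ^ N := le_trans hq (Nat.le_self_pow (by omega) q)
  have hph : (p ^ N) • h = h := fix_of_coprime hpt hh
  have hqh : (q ^ N) • h = h := fix_of_coprime hqt hh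
  have hcl : ∀ k : ℕ, IsClosed {x : TT | ∀ i ≤ k, x + i • h ∈ Z} := by
    intro k
    have : {x : TT | ∀ i ≤ k, x + i • h ∈ Z} = ⋂ i : ℕ, ⋂ _ : i ≤ k, {x : TT | x + i • h ∈ Z} := by
      ext x; simp
    rw [this]
    exact isClosed_iInter fun i => isClosed_iInter fun _ =>
      hZ.preimage (continuous_id.add continuous_const)
  induction k with
  | zero =>
    obtain ⟨x, hx⟩ := hne
    refine ⟨x, fun i hi => ?_⟩
    have : i = 0 := by omega
    subst this
    simpa using hx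
  | succ k ih =>
    have hinvW : Inv (p ^ N) (q ^ N) {x : TT | ∀ i ≤ k, x + i • h ∈ Z} := by
      intro x hx
      have hs : ∀ (s i : ℕ), s • h = h → s • (x + i • h) = s • x + i • h := by
        intro s i hs
        rw [nsmul_add, ← mul_nsmul', mul_comm, mul_nsmul', hs]
      constructor
      · intro i hi
        rw [← hs _ i hph]
        exact (hinv.pow N _ (hx i hi)).1
      · intro i hi
        rw [← hs _ i hqh]
        exact (hinv.pow N _ (hx i hi)).2
    obtain ⟨x, hx, hxh⟩ := step_exists hP hQ (irr_pow hN1 hirr) (hcl k) ih hinvW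
      (fun x hx => hnt x (by simpa using hx 0 (Nat.zero_le _))) h
    refine ⟨x, fun i hi => ?_⟩
    rcases Nat.eq_or_lt_of_le hi with rfl | hlt
    · have := hxh k le_rfl
      rw [add_nsmul, one_nsmul, add_comm (k • h) h, ← add_assoc]
      exact this
    · exact hx i (by omega)

lemma exists_torsion {p q : ℕ} (hp : 2 ≤ p) (hq : 2 ≤ q)
    (hirr : Irrational (Real.log p / Real.log q)) {Z : Set TT} (hZ : IsClosed Z)
    (hne : Z.Nonempty) (hinv : Inv p q Z) : ∃ r ∈ Z, IsOfFinAddOrder r := by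
  by_contra hcon
  push Not at hcon
  have hall : ∀ z : TT, z ∈ Z := by
    intro z
    rw [← hZ.closure_eq, Metric.mem_closure_iff]
    intro ε hε
    obtain ⟨n, hn⟩ := exists_nat_gt (1 / ε)
    set t : ℕ := (p * q) ^ n + 1 with ht
    have ht1 : 1 ≤ t := by omega
    have htn : (n : ℝ) < t := by
      have : n < (p * q) ^ n := Nat.lt_pow_self (by nlinarith)
      have : n < t := by omega
      exact_mod_cast this
    have ht0 : (0 : ℝ) < t := by exact_mod_cast ht1
    rcases Nat.eq_zero_or_pos n with hn0 | hn0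
    · subst hn0
      have : 0 < 1 / ε := by positivity
      simp at hn
      linarith
    have hcop : ∀ m : ℕ, m ∣ p * q → Nat.Coprime m t := by
      intro m hm
      have h1 : m ∣ (p * q) ^ n := hm.trans (dvd_pow_self _ (by omega))
      obtain ⟨c, hc⟩ := h1
      rw [ht, hc]
      simp
    set h : TT := ((1 / t : ℝ) : TT) with hh
    have hth : t • h = 0 := by
      rw [hh, ← AddCircle.coe_nsmul, nsmul_eq_mul]
      have : (t : ℝ) * (1 / t) = 1 := by field_simp
      rw [this]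
      exact AddCircle.coe_period 1
    obtain ⟨x, hx⟩ := net hp hq hirr hZ hne hinv hcon ht1 (hcop p (dvd_mul_right _ _))
      (hcop q (dvd_mul_left _ _)) hth t
    obtain ⟨v, hv, hv1, hv2⟩ := exists_rep12 (z - x)
    set i : ℕ := ⌊(v - 1) * t⌋₊ with hi
    have hvt : 0 ≤ (v - 1) * t := mul_nonneg (by linarith) ht0.le
    have hi1 : (i : ℝ) ≤ (v - 1) * t := Nat.floor_le hvt
    have hi2 : (v - 1) * t < i + 1 := Nat.lt_floor_add_one _
    have hit : i ≤ t := by
      have : (i : ℝ) ≤ t := by nlinarith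
      exact_mod_cast this
    refine ⟨x + i • h, hx i hit, ?_⟩
    have e1 : z = x + (((v - 1 : ℝ)) : TT) := by
      have h1 : ((1 : ℝ) : TT) = 0 := AddCircle.coe_period 1
      rw [AddCircle.coe_sub, h1, sub_zero, hv]
      abel
    have e2 : i • h = ((i * (1 / t) : ℝ) : TT) := by
      rw [hh, ← AddCircle.coe_nsmul, nsmul_eq_mul]
    rw [e1, e2, dist_add_left]
    refine (dist_coe_le _ _).trans_lt ?_
    have h3 : (v - 1) - i * (1 / t) < 1 / t := by
      rw [lt_div_iff₀ ht0]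
      have : ((v - 1) - i * (1 / t)) * t = (v - 1) * t - i := by field_simp
      linarith
    have h4 : 0 ≤ (v - 1) - i * (1 / t) := by
      have : i * (1 / t) ≤ (v - 1) := by
        rw [mul_one_div, div_le_iff₀ ht0]; exact hi1
      linarith
    rw [abs_of_nonneg h4]
    have h5 : (1 : ℝ) / t < ε := by
      rw [div_lt_iff₀ ht0]
      rw [div_lt_iff₀ hε] at hn
      nlinarith
    linarith
  exact hcon 0 (hall 0) IsOfFinAddOrder.zero

lemma acc_torsion {p q : ℕ} (hp : 2 ≤ p) (hq : 2 ≤ q)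
    (hirr : Irrational (Real.log p / Real.log q)) {X : Set TT} (hX : IsClosed X)
    (hinv : Inv p q X) {r : TT} {t : ℕ} (ht : 1 ≤ t) (hr : t • r = 0) (hpt : Nat.Coprime p t)
    (hqt : Nat.Coprime q t) (hacc : ∀ ε : ℝ, 0 < ε → ∃ x ∈ X, x ≠ r ∧ dist x r < ε) :
    X = univ := by
  set N := Nat.totient t with hN
  have hN1 : 1 ≤ N := Nat.totient_pos.2 ht
  have hP : 2 ≤ p ^ N := le_trans hp (Nat.le_self_pow (by omega) p)
  have hQ : 2 ≤ q ^ N := le_trans hq (Nat.le_self_pow (by omega) q)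
  have hph : (p ^ N) • r = r := fix_of_coprime hpt hr
  have hqh : (q ^ N) • r = r := fix_of_coprime hqt hr
  set Y : Set TT := {y | y + r ∈ X} with hY
  have hYc : IsClosed Y := hX.preimage (continuous_id.add continuous_const)
  have hYinv : Inv (p ^ N) (q ^ N) Y := by
    intro y hy
    constructor
    · have := (hinv.pow N _ hy).1
      rw [nsmul_add, hph] at this
      exact this
    · have := (hinv.pow N _ hy).2
      rw [nsmul_add, hqh] at this
      exact this
  have hYu : Y = univ := by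
    refine acc_zero hP hQ (irr_pow hN1 hirr) hYc hYinv fun ε hε => ?_
    obtain ⟨x, hx, hxr, hd⟩ := hacc ε hε
    refine ⟨x - r, by rw [hY]; simpa using hx, sub_ne_zero.2 hxr, ?_⟩
    rwa [← dist_eq_norm]
  rw [eq_univ_iff_forall]
  intro x
  have : x - r ∈ Y := by rw [hYu]; trivial
  have h2 : x - r + r ∈ X := this
  simpa using h2

lemma exists_coprime {m : ℕ} (hm : 2 ≤ m) {r : TT} (hr : IsOfFinAddOrder r) :
    ∃ a t : ℕ, 1 ≤ t ∧ t • ((m ^ a) • r) = 0 ∧ Nat.Coprime m t := by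
  obtain ⟨t, ht, htr⟩ := isOfFinAddOrder_iff_nsmul_eq_zero.1 hr
  have : NeZero t := ⟨by omega⟩
  obtain ⟨a, b, hab, heq⟩ := Finite.exists_ne_map_eq_of_infinite (fun k : ℕ => ((m : ZMod t)) ^ k)
  wlog hlt : a < b generalizing a b with H
  · exact H b a hab.symm heq.symm (by omega)
  have h1 : ((m ^ a : ℕ) : ZMod t) = ((m ^ b : ℕ) : ZMod t) := by push_cast; exact heq
  have h2 : m ^ a ≡ m ^ b [MOD t] := (ZMod.natCast_eq_natCast_iff _ _ _).1 h1
  have h3 : m ^ a ≤ m ^ b := Nat.pow_le_pow_right (by omega) hlt.le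
  obtain ⟨c, hc⟩ := (Nat.modEq_iff_dvd' h3).1 h2
  -- `(m^(b-a) - 1) • (m^a • r) = 0`
  set d : ℕ := b - a with hd
  have hd1 : 1 ≤ d := by omega
  have hmd : 2 ≤ m ^ d := le_trans hm (Nat.le_self_pow (by omega) m)
  refine ⟨a, m ^ d - 1, by omega, ?_, ?_⟩
  · have e : (m ^ d - 1) * m ^ a = t * c := by
      rw [← hc, Nat.sub_mul, ← pow_add, hd]
      congr 2
      · omega
      · simp
    rw [← mul_nsmul', e, mul_comm, mul_nsmul', htr]
    simp
  · have h4 : m ∣ m ^ d := dvd_pow_self _ (by omega)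
    have h5 : Nat.Coprime (m ^ d) (m ^ d - 1) := by
      have : m ^ d = (m ^ d - 1) + 1 := by omega
      rw [this]
      simp
    exact Nat.Coprime.coprime_dvd_left h4 h5

/-- **Furstenberg's theorem**: the orbit of a point of infinite order is dense. -/
theorem dense_orbit {p q : ℕ} (hp : 2 ≤ p) (hq : 2 ≤ q)
    (hirr : Irrational (Real.log p / Real.log q)) {y : TT} (hy : ¬ IsOfFinAddOrder y) :
    Dense {w : TT | ∃ i j : ℕ, w = (p ^ i * q ^ j) • y} := by
  set O : Set TT := {w : TT | ∃ i j : ℕ, w = (p ^ i * q ^ j) • y} with hO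
  set X : Set TT := closure O with hX
  have hXc : IsClosed X := isClosed_closure
  have hXinv : Inv p q X := by
    intro x hx
    constructor
    · refine map_mem_closure (continuous_const_smul p) hx ?_
      rintro _ ⟨i, j, rfl⟩
      exact ⟨i + 1, j, by rw [← mul_nsmul', pow_succ']; ring_nf⟩
    · refine map_mem_closure (continuous_const_smul q) hx ?_
      rintro _ ⟨i, j, rfl⟩
      exact ⟨i, j + 1, by rw [← mul_nsmul', pow_succ']; ring_nf⟩
  set Z : Set TT := {z | ∀ ε : ℝ, 0 < ε → ∃ x ∈ X, x ≠ z ∧ dist x z < ε} with hZ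
  have hZc : IsClosed Z := by
    rw [← closure_subset_iff_isClosed]
    intro z hz ε hε
    obtain ⟨z', hz', hd⟩ := Metric.mem_closure_iff.1 hz (ε / 2) (by positivity)
    by_cases h : z' = z
    · subst h
      exact hz' ε hε
    · have h0 : 0 < dist z z' := dist_pos.2 (Ne.symm h)
      obtain ⟨x, hx, hxz, hd'⟩ := hz' (min (ε / 2) (dist z z')) (lt_min (by positivity) h0)
      refine ⟨x, hx, ?_, ?_⟩
      · rintro rfl
        exact absurd (lt_of_lt_of_le hd' (min_le_right _ _)) (lt_irrefl _)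
      · calc dist x z ≤ dist x z' + dist z z' := dist_triangle_right _ _ _
          _ < ε / 2 + ε / 2 := add_lt_add (lt_of_lt_of_le hd' (min_le_left _ _)) hd
          _ = ε := by ring
  have hmul : ∀ (s : ℕ), 1 ≤ s → (∀ x ∈ X, s • x ∈ X) → ∀ z ∈ Z, s • z ∈ Z := by
    intro s hs hsX z hz ε hε
    have hs0 : (0 : ℝ) < s := by exact_mod_cast hs
    obtain ⟨x, hx, hxz, hd⟩ := hz (min (ε / s) (1 / s)) (lt_min (by positivity) (by positivity))
    obtain ⟨r, hr, hrn⟩ := exists_rep_norm (x - z)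
    rw [dist_eq_norm] at hd
    have hr1 : s * |r| < ε := by
      have := lt_of_lt_of_le hd (min_le_left _ _)
      rw [← hrn, lt_div_iff₀ hs0] at this
      linarith
    have hr2 : s * |r| < 1 := by
      have := lt_of_lt_of_le hd (min_le_right _ _)
      rw [← hrn, lt_div_iff₀ hs0] at this
      linarith
    have e : s • x - s • z = ((s * r : ℝ) : TT) := by
      rw [← nsmul_sub, ← hr, ← AddCircle.coe_nsmul, nsmul_eq_mul]
    refine ⟨s • x, hsX x hx, ?_, ?_⟩
    · intro heq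
      rw [← sub_eq_zero, e, AddCircle.coe_eq_zero_iff] at heq
      obtain ⟨n, hn⟩ := heq
      simp only [zsmul_eq_mul, mul_one] at hn
      have h1 : |(n : ℝ)| < 1 := by rw [hn, abs_mul, abs_of_pos hs0]; exact hr2
      have h2 : n = 0 := by
        have : |n| < 1 := by exact_mod_cast h1
        exact Int.abs_lt_one_iff.1 this
      rw [h2] at hn
      have h3 : r = 0 := by
        have : (s : ℝ) * r = 0 := by rw [← hn]; simp
        rcases mul_eq_zero.1 this with h | h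
        · exact absurd h hs0.ne'
        · exact h
      rw [h3] at hrn
      apply hxz
      rw [← sub_eq_zero, ← norm_eq_zero, ← hrn]; simp
    · rw [dist_eq_norm, e]
      have := dist_coe_le (s * r) 0
      rw [AddCircle.coe_zero, dist_zero_right, sub_zero, abs_mul, abs_of_pos hs0] at this
      linarith
  have hZinv : Inv p q Z := fun z hz =>
    ⟨hmul p (by omega) (fun x hx => (hXinv x hx).1) z hz,
      hmul q (by omega) (fun x hx => (hXinv x hx).2) z hz⟩
  have hyX : y ∈ X := subset_closure ⟨0, 0, by simp⟩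
  have hZne : Z.Nonempty := by
    obtain ⟨a, ha⟩ := exists_lim (orbit_inj hp hy)
    refine ⟨a, fun ε hε => ?_⟩
    obtain ⟨i, j, h1, -, h3, -⟩ := ha ε hε
    exact ⟨_, by simpa using hXinv.smul hyX i 0, h1, h3⟩
  obtain ⟨r, hrZ, hr⟩ := exists_torsion hp hq hirr hZc hZne hZinv
  obtain ⟨a, t, ht, htr, hcop⟩ := exists_coprime (m := p * q) (by nlinarith) hr
  have hr' : ((p * q) ^ a) • r ∈ Z := by
    rw [mul_pow]; exact hZinv.smul hrZ a a
  have hXu : X = univ := acc_torsion hp hq hirr hXc hXinv ht htr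
    (Nat.Coprime.coprime_mul_right hcop) (Nat.Coprime.coprime_mul_left hcop) hr'
  rw [dense_iff_closure_eq]
  exact hXu

end Pool.Agent.H847R3.XpXq
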