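import Mathlib
import Pool.Agent.H847R3.XpXqD

/-!
Furstenberg's theorem for closed invariant sets, and a uniform hitting time.
-/

set_option autoImplicit false

open Set Filter Topology MeasureTheory

namespace Pool.Agent.H847R3.XpXq

/-- **Furstenberg's theorem**: a closed invariant set is finite or everything. -/
theorem finite_of_inv {p q : ℕ} (hp : 2 ≤ p) (hq : 2 ≤ q)
    (hirr : Irrational (Real.log p / Real.log q)) {X : Set TT} (hXc : IsClosed X)
    (hXinv : Inv p q X) (hne : X ≠ univ) : X.Finite := by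
  by_contra hinf
  have hinf' : X.Infinite := hinf
  set Z : Set TT := {z | ∀ ε : ℝ, 0 < ε → ∃ x ∈ X, x ≠ z ∧ dist x z < ε} with hZ
  have hZc : IsClosed Z := by
    rw [← closure_subset_iff_isClosed]
    intro z hz ε hε
    obtain ⟨z', hz', hd⟩ := Metric.mem_closure_iff.1 hz (ε / 2) (by positivity)
    by_cases h : z' = z
    · subst h
      exact hz' ε hε
    · have h0 : 0 < dist z z' := dist_pos.2 (Ne.symm h)
      obtain ⟨x, hx, hxz, hd'⟩ := hz' (min (ε / 2) (dist z z')) (lt_min (by positivity) h0)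
      refine ⟨x, hx, ?_, ?_⟩
      · rintro rfl
        exact absurd (lt_of_lt_of_le hd' (min_le_right _ _)) (lt_irrefl _)
      · calc dist x z ≤ dist x z' + dist z z' := dist_triangle_right _ _ _
          _ < ε / 2 + ε / 2 := add_lt_add (lt_of_lt_of_le hd' (min_le_left _ _)) hd
          _ = ε := by ring
  have hmul : ∀ (s : ℕ), 1 ≤ s → (∀ x ∈ X, s • x ∈ X) → ∀ z ∈ Z, s • z ∈ Z := by
    intro s hs hsX z hz ε hε
    have hs0 : (0 : ℝ) < s := by exact_mod_cast hs
    obtain ⟨x, hx, hxz, hd⟩ := hz (min (ε / s) (1 / s)) (lt_min (by positivity) (by positivity))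
    obtain ⟨r, hr, hrn⟩ := exists_rep_norm (x - z)
    rw [dist_eq_norm] at hd
    have hr1 : s * |r| < ε := by
      have := lt_of_lt_of_le hd (min_le_left _ _)
      rw [← hrn, lt_div_iff₀ hs0] at this
      linarith
    have hr2 : s * |r| < 1 := by
      have := lt_of_lt_of_le hd (min_le_right _ _)
      rw [← hrn, lt_div_iff₀ hs0] at this
      linarith
    have e : s • x - s • z = ((s * r : ℝ) : TT) := by
      rw [← nsmul_sub, ← hr, ← AddCircle.coe_nsmul, nsmul_eq_mul]
    refine ⟨s • x, hsX x hx, ?_, ?_⟩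
    · intro heq
      rw [← sub_eq_zero, e, AddCircle.coe_eq_zero_iff] at heq
      obtain ⟨n, hn⟩ := heq
      simp only [zsmul_eq_mul, mul_one] at hn
      have h1 : |(n : ℝ)| < 1 := by rw [hn, abs_mul, abs_of_pos hs0]; exact hr2
      have h2 : n = 0 := by
        have : |n| < 1 := by exact_mod_cast h1
        exact Int.abs_lt_one_iff.1 this
      rw [h2] at hn
      have h3 : r = 0 := by
        have : (s : ℝ) * r = 0 := by rw [← hn]; simp
        rcases mul_eq_zero.1 this with h | h
        · exact absurd h hs0.ne'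
        · exact h
      rw [h3] at hrn
      apply hxz
      rw [← sub_eq_zero, ← norm_eq_zero, ← hrn]; simp
    · rw [dist_eq_norm, e]
      have := dist_coe_le (s * r) 0
      rw [AddCircle.coe_zero, dist_zero_right, sub_zero, abs_mul, abs_of_pos hs0] at this
      linarith
  have hZinv : Inv p q Z := fun z hz =>
    ⟨hmul p (by omega) (fun x hx => (hXinv x hx).1) z hz,
      hmul q (by omega) (fun x hx => (hXinv x hx).2) z hz⟩
  have hZne : Z.Nonempty := by
    have f := hinf'.natEmbedding X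
    obtain ⟨a, ha⟩ := exists_lim (f := fun n => (f n : TT))
      (Subtype.val_injective.comp f.injective)
    refine ⟨a, fun ε hε => ?_⟩
    obtain ⟨i, j, h1, -, h3, -⟩ := ha ε hε
    exact ⟨_, (f i).2, h1, h3⟩
  obtain ⟨r, hrZ, hr⟩ := exists_torsion hp hq hirr hZc hZne hZinv
  obtain ⟨a, t, ht, htr, hcop⟩ := exists_coprime (m := p * q) (by nlinarith) hr
  have hr' : ((p * q) ^ a) • r ∈ Z := by
    rw [mul_pow]; exact hZinv.smul hrZ a a
  exact hne (acc_torsion hp hq hirr hXc hXinv ht htr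
    (Nat.Coprime.coprime_mul_right hcop) (Nat.Coprime.coprime_mul_left hcop) hr')

/-- the points whose orbit avoids `U` -/
def KU (p q : ℕ) (U : Set TT) : Set TT := {x | ∀ i j : ℕ, (p ^ i * q ^ j) • x ∉ U}

lemma KU_inv (p q : ℕ) (U : Set TT) : Inv p q (KU p q U) := by
  intro x hx
  constructor
  · intro i j h
    apply hx (i + 1) j
    rw [← mul_nsmul'] at h
    convert h using 2
    ring
  · intro i j h
    apply hx i (j + 1)
    rw [← mul_nsmul'] at h
    convert h using 2
    ring

lemma KU_closed (p q : ℕ) {U : Set TT} (hU : IsOpen U) : IsClosed (KU p q U) := by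
  have : KU p q U = ⋂ i : ℕ, ⋂ j : ℕ, (fun x : TT => (p ^ i * q ^ j) • x) ⁻¹' Uᶜ := by
    ext x; simp [KU]
  rw [this]
  exact isClosed_iInter fun i => isClosed_iInter fun j =>
    hU.isClosed_compl.preimage (continuous_const_smul _)

lemma KU_ne {p q : ℕ} {U : Set TT} (hne : U.Nonempty) : KU p q U ≠ univ := by
  obtain ⟨x, hx⟩ := hne
  intro h
  have : x ∈ KU p q U := by rw [h]; trivial
  apply this 0 0
  simpa using hx

lemma KU_finite {p q : ℕ} (hp : 2 ≤ p) (hq : 2 ≤ q)
    (hirr : Irrational (Real.log p / Real.log q)) {U : Set TT} (hU : IsOpen U)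
    (hne : U.Nonempty) : (KU p q U).Finite :=
  finite_of_inv hp hq hirr (KU_closed p q hU) (KU_inv p q U) (KU_ne hne)

/-- a finite invariant set consists of torsion points with a common denominator -/
lemma exists_den {p q : ℕ} (hp : 2 ≤ p) {K : Set TT} (hK : K.Finite) (hinv : Inv p q K) :
    ∃ d : ℕ, 1 ≤ d ∧ ∀ k ∈ K, d • k = 0 := by
  have h1 : ∀ k ∈ K, IsOfFinAddOrder k := by
    intro k hk
    by_contra hcon
    have hinj := orbit_inj hp hcon
    have hmap : ∀ i : ℕ, (p ^ i) • k ∈ K := fun i => by simpa using hinv.smul hk i 0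
    exact (infinite_range_of_injective hinj) (hK.subset (by rintro _ ⟨i, rfl⟩; exact hmap i))
  refine ⟨∏ k ∈ hK.toFinset, addOrderOf k, ?_, ?_⟩
  · apply Nat.one_le_iff_ne_zero.2
    rw [Finset.prod_ne_zero_iff]
    intro k hk
    exact ((h1 k (hK.mem_toFinset.1 hk)).addOrderOf_pos).ne'
  · intro k hk
    rw [← addOrderOf_dvd_iff_nsmul_eq_zero]
    exact Finset.dvd_prod_of_mem _ (hK.mem_toFinset.2 hk)

/-- nonzero torsion points are not small -/
lemma torsion_norm {d : ℕ} (hd : 1 ≤ d) {w : TT} (hw : d • w = 0) (h0 : w ≠ 0) :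
    1 / (d : ℝ) ≤ ‖w‖ := by
  have hd0 : (0 : ℝ) < d := by exact_mod_cast hd
  obtain ⟨v, hv, hvn⟩ := exists_rep_norm w
  rw [← hvn]
  rw [← hv, ← AddCircle.coe_nsmul, AddCircle.coe_eq_zero_iff] at hw
  obtain ⟨n, hn⟩ := hw
  simp only [zsmul_eq_mul, mul_one, nsmul_eq_mul] at hn
  have hn0 : n ≠ 0 := by
    rintro rfl
    have : (d : ℝ) * v = 0 := by rw [← hn]; simp
    rcases mul_eq_zero.1 this with h | h
    · exact hd0.ne' h
    · apply h0; rw [← hv, h]; simp
  have h1 : (1 : ℝ) ≤ |(n : ℝ)| := by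
    have := Int.one_le_abs hn0
    exact_mod_cast this
  rw [hn, abs_mul, abs_of_pos hd0] at h1
  rw [div_le_iff₀ hd0]
  linarith

/-- a point with `‖d x‖` small is close to a `d`-torsion point -/
lemma near_torsion {d : ℕ} (hd : 1 ≤ d) (x : TT) :
    ∃ r : TT, d • r = 0 ∧ dist x r ≤ ‖d • x‖ / d := by
  have hd0 : (0 : ℝ) < d := by exact_mod_cast hd
  obtain ⟨v, hv, hvn⟩ := exists_rep_norm (d • x)
  refine ⟨x - ((v / d : ℝ) : TT), ?_, ?_⟩
  · rw [nsmul_sub, ← hv, ← AddCircle.coe_nsmul, nsmul_eq_mul, mul_div_cancel₀ _ hd0.ne', sub_self]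
  · rw [dist_eq_norm, sub_sub_cancel, ← hvn]
    have := dist_coe_le (v / d) 0
    rw [AddCircle.coe_zero, dist_zero_right, sub_zero, abs_div, abs_of_pos hd0] at this
    exact this

lemma norm_smul_le (d : ℕ) (w : TT) : ‖d • w‖ ≤ d * ‖w‖ := by
  obtain ⟨v, hv, hvn⟩ := exists_rep_norm w
  rw [← hvn, ← hv, ← AddCircle.coe_nsmul, nsmul_eq_mul]
  have := dist_coe_le (d * v) 0
  rw [AddCircle.coe_zero, dist_zero_right, sub_zero, abs_mul, Nat.abs_cast] at this
  exact this

/-- uniform hitting: mass away from `KU` is controlled by the mass of `U` -/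
lemma hit {p q : ℕ} {U : Set TT} (hU : IsOpen U) {c : ℝ} (hc : 0 < c) :
    ∃ n : ℕ, ∀ μ : Measure TT, IsProbabilityMeasure μ →
      MeasurePreserving (fun x : TT => p • x) μ μ → MeasurePreserving (fun x : TT => q • x) μ μ →
      μ.real {x : TT | ∀ k ∈ KU p q U, c ≤ dist x k} ≤ n * μ.real U := by
  classical
  set E : Set TT := {x : TT | ∀ k ∈ KU p q U, c ≤ dist x k} with hE
  have hEc : IsClosed E := by
    have : E = ⋂ k ∈ KU p q U, {x : TT | c ≤ dist x k} := by ext x; simp [hE]
    rw [this]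
    exact isClosed_biInter fun k _ => isClosed_le continuous_const (continuous_id.dist continuous_const)
  have hcover : E ⊆ ⋃ s : ℕ × ℕ, (fun x : TT => (p ^ s.1 * q ^ s.2) • x) ⁻¹' U := by
    intro x hx
    by_contra hcon
    have hxK : x ∈ KU p q U := by
      intro i j h
      exact hcon (mem_iUnion.2 ⟨(i, j), h⟩)
    have := hx x hxK
    rw [dist_self] at this
    linarith
  obtain ⟨S, hS⟩ := hEc.isCompact.elim_finite_subcover _
    (fun s : ℕ × ℕ => hU.preimage (continuous_const_smul (p ^ s.1 * q ^ s.2))) hcover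
  refine ⟨S.card, fun μ hμ h1 h2 => ?_⟩
  have hpres : ∀ i j : ℕ, MeasurePreserving (fun x : TT => (p ^ i * q ^ j) • x) μ μ := by
    intro i j
    have e : (fun x : TT => (p ^ i * q ^ j) • x) =
        (fun x : TT => p • x)^[i] ∘ (fun x : TT => q • x)^[j] := by
      funext x
      simp only [Function.comp]
      have e1 : ∀ (m n : ℕ) (y : TT), (fun x : TT => m • x)^[n] y = m ^ n • y := by
        intro m n
        induction n with
        | zero => intro y; simp
        | succ n ih => intro y; rw [Function.iterate_succ_apply, ih, ← mul_nsmul', pow_succ]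
      rw [e1, e1, mul_nsmul']
    rw [e]
    exact (h1.iterate i).comp (h2.iterate j)
  calc μ.real E ≤ μ.real (⋃ s ∈ S, (fun x : TT => (p ^ s.1 * q ^ s.2) • x) ⁻¹' U) :=
        measureReal_mono hS (measure_ne_top μ _)
    _ ≤ ∑ s ∈ S, μ.real ((fun x : TT => (p ^ s.1 * q ^ s.2) • x) ⁻¹' U) :=
        measureReal_biUnion_finset_le _ _
    _ = ∑ s ∈ S, μ.real U := by
        refine Finset.sum_congr rfl fun s _ => ?_
        exact (hpres s.1 s.2).measureReal_preimage hU.measurableSet.nullMeasurableSet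
    _ = S.card * μ.real U := by rw [Finset.sum_const, nsmul_eq_mul]

end Pool.Agent.H847R3.XpXq
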