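import Mathlib
import Pool.Agent.H706R2.NonConc5
import Pool.Agent.H819.Gasket7
import Pool.Agent.H847R3.SuppA

/-!
Quantitative support of invariant measures: the mass of every nonempty open set.
-/

set_option autoImplicit false

open Set Filter Topology MeasureTheory

namespace Pool.Agent.H847R3.XpXq

/-- growth of order `s` of the set of far points around any far point -/
def Gr (p q : ℕ) (s : ℝ) : Prop :=
  ∃ r : ℝ, 0 < r ∧ ((p : ℝ) + 1) * r ≤ 1 ∧ ∃ a : ℝ, 0 < a ∧ ∃ b : ℝ, 0 < b ∧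
    ∀ T : ℝ, 1 ≤ T → ∃ N : ℕ, Pool.Agent.H706R2.G p q r (a * T) N ∧ b * T ^ s ≤ N

lemma gr_of_pow {p q : ℕ} {r : ℝ} (hr : 0 < r) (hrp : ((p : ℝ) + 1) * r ≤ 1) {A B : ℕ}
    (hA : 2 ≤ A) (hB : 2 ≤ B) {c : ℝ} (hc : 0 ≤ c)
    (h : ∀ j : ℕ, Pool.Agent.H706R2.G p q r (c * A ^ j) (B ^ j)) :
    Gr p q (Real.log B / Real.log A) := by
  have hAR : (2 : ℝ) ≤ A := by exact_mod_cast hA
  have hBR : (2 : ℝ) ≤ B := by exact_mod_cast hB
  have hlA : 0 < Real.log (A : ℝ) := Real.log_pos (by linarith)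
  have hlB : 0 < Real.log (B : ℝ) := Real.log_pos (by linarith)
  refine ⟨r, hr, hrp, c + 1, by linarith, 1 / B, by positivity, fun T hT => ?_⟩
  set j := ⌊Real.log T / Real.log A⌋₊ with hj
  have hlT : 0 ≤ Real.log T := Real.log_nonneg hT
  have hj1 : (A : ℝ) ^ j ≤ T := by
    have h1 : (j : ℝ) ≤ Real.log T / Real.log A := Nat.floor_le (by positivity)
    rw [le_div_iff₀ hlA] at h1
    rw [← Real.log_le_log_iff (by positivity) (by linarith), Real.log_pow]
    exact h1
  have hj2 : Real.log T < (j + 1) * Real.log A := by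
    have h1 := Nat.lt_floor_add_one (Real.log T / Real.log A)
    rwa [div_lt_iff₀ hlA] at h1
  refine ⟨B ^ j, Pool.Agent.H706R2.G_mono (h j) ?_ le_rfl, ?_⟩
  · have h1 : c * (A : ℝ) ^ j ≤ c * T := mul_le_mul_of_nonneg_left hj1 hc
    linarith
  · have h6 : T ^ (Real.log B / Real.log A) ≤ (B : ℝ) ^ (j + 1) := by
      rw [Real.rpow_def_of_pos (by linarith), ← Real.log_le_log_iff (Real.exp_pos _) (by positivity),
        Real.log_exp, Real.log_pow]
      have h7 : Real.log T * (Real.log B / Real.log A) ≤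
          ((j : ℝ) + 1) * Real.log A * (Real.log B / Real.log A) :=
        mul_le_mul_of_nonneg_right hj2.le (by positivity)
      have h8 : ((j : ℝ) + 1) * Real.log A * (Real.log B / Real.log A) =
          ((j : ℝ) + 1) * Real.log B := by
        field_simp
      push_cast
      linarith
    push_cast
    rw [one_div, inv_mul_le_iff₀ (by linarith), ← pow_succ']
    exact h6

/-- growth from `H819.Gasket7` (coprime) and `H706R2.NonConc4` (general) -/
theorem exists_gr {p q : ℕ} (hp : 2 ≤ p) (hq : 2 ≤ q)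
    (hirr : Irrational (Real.log (p : ℝ) / Real.log (q : ℝ))) :
    ∃ s : ℝ, 1 < s ∧ s < 2 ∧ (Nat.Coprime p q → s = Real.log 3 / Real.log 2) ∧ Gr p q s := by
  set r : ℝ := 1 / (1 + max (p : ℝ) (q : ℝ)) with hr
  have hmax : 0 < 1 + max (p : ℝ) (q : ℝ) := by positivity
  have hr0 : 0 < r := by positivity
  have hrp : ((p : ℝ) + 1) * r ≤ 1 := by
    rw [hr, mul_one_div, div_le_one hmax]
    have := le_max_left (p : ℝ) (q : ℝ)
    linarith
  have hrq : ((q : ℝ) + 1) * r ≤ 1 := by
    rw [hr, mul_one_div, div_le_one hmax]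
    have := le_max_right (p : ℝ) (q : ℝ)
    linarith
  have hlq : 0 < Real.log q := Real.log_pos (by exact_mod_cast (by omega : 1 < q))
  have hlp : 0 < Real.log p := Real.log_pos (by exact_mod_cast (by omega : 1 < p))
  have hlt : ∀ C : ℕ, 2 ≤ C → 1 < Real.log (C + 1) / Real.log C := by
    intro C hC
    have hCR : (2 : ℝ) ≤ C := by exact_mod_cast hC
    have h1 : 0 < Real.log (C : ℝ) := Real.log_pos (by linarith)
    have h2 : Real.log (C : ℝ) < Real.log (C + 1) := Real.log_lt_log (by linarith) (by linarith)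
    rw [lt_div_iff₀ h1]; linarith
  have hgt : ∀ C : ℕ, 2 ≤ C → Real.log (C + 1) / Real.log C < 2 := by
    intro C hC
    have hCR : (2 : ℝ) ≤ C := by exact_mod_cast hC
    have h1 : 0 < Real.log (C : ℝ) := Real.log_pos (by linarith)
    have h2 : Real.log ((C : ℝ) + 1) < Real.log ((C : ℝ) ^ 2) :=
      Real.log_lt_log (by linarith) (by nlinarith)
    rw [Real.log_pow] at h2
    push_cast at h2
    rw [div_lt_iff₀ h1]; linarith
  have hgr : ∀ (C : ℕ) (c : ℝ), 2 ≤ C → 0 ≤ c → Pool.Agent.H706R2.Scales p q r C c →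
      Gr p q (Real.log (C + 1) / Real.log C) := by
    intro C c hC hc hsc
    have h1 : ∀ j : ℕ, Pool.Agent.H706R2.G p q r (c * C ^ j) ((C + 1) ^ j) := by
      intro j
      refine Pool.Agent.H706R2.G_mono (Pool.Agent.H706R2.growth hC hc hsc j) ?_ le_rfl
      exact mul_le_mul_of_nonneg_left (by linarith) hc
    have h2 := gr_of_pow (A := C) (B := C + 1) hr0 hrp hC (by omega) hc h1
    push_cast at h2
    exact h2
  by_cases hco : Nat.Coprime p q
  · obtain ⟨c, hc, hG⟩ := Pool.Agent.H819.gasket_growth hp hq hco hr0 hrp hrq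
    have e : Real.log (((2 : ℕ) : ℝ) + 1) / Real.log ((2 : ℕ) : ℝ)
        = Real.log 3 / Real.log 2 := by norm_num
    refine ⟨Real.log 3 / Real.log 2, ?_, ?_, fun _ => rfl, ?_⟩
    · rw [← e]; exact hlt 2 le_rfl
    · rw [← e]; exact hgt 2 le_rfl
    · have h1 : ∀ j : ℕ, Pool.Agent.H706R2.G p q r (c * ((2 : ℕ) : ℝ) ^ j) (3 ^ j) := by
        intro j
        refine Pool.Agent.H706R2.G_mono (hG j) ?_ le_rfl
        exact mul_le_mul_of_nonneg_left (by linarith) hc.le
      have h2 := gr_of_pow (A := 2) (B := 3) hr0 hrp le_rfl (by norm_num) hc.le h1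
      push_cast at h2
      exact h2
  · obtain ⟨C, c, hC, hc, hsc⟩ := Pool.Agent.H706R2.scales_general hp hq hirr hrp hrq
    exact ⟨Real.log (C + 1) / Real.log C, hlt C (by omega), hgt C (by omega),
      fun h => absurd h hco, hgr C c (by omega) hc.le hsc⟩

/-- non-concentration at `0` from growth -/
theorem nonconc {p q : ℕ} (hp : 2 ≤ p) (hq : 2 ≤ q) {s : ℝ} (hs : Gr p q s) :
    ∃ r : ℝ, 0 < r ∧ ∃ C : ℝ, ∀ μ : Measure TT, IsProbabilityMeasure μ →
        MeasurePreserving (fun x : TT => p • x) μ μ →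
        MeasurePreserving (fun x : TT => q • x) μ μ →
        ∀ t : ℝ, 1 ≤ t →
          μ.real {x : TT | Real.exp (-t) ≤ ‖x‖} ≤ C * t ^ (2 - s) * μ.real {x : TT | r ≤ ‖x‖} := by
  obtain ⟨r, hr, hrp, a, ha, b, hb, hG⟩ := hs
  have hlq : 0 < Real.log q := Real.log_pos (by exact_mod_cast (by omega : 1 < q))
  have hlp : 0 < Real.log p := Real.log_pos (by exact_mod_cast (by omega : 1 < p))
  set K1 : ℝ := 2 * a / Real.log p + 1 / Real.log p + 2 with hK1
  set K2 : ℝ := 2 * a / Real.log q + 1 with hK2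
  have hK1p : 0 < K1 := by positivity
  have hK2p : 0 < K2 := by positivity
  refine ⟨r, hr, K1 * K2 / b, fun μ hμ hμp hμq t ht => ?_⟩
  obtain ⟨N, hGN, hN⟩ := hG t ht
  set R : ℝ := a * t with hR
  have hR0 : 0 ≤ R := by positivity
  set A := ⌊R / Real.log p⌋₊ with hA
  set B := ⌊R / Real.log q⌋₊ with hB
  set I := ⌈t / Real.log p⌉₊ with hI
  have hA1 : R < (A + 1) * Real.log p := by
    have := Nat.lt_floor_add_one (R / Real.log p)
    rwa [div_lt_iff₀ hlp] at this
  have hB1 : R < (B + 1) * Real.log q := by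
    have := Nat.lt_floor_add_one (R / Real.log q)
    rwa [div_lt_iff₀ hlq] at this
  have hI1 : t ≤ I * Real.log p := by
    have := Nat.le_ceil (t / Real.log p)
    rwa [div_le_iff₀ hlp] at this
  have hA2 : (A : ℝ) ≤ a * t / Real.log p := Nat.floor_le (by positivity)
  have hB2 : (B : ℝ) ≤ a * t / Real.log q := Nat.floor_le (by positivity)
  have hI2 : (I : ℝ) ≤ t / Real.log p + 1 := (Nat.ceil_lt_add_one (by positivity)).le
  have h1 := Pool.Agent.H706R2.measure_ineq hp hq hrp hGN hA1 hB1 hI1 μ hμp hμq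
  have h2 : (2 * (A : ℝ) + I + 1) ≤ K1 * t := by
    have : K1 * t = 2 * (a * t / Real.log p) + t / Real.log p + 2 * t := by rw [hK1]; ring
    rw [this]; linarith
  have h3 : (2 * (B : ℝ) + 1) ≤ K2 * t := by
    have : K2 * t = 2 * (a * t / Real.log q) + t := by rw [hK2]; ring
    rw [this]; linarith
  have h4 : ((2 * (A : ℝ) + I + 1) * (2 * B + 1)) ≤ (K1 * t) * (K2 * t) :=
    mul_le_mul h2 h3 (by positivity) (by positivity)
  have hF0 : 0 ≤ μ.real {x : TT | r ≤ ‖x‖} := measureReal_nonneg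
  have hE0 : 0 ≤ μ.real {x : TT | Real.exp (-t) ≤ ‖x‖} := measureReal_nonneg
  have hts : 0 < t ^ s := Real.rpow_pos_of_pos (by linarith) _
  have h5 : b * t ^ s * μ.real {x : TT | Real.exp (-t) ≤ ‖x‖} ≤
      (K1 * K2) * t ^ 2 * μ.real {x : TT | r ≤ ‖x‖} := by
    calc b * t ^ s * μ.real {x : TT | Real.exp (-t) ≤ ‖x‖}
        ≤ N * μ.real {x : TT | Real.exp (-t) ≤ ‖x‖} := mul_le_mul_of_nonneg_right hN hE0
      _ ≤ _ := h1
      _ ≤ (K1 * t) * (K2 * t) * μ.real {x : TT | r ≤ ‖x‖} := mul_le_mul_of_nonneg_right h4 hF0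
      _ = _ := by ring
  have h10 : t ^ (2 - s) = t ^ 2 / t ^ s := by
    rw [Real.rpow_sub (by linarith)]; norm_num
  rw [h10]
  have h11 : μ.real {x : TT | Real.exp (-t) ≤ ‖x‖} ≤
      ((K1 * K2) * t ^ 2 * μ.real {x : TT | r ≤ ‖x‖}) / (b * t ^ s) := by
    rw [le_div_iff₀ (by positivity)]; linarith
  refine h11.trans (le_of_eq ?_)
  field_simp

/-- the image of an invariant measure under multiplication by `d` is invariant -/
lemma map_inv {m d : ℕ} {μ : Measure TT} (h : MeasurePreserving (fun x : TT => m • x) μ μ) :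
    MeasurePreserving (fun x : TT => m • x) (μ.map fun x : TT => d • x)
      (μ.map fun x : TT => d • x) := by
  have hmd : Measurable fun x : TT => d • x := (continuous_const_smul d).measurable
  have hmm : Measurable fun x : TT => m • x := (continuous_const_smul m).measurable
  refine ⟨hmm, ?_⟩
  rw [Measure.map_map hmm hmd]
  have e : (fun x : TT => m • x) ∘ (fun x : TT => d • x) =
      (fun x : TT => d • x) ∘ (fun x : TT => m • x) := by
    funext x
    simp only [Function.comp]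
    rw [← mul_nsmul', ← mul_nsmul', mul_comm]
  rw [e, ← Measure.map_map hmd hmm, h.map_eq]

/-- **Quantitative support.** -/
theorem support {p q : ℕ} (hp : 2 ≤ p) (hq : 2 ≤ q)
    (hirr : Irrational (Real.log (p : ℝ) / Real.log (q : ℝ))) {s : ℝ} (hs2 : s < 2)
    (hs : Gr p q s) {U : Set TT} (hU : IsOpen U) (hne : U.Nonempty) :
    ∃ C : ℝ, 0 < C ∧
        ∀ μ : Measure TT, IsProbabilityMeasure μ →
          MeasurePreserving (fun x : TT => p • x) μ μ →
          MeasurePreserving (fun x : TT => q • x) μ μ →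
          ∀ t : ℝ, 1 ≤ t →
            μ.real {x : TT | ∀ k ∈ KU p q U, Real.exp (-t) ≤ dist x k} ≤
              C * t ^ (2 - s) * μ.real U := by
  obtain ⟨r, hr, C, hC⟩ := nonconc hp hq hs
  set κ : ℝ := 2 - s with hκ
  have hκ0 : 0 < κ := by rw [hκ]; linarith
  obtain ⟨d, hd, hdK⟩ := exists_den hp (KU_finite hp hq hirr hU hne) (KU_inv p q U)
  have hd0 : (0 : ℝ) < d := by exact_mod_cast hd
  set c0 : ℝ := min (r / d) (1 / (2 * d)) with hc0
  have hc0' : 0 < c0 := lt_min (by positivity) (by positivity)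
  obtain ⟨n, hn⟩ := hit (p := p) (q := q) hU hc0'
  refine ⟨(|C| + 1) * (n + 1), by positivity, fun μ hμ h1 h2 t ht => ?_⟩
  set E : Set TT := {x : TT | ∀ k ∈ KU p q U, c0 ≤ dist x k} with hE
  have hEn := hn μ hμ h1 h2
  have hmd : Measurable fun x : TT => d • x := (continuous_const_smul d).measurable
  have hν : IsProbabilityMeasure (μ.map fun x : TT => d • x) :=
    Measure.isProbabilityMeasure_map hmd.aemeasurable
  have key := hC _ hν (map_inv h1) (map_inv h2) t ht
  have hm1 : MeasurableSet {x : TT | Real.exp (-t) ≤ ‖x‖} :=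
    (isClosed_le continuous_const continuous_norm).measurableSet
  have hm2 : MeasurableSet {x : TT | r ≤ ‖x‖} :=
    (isClosed_le continuous_const continuous_norm).measurableSet
  rw [map_measureReal_apply hmd hm1, map_measureReal_apply hmd hm2] at key
  -- far from the torsion points
  have hsub2 : (fun x : TT => d • x) ⁻¹' {x : TT | r ≤ ‖x‖} ⊆ E := by
    intro x hx k hk
    by_contra hcon
    push Not at hcon
    have h3 : dist x k < r / d := lt_of_lt_of_le hcon (min_le_left _ _)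
    have h4 : d • x = d • (x - k) := by rw [nsmul_sub, hdK k hk, sub_zero]
    have h5 : r ≤ ‖d • x‖ := hx
    rw [h4] at h5
    have h6 := norm_smul_le d (x - k)
    rw [dist_eq_norm] at h3
    have h7 : (d : ℝ) * ‖x - k‖ < d * (r / d) := mul_lt_mul_of_pos_left h3 hd0
    rw [mul_div_cancel₀ _ hd0.ne'] at h7
    linarith
  have hsub1 : {x : TT | ∀ k ∈ KU p q U, Real.exp (-t) ≤ dist x k} ⊆
      ((fun x : TT => d • x) ⁻¹' {x : TT | Real.exp (-t) ≤ ‖x‖}) ∪ E := by
    intro x hx
    by_cases h3 : Real.exp (-t) ≤ ‖d • x‖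
    · exact Or.inl h3
    right
    push Not at h3
    obtain ⟨s, hs, hxs⟩ := near_torsion hd x
    have hexp : Real.exp (-t) ≤ 1 / 2 := by
      have e1 : Real.exp (-t) ≤ Real.exp (-1) := Real.exp_le_exp.2 (by linarith)
      have e2 : Real.exp (-1) < 1 / 2 := by
        have := Real.exp_neg_one_lt_d9
        linarith
      linarith
    have hxs2 : dist x s < Real.exp (-t) / d := lt_of_le_of_lt hxs (by gcongr)
    have hd1 : (1 : ℝ) ≤ d := by exact_mod_cast hd
    have hle : Real.exp (-t) / d ≤ Real.exp (-t) := div_le_self (Real.exp_pos _).le hd1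
    intro k hk
    by_cases hsk : s = k
    · subst hsk
      have := hx s hk
      linarith
    · have h4 : 1 / (d : ℝ) ≤ ‖s - k‖ := by
        apply torsion_norm hd _ (sub_ne_zero.2 hsk)
        rw [nsmul_sub, hs, hdK k hk, sub_zero]
      rw [← dist_eq_norm] at h4
      have h5 : dist s k ≤ dist x s + dist x k := dist_triangle_left _ _ _
      have h6 : Real.exp (-t) / d ≤ (1 / 2) / d := by gcongr
      have h7 : c0 ≤ 1 / (2 * d) := min_le_right _ _
      have h8 : 1 / (2 * (d : ℝ)) = (1 / 2) / d := by field_simp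
      have h9 : 1 / (d : ℝ) = (1 / 2) / d + (1 / 2) / d := by field_simp; norm_num
      linarith
  have hE1 : μ.real ((fun x : TT => d • x) ⁻¹' {x : TT | r ≤ ‖x‖}) ≤ μ.real E :=
    measureReal_mono hsub2 (measure_ne_top μ _)
  have hU0 : 0 ≤ μ.real U := measureReal_nonneg
  have hE0 : 0 ≤ μ.real E := measureReal_nonneg
  have htk : 1 ≤ t ^ κ := Real.one_le_rpow ht hκ0.le
  calc μ.real {x : TT | ∀ k ∈ KU p q U, Real.exp (-t) ≤ dist x k}
      ≤ μ.real (((fun x : TT => d • x) ⁻¹' {x : TT | Real.exp (-t) ≤ ‖x‖}) ∪ E) :=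
        measureReal_mono hsub1 (measure_ne_top μ _)
    _ ≤ μ.real ((fun x : TT => d • x) ⁻¹' {x : TT | Real.exp (-t) ≤ ‖x‖}) + μ.real E :=
        measureReal_union_le _ _
    _ ≤ C * t ^ κ * μ.real ((fun x : TT => d • x) ⁻¹' {x : TT | r ≤ ‖x‖}) + μ.real E := by
        linarith
    _ ≤ |C| * t ^ κ * μ.real E + t ^ κ * μ.real E := by
        have a1 : C * t ^ κ * μ.real ((fun x : TT => d • x) ⁻¹' {x : TT | r ≤ ‖x‖}) ≤
            |C| * t ^ κ * μ.real ((fun x : TT => d • x) ⁻¹' {x : TT | r ≤ ‖x‖}) := by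
          have := le_abs_self C
          gcongr
        have a2 : |C| * t ^ κ * μ.real ((fun x : TT => d • x) ⁻¹' {x : TT | r ≤ ‖x‖}) ≤
            |C| * t ^ κ * μ.real E := by gcongr
        have a3 : μ.real E ≤ t ^ κ * μ.real E := le_mul_of_one_le_left hE0 htk
        linarith
    _ = (|C| + 1) * t ^ κ * μ.real E := by ring
    _ ≤ (|C| + 1) * t ^ κ * (n * μ.real U) := by gcongr
    _ ≤ (|C| + 1) * t ^ κ * ((n + 1) * μ.real U) := by
        gcongr
        linarith
    _ = (|C| + 1) * (n + 1) * t ^ κ * μ.real U := by ring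

end Pool.Agent.H847R3.XpXq
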