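import Mathlib
import Pool.Agent.H847R3.SuppB

/-!
Rational orbits: every open set receives a large proportion.
-/

set_option autoImplicit false

open Set Filter Topology MeasureTheory

namespace Pool.Agent.H847R3.XpXq

/-- the uniform probability measure on a finite set -/
noncomputable def unif (O : Finset TT) : Measure TT :=
  ((O.card : ENNReal)⁻¹) • ∑ y ∈ O, Measure.dirac y

lemma unif_apply (O : Finset TT) {s : Set TT} (hs : MeasurableSet s) :
    unif O s = (O.card : ENNReal)⁻¹ * ∑ y ∈ O, s.indicator (1 : TT → ENNReal) y := by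
  unfold unif
  rw [Measure.smul_apply, smul_eq_mul, Measure.finset_sum_apply]
  congr 1
  exact Finset.sum_congr rfl fun y _ => Measure.dirac_apply' y hs

lemma unif_prob {O : Finset TT} (hO : O.Nonempty) : IsProbabilityMeasure (unif O) := by
  constructor
  rw [unif_apply O MeasurableSet.univ]
  simp only [indicator_univ, Pi.one_apply, Finset.sum_const, nsmul_eq_mul, mul_one]
  exact ENNReal.inv_mul_cancel (by simpa using hO.ne_empty) (ENNReal.natCast_ne_top _)

lemma unif_real (O : Finset TT) {s : Set TT} (hs : MeasurableSet s) [DecidablePred (· ∈ s)] :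
    (unif O).real s = ((O.filter (· ∈ s)).card : ℝ) / O.card := by
  rw [Measure.real, unif_apply O hs]
  have h : ∑ y ∈ O, s.indicator (1 : TT → ENNReal) y = ((O.filter (· ∈ s)).card : ENNReal) := by
    rw [Finset.card_filter]
    push_cast
    refine Finset.sum_congr rfl fun y _ => ?_
    by_cases hy : y ∈ s <;> simp [hy]
  rw [h, ENNReal.toReal_mul, ENNReal.toReal_inv, ENNReal.toReal_natCast, ENNReal.toReal_natCast]
  rw [div_eq_inv_mul]

lemma unif_pres {O : Finset TT} {m : ℕ} (hmap : ∀ y ∈ O, m • y ∈ O)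
    (hinj : ∀ y ∈ O, ∀ z ∈ O, m • y = m • z → y = z) :
    MeasurePreserving (fun x : TT => m • x) (unif O) (unif O) := by
  classical
  have hm : Measurable fun x : TT => m • x := (continuous_const_smul m).measurable
  refine ⟨hm, ?_⟩
  ext s hs
  rw [Measure.map_apply hm hs, unif_apply O (hm hs), unif_apply O hs]
  congr 1
  have himg : O.image (fun x : TT => m • x) = O := by
    apply Finset.eq_of_subset_of_card_le
    · intro z hz
      obtain ⟨y, hy, rfl⟩ := Finset.mem_image.1 hz
      exact hmap y hy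
    · rw [Finset.card_image_of_injOn]
      intro y hy z hz h
      exact hinj y hy z hz h
  have h2 : ∑ y ∈ O, s.indicator (1 : TT → ENNReal) y =
      ∑ y ∈ O, s.indicator (1 : TT → ENNReal) (m • y) := by
    conv_lhs => rw [← himg]
    rw [Finset.sum_image]
    intro y hy z hz h
    exact hinj y hy z hz h
  rw [h2]
  rfl

/-- the orbit -/
def orb (p q : ℕ) (x : TT) : Set TT := {y | ∃ i j : ℕ, y = (p ^ i * q ^ j) • x}

lemma orb_torsion {p q N : ℕ} {x : TT} (hx : N • x = 0) {y : TT} (hy : y ∈ orb p q x) :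
    N • y = 0 := by
  obtain ⟨i, j, rfl⟩ := hy
  rw [← mul_nsmul', mul_comm, mul_nsmul', hx, nsmul_zero]

lemma orb_finite {p q N : ℕ} (hN : 1 ≤ N) {x : TT} (hx : N • x = 0) : (orb p q x).Finite :=
  (AddCircle.finite_torsion (p := (1 : ℝ)) (by omega : 0 < N)).subset
    fun _ hy => orb_torsion hx hy

lemma inj_of_coprime {m N : ℕ} (h : Nat.Coprime m N) {y z : TT} (hy : N • y = 0) (hz : N • z = 0)
    (he : m • y = m • z) : y = z := by
  have h1 : m • (y - z) = 0 := by rw [nsmul_sub, he, sub_self]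
  have h2 : N • (y - z) = 0 := by rw [nsmul_sub, hy, hz, sub_self]
  have h3 : addOrderOf (y - z) ∣ 1 := by
    rw [← h.gcd_eq_one]
    exact Nat.dvd_gcd (addOrderOf_dvd_of_nsmul_eq_zero h1) (addOrderOf_dvd_of_nsmul_eq_zero h2)
  rw [Nat.dvd_one, AddMonoid.addOrderOf_eq_one_iff] at h3
  exact sub_eq_zero.1 h3

/-- **Rational orbits.** -/
theorem rational {p q : ℕ} (hp : 2 ≤ p) (hq : 2 ≤ q)
    (hirr : Irrational (Real.log (p : ℝ) / Real.log (q : ℝ))) {κ : ℝ} (hκ : 0 < κ) {U : Set TT}
    (hU : IsOpen U) (hne : U.Nonempty) {C : ℝ} (hC0 : 0 < C)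
    (hC : ∀ μ : Measure TT, IsProbabilityMeasure μ →
          MeasurePreserving (fun x : TT => p • x) μ μ →
          MeasurePreserving (fun x : TT => q • x) μ μ →
          ∀ t : ℝ, 1 ≤ t →
            μ.real {x : TT | ∀ k ∈ KU p q U, Real.exp (-t) ≤ dist x k} ≤
              C * t ^ κ * μ.real U) :
    ∃ C' : ℝ, 0 < C' ∧ ∀ N : ℕ, 2 ≤ N → Nat.Coprime N (p * q) → ∀ x : TT, N • x = 0 →
      x ∉ KU p q U → ((orb p q x).ncard : ℝ) ≤ C' * Real.log N ^ κ * ((orb p q x ∩ U).ncard : ℝ) := by
  classical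
  obtain ⟨d, hd, hdK⟩ := exists_den hp (KU_finite hp hq hirr hU hne) (KU_inv p q U)
  have hd1 : (1 : ℝ) ≤ d := by exact_mod_cast hd
  have hld : 0 ≤ Real.log d := Real.log_nonneg hd1
  have hl2 : 0 < Real.log 2 := Real.log_pos (by norm_num)
  set A : ℝ := (1 + Real.log d) / Real.log 2 + 1 with hA
  have hA0 : 0 < A := by positivity
  refine ⟨C * A ^ κ, by positivity, fun N hN hco x hx hxK => ?_⟩
  have hcop : Nat.Coprime p N := (Nat.Coprime.coprime_mul_right_right hco).symm
  have hcoq : Nat.Coprime q N := (Nat.Coprime.coprime_mul_left_right hco).symm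
  have hfin := orb_finite (p := p) (q := q) (by omega : 1 ≤ N) hx
  set O : Finset TT := hfin.toFinset with hO
  have hmem : ∀ y, y ∈ O ↔ y ∈ orb p q x := fun y => hfin.mem_toFinset
  have hxO : x ∈ O := (hmem x).2 ⟨0, 0, by simp⟩
  have hOne : O.Nonempty := ⟨x, hxO⟩
  have htor : ∀ y ∈ O, N • y = 0 := fun y hy => orb_torsion hx ((hmem y).1 hy)
  have hμ := unif_prob hOne
  have h1 : MeasurePreserving (fun x : TT => p • x) (unif O) (unif O) := by
    refine unif_pres ?_ fun y hy z hz h => inj_of_coprime hcop (htor y hy) (htor z hz) h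
    intro y hy
    obtain ⟨i, j, rfl⟩ := (hmem y).1 hy
    exact (hmem _).2 ⟨i + 1, j, by rw [← mul_nsmul', pow_succ']; ring_nf⟩
  have h2 : MeasurePreserving (fun x : TT => q • x) (unif O) (unif O) := by
    refine unif_pres ?_ fun y hy z hz h => inj_of_coprime hcoq (htor y hy) (htor z hz) h
    intro y hy
    obtain ⟨i, j, rfl⟩ := (hmem y).1 hy
    exact (hmem _).2 ⟨i, j + 1, by rw [← mul_nsmul', pow_succ']; ring_nf⟩
  -- no point of the orbit lies in `K`
  have hOK : ∀ y ∈ O, y ∉ KU p q U := by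
    intro y hy hyK
    obtain ⟨i, j, rfl⟩ := (hmem y).1 hy
    set φ := Nat.totient N with hφ
    have hφ1 : 1 ≤ φ := Nat.totient_pos.2 (by omega)
    have hpx : ∀ y : TT, N • y = 0 → (p ^ φ) • y = y := fun y hy => fix_of_coprime hcop hy
    have hqx : ∀ y : TT, N • y = 0 → (q ^ φ) • y = y := fun y hy => fix_of_coprime hcoq hy
    have hpx' : ∀ n : ℕ, (p ^ (φ * n)) • x = x := by
      intro n
      induction n with
      | zero => simp
      | succ n ih => rw [mul_add, mul_one, pow_add, mul_nsmul', hpx x hx, ih]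
    have hqx' : ∀ n : ℕ, (q ^ (φ * n)) • x = x := by
      intro n
      induction n with
      | zero => simp
      | succ n ih => rw [mul_add, mul_one, pow_add, mul_nsmul', hqx x hx, ih]
    have h3 := (KU_inv p q U).smul hyK ((φ - 1) * i) ((φ - 1) * j)
    rw [← mul_nsmul'] at h3
    have e : p ^ ((φ - 1) * i) * q ^ ((φ - 1) * j) * (p ^ i * q ^ j) =
        p ^ (φ * i) * q ^ (φ * j) := by
      have e1 : (φ - 1) * i + i = φ * i := by
        obtain ⟨m, hm⟩ := Nat.exists_eq_add_of_le hφ1
        rw [hm]; simp; ring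
      have e2 : (φ - 1) * j + j = φ * j := by
        obtain ⟨m, hm⟩ := Nat.exists_eq_add_of_le hφ1
        rw [hm]; simp; ring
      rw [← e1, ← e2, pow_add, pow_add]
      ring
    rw [e, mul_nsmul', hqx', hpx'] at h3
    exact hxK h3
  set t : ℝ := 1 + Real.log (N * d) with ht
  have hN0 : (2 : ℝ) ≤ N := by exact_mod_cast hN
  have hNd : 1 ≤ (N : ℝ) * d := by nlinarith
  have ht1 : 1 ≤ t := by
    have := Real.log_nonneg hNd
    linarith
  have hfar : ∀ y ∈ O, ∀ k ∈ KU p q U, Real.exp (-t) ≤ dist y k := by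
    intro y hy k hk
    have hyk : y ≠ k := fun h => hOK y hy (h ▸ hk)
    have h3 : 1 / (((N * d : ℕ)) : ℝ) ≤ ‖y - k‖ := by
      apply torsion_norm (Nat.mul_pos (by omega) hd) _ (sub_ne_zero.2 hyk)
      rw [nsmul_sub]
      have e1 : (N * d) • y = 0 := by rw [mul_comm, mul_nsmul', htor y hy, nsmul_zero]
      have e2 : (N * d) • k = 0 := by rw [mul_nsmul', hdK k hk, nsmul_zero]
      rw [e1, e2, sub_zero]
    rw [← dist_eq_norm] at h3
    refine le_trans ?_ h3
    rw [ht, neg_add, Real.exp_add, Real.exp_neg (Real.log _), Real.exp_log (by positivity)]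
    push_cast
    rw [one_div]
    have h4 : Real.exp (-1) ≤ 1 := by
      rw [← Real.exp_zero]
      exact Real.exp_le_exp.2 (by norm_num)
    calc Real.exp (-1) * ((N : ℝ) * d)⁻¹ ≤ 1 * ((N : ℝ) * d)⁻¹ := by gcongr
      _ = _ := one_mul _
  have key := hC _ hμ h1 h2 t ht1
  have hms : MeasurableSet {x : TT | ∀ k ∈ KU p q U, Real.exp (-t) ≤ dist x k} := by
    have : {x : TT | ∀ k ∈ KU p q U, Real.exp (-t) ≤ dist x k} =
        ⋂ k ∈ KU p q U, {x : TT | Real.exp (-t) ≤ dist x k} := by ext x; simp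
    rw [this]
    exact (isClosed_biInter fun k _ =>
      isClosed_le continuous_const (continuous_id.dist continuous_const)).measurableSet
  rw [unif_real O hms, unif_real O hU.measurableSet] at key
  have hf1 : O.filter (· ∈ {x : TT | ∀ k ∈ KU p q U, Real.exp (-t) ≤ dist x k}) = O := by
    apply Finset.filter_true_of_mem
    intro y hy
    exact hfar y hy
  rw [hf1] at key
  have hOc : (0 : ℝ) < O.card := by exact_mod_cast hOne.card_pos
  rw [div_self hOc.ne', ← mul_div_assoc, one_le_div hOc] at key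
  have hc1 : (orb p q x).ncard = O.card := Set.ncard_eq_toFinset_card _ hfin
  have hc2 : (orb p q x ∩ U).ncard = (O.filter (· ∈ U)).card := by
    rw [← Set.ncard_coe_finset]
    congr 1
    ext y
    simp [hmem]
  rw [hc1, hc2]
  have htA : t ≤ A * Real.log N := by
    have h5 : Real.log 2 ≤ Real.log N := Real.log_le_log (by norm_num) hN0
    rw [ht, Real.log_mul (by positivity) (by positivity), hA]
    have h6 : 1 + Real.log d ≤ (1 + Real.log d) / Real.log 2 * Real.log N := by
      rw [div_mul_eq_mul_div, le_div_iff₀ hl2]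
      gcongr
    linarith
  have h7 : t ^ κ ≤ A ^ κ * Real.log N ^ κ := by
    rw [← Real.mul_rpow hA0.le (Real.log_nonneg (by linarith))]
    exact Real.rpow_le_rpow (by linarith) htA hκ.le
  calc (O.card : ℝ) ≤ C * t ^ κ * ((O.filter (· ∈ U)).card : ℝ) := key
    _ ≤ C * (A ^ κ * Real.log N ^ κ) * ((O.filter (· ∈ U)).card : ℝ) := by gcongr
    _ = _ := by ring

end Pool.Agent.H847R3.XpXq
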