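import Mathlib
import Pool.Agent.H847R3.SuppB

/-!
Irrational non-Liouville orbits: the number of visits to an open set.
-/

set_option autoImplicit false

open Set Filter Topology MeasureTheory

namespace Pool.Agent.H847R3.XpXq

/-- uniform hitting, pointwise -/
lemma hit_cover {p q : ℕ} {U : Set TT} (hU : IsOpen U) {c : ℝ} (hc : 0 < c) :
    ∃ S : Finset (ℕ × ℕ), ∀ x : TT, (∀ k ∈ KU p q U, c ≤ dist x k) →
      ∃ s ∈ S, (p ^ s.1 * q ^ s.2) • x ∈ U := by
  classical
  set E : Set TT := {x : TT | ∀ k ∈ KU p q U, c ≤ dist x k} with hE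
  have hEc : IsClosed E := by
    have : E = ⋂ k ∈ KU p q U, {x : TT | c ≤ dist x k} := by ext x; simp [hE]
    rw [this]
    exact isClosed_biInter fun k _ => isClosed_le continuous_const (continuous_id.dist continuous_const)
  have hcover : E ⊆ ⋃ s : ℕ × ℕ, (fun x : TT => (p ^ s.1 * q ^ s.2) • x) ⁻¹' U := by
    intro x hx
    by_contra hcon
    have hxK : x ∈ KU p q U := by
      intro i j h
      exact hcon (mem_iUnion.2 ⟨(i, j), h⟩)
    have := hx x hxK
    rw [dist_self] at this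
    linarith
  obtain ⟨S, hS⟩ := hEc.isCompact.elim_finite_subcover _
    (fun s : ℕ × ℕ => hU.preimage (continuous_const_smul (p ^ s.1 * q ^ s.2))) hcover
  refine ⟨S, fun x hx => ?_⟩
  have h1 := hS hx
  simp only [mem_iUnion, mem_preimage] at h1
  obtain ⟨s, hs, h2⟩ := h1
  exact ⟨s, hs, h2⟩

/-- lower bound for multiples of a non-Liouville irrational number -/
lemma nonliouville {x : ℝ} (hx : Irrational x) (hL : ¬ Liouville x) :
    ∃ m : ℕ, ∀ b : ℕ, 2 ≤ b → Real.exp (-(m * Real.log b)) ≤ ‖b • (x : TT)‖ := by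
  have h1 : ∃ m : ℕ, ∀ a b : ℤ, 1 < b → 1 / (b : ℝ) ^ m ≤ |x - a / b| := by
    by_contra hcon
    push Not at hcon
    apply hL
    intro n
    obtain ⟨a, b, hb, hab⟩ := hcon n
    refine ⟨a, b, hb, ?_, hab⟩
    intro h
    exact hx ⟨(a : ℚ) / b, by rw [h]; push_cast; rfl⟩
  obtain ⟨m, hm⟩ := h1
  refine ⟨m, fun b hb => ?_⟩
  have hb0 : (0 : ℝ) < b := by exact_mod_cast (by omega : 0 < b)
  have hb1 : (1 : ℝ) ≤ b := by exact_mod_cast (by omega : 1 ≤ b)
  rw [← AddCircle.coe_nsmul, nsmul_eq_mul, UnitAddCircle.norm_eq]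
  have h2 := hm (round ((b : ℝ) * x)) b (by exact_mod_cast hb)
  have e1 : Real.exp (-(m * Real.log b)) = 1 / (b : ℝ) ^ m := by
    rw [Real.exp_neg, ← Real.log_pow, Real.exp_log (by positivity), one_div]
  rw [e1]
  push_cast at h2
  have e2 : (b : ℝ) * x - round ((b : ℝ) * x) = b * (x - round ((b : ℝ) * x) / b) := by
    field_simp
  rw [e2, abs_mul, abs_of_pos hb0]
  calc 1 / (b : ℝ) ^ m ≤ |x - round ((b : ℝ) * x) / b| := h2
    _ ≤ b * |x - round ((b : ℝ) * x) / b| := le_mul_of_one_le_left (abs_nonneg _) hb1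

/-- visits to `U` in the box of side `n` -/
def hits (p q n : ℕ) (U : Set TT) (x : TT) : Set (ℕ × ℕ) :=
  {u : ℕ × ℕ | u.1 ≤ n ∧ u.2 ≤ n ∧ (p ^ u.1 * q ^ u.2) • x ∈ U}

/-- centre of the window -/
noncomputable def cen (p q d : ℕ) (a T : ℝ) : ℕ :=
  p ^ (⌊a * T / Real.log p⌋₊ + 1) * q ^ ⌊a * T / Real.log q⌋₊ * d

/-- **Core**: the number of visits is large if some multiple is not too close to `0`. -/
theorem core {p q : ℕ} (hp : 2 ≤ p) (hq : 2 ≤ q)
    (hirr : Irrational (Real.log (p : ℝ) / Real.log (q : ℝ))) {s : ℝ}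
    (hs : Gr p q s) {U : Set TT} (hU : IsOpen U) (hne : U.Nonempty) :
    ∃ d : ℕ, 1 ≤ d ∧ ∃ a : ℝ, 0 < a ∧ ∀ L : ℝ, 0 ≤ L → ∃ K : ℝ, 0 < K ∧ ∃ c : ℝ, 0 < c ∧
      ∃ n0 : ℕ, ∀ n : ℕ, n0 ≤ n → ∀ x : TT,
        Real.exp (-(L * (n / K))) ≤ ‖cen p q d a (n / K) • x‖ →
        c * (n : ℝ) ^ s ≤ ((hits p q n U x).ncard : ℝ) := by
  classical
  obtain ⟨r, hr, hrp, a, ha, b, hb, hG⟩ := hs
  obtain ⟨d, hd, hdK⟩ := exists_den hp (KU_finite hp hq hirr hU hne) (KU_inv p q U)
  have hd0 : (0 : ℝ) < d := by exact_mod_cast hd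
  have hlq : 0 < Real.log q := Real.log_pos (by exact_mod_cast (by omega : 1 < q))
  have hlp : 0 < Real.log p := Real.log_pos (by exact_mod_cast (by omega : 1 < p))
  obtain ⟨S, hS⟩ := hit_cover (p := p) (q := q) hU (show 0 < r / d by positivity)
  refine ⟨d, hd, a, ha, fun L hL => ?_⟩
  -- constants
  set K' : ℝ := 2 * (a / Real.log p) + 2 * (a / Real.log q) + L / Real.log p + 5 with hK'
  have hK'pos : 0 < K' := by positivity
  set K : ℝ := 2 * K' with hK
  have hKpos : 0 < K := by positivity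
  set M : ℕ := ∑ s ∈ S, (s.1 + s.2) with hM
  have hMs : ∀ s ∈ S, s.1 + s.2 ≤ M := fun s hs =>
    Finset.single_le_sum (f := fun s : ℕ × ℕ => s.1 + s.2) (fun _ _ => Nat.zero_le _) hs
  refine ⟨K, hKpos, b * (1 / K) ^ s / (S.card + 1), by positivity, ⌈K⌉₊ + 2 * M,
    fun n hn x hcen => ?_⟩
  have hn1 : K ≤ n := by
    have h1 : (⌈K⌉₊ : ℝ) ≤ n := by exact_mod_cast (by omega : ⌈K⌉₊ ≤ n)
    exact (Nat.le_ceil _).trans h1
  have hn2 : 2 * M ≤ n := by omega
  set T : ℝ := n / K with hT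
  have hT1 : 1 ≤ T := by rw [hT, one_le_div (by positivity)]; exact hn1
  have hKT : K' * T = n / 2 := by rw [hT, hK]; field_simp
  obtain ⟨N, hGN, hN⟩ := hG T hT1
  unfold cen at hcen
  set A := ⌊a * T / Real.log p⌋₊ + 1 with hA
  set B := ⌊a * T / Real.log q⌋₊ with hB
  set t : ℝ := L * T with ht
  set I := ⌈t / Real.log p⌉₊ with hI
  have hA1 : a * T < (A + 1) * Real.log p := by
    have h1 := Nat.lt_floor_add_one (a * T / Real.log p)
    rw [div_lt_iff₀ hlp] at h1
    rw [hA]; push_cast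
    nlinarith
  have hB1 : a * T < (B + 1) * Real.log q := by
    have := Nat.lt_floor_add_one (a * T / Real.log q)
    rwa [div_lt_iff₀ hlq] at this
  have hI1 : t ≤ I * Real.log p := by
    have := Nat.le_ceil (t / Real.log p)
    rwa [div_le_iff₀ hlp] at this
  have hA2 : (A : ℝ) ≤ a * T / Real.log p + 1 := by
    rw [hA]; push_cast
    have : (⌊a * T / Real.log p⌋₊ : ℝ) ≤ a * T / Real.log p := Nat.floor_le (by positivity)
    linarith
  have hB2 : (B : ℝ) ≤ a * T / Real.log q := Nat.floor_le (by positivity)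
  have ht0 : 0 ≤ t := by positivity
  have hI2 : (I : ℝ) ≤ L * T / Real.log p + 1 := by
    rw [hI, ht]
    exact (Nat.ceil_lt_add_one (by positivity)).le
  -- the size of the box
  have e : K' * T =
      2 * (a * T / Real.log p) + 2 * (a * T / Real.log q) + L * T / Real.log p + 5 * T := by
    rw [hK']; ring
  have hbox1 : (2 * A + I + 1 : ℝ) ≤ n / 2 := by
    rw [← hKT, e]
    have : 0 ≤ a * T / Real.log q := by positivity
    have h7 : a * T / Real.log p + 1 ≤ a * T / Real.log p + T := by linarith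
    linarith
  have hbox2 : (2 * B + 1 : ℝ) ≤ n / 2 := by
    rw [← hKT, e]
    have h1 : 0 ≤ a * T / Real.log p := by positivity
    have h2 : 0 ≤ L * T / Real.log p := by positivity
    linarith
  have hbox1' : 2 * (2 * A + I + 1) ≤ n := by
    have : (2 * (2 * A + I + 1) : ℝ) ≤ n := by linarith
    exact_mod_cast this
  have hbox2' : 2 * (2 * B + 1) ≤ n := by
    have : (2 * (2 * B + 1) : ℝ) ≤ n := by linarith
    exact_mod_cast this
  -- the centre is not too close to `0`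
  rw [mul_nsmul'] at hcen
  have hcount := Pool.Agent.H706R2.count_far hp hq hrp hGN hA1 hB1 hI1 (d • x) hcen
  set P := (Finset.range (2 * A + I + 1) ×ˢ Finset.range (2 * B + 1)).filter
      (fun u => r ≤ ‖(p ^ u.1 * q ^ u.2) • (d • x)‖) with hP
  set H : Set (ℕ × ℕ) := hits p q n U x with hH
  have hHfin : H.Finite := by
    apply ((Finset.range (n + 1) ×ˢ Finset.range (n + 1)).finite_toSet).subset
    intro u hu
    simp only [Finset.coe_product, mem_prod, Finset.mem_coe, Finset.mem_range]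
    exact ⟨by have := hu.1; omega, by have := hu.2.1; omega⟩
  have hHc : H.ncard = hHfin.toFinset.card := Set.ncard_eq_toFinset_card _ hHfin
  have hsub : P ⊆ S.biUnion fun v => P.filter fun u => u + v ∈ H := by
    intro u hu
    rw [Finset.mem_biUnion]
    rw [hP, Finset.mem_filter, Finset.mem_product, Finset.mem_range, Finset.mem_range] at hu
    obtain ⟨⟨hu1, hu2⟩, hu3⟩ := hu
    have hfar : ∀ k ∈ KU p q U, r / d ≤ dist ((p ^ u.1 * q ^ u.2) • x) k := by
      intro k hk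
      have e1 : (p ^ u.1 * q ^ u.2) • (d • x) =
          d • ((p ^ u.1 * q ^ u.2) • x - k) := by
        rw [nsmul_sub, hdK k hk, sub_zero, ← mul_nsmul', ← mul_nsmul', mul_comm]
      rw [e1] at hu3
      have h6 := norm_smul_le d ((p ^ u.1 * q ^ u.2) • x - k)
      rw [dist_eq_norm, div_le_iff₀ hd0]
      linarith
    obtain ⟨v, hv, hvU⟩ := hS _ hfar
    refine ⟨v, hv, ?_⟩
    rw [Finset.mem_filter]
    refine ⟨?_, ?_⟩
    · rw [hP, Finset.mem_filter, Finset.mem_product, Finset.mem_range, Finset.mem_range]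
      exact ⟨⟨hu1, hu2⟩, hu3⟩
    · have hMv := hMs v hv
      rw [← mul_nsmul'] at hvU
      refine ⟨?_, ?_, ?_⟩
      · change u.1 + v.1 ≤ n
        omega
      · change u.2 + v.2 ≤ n
        omega
      · change (p ^ (u.1 + v.1) * q ^ (u.2 + v.2)) • x ∈ U
        convert hvU using 2
        ring
  have hcard : P.card ≤ S.card * H.ncard := by
    calc P.card ≤ (S.biUnion fun v => P.filter fun u => u + v ∈ H).card := Finset.card_le_card hsub
      _ ≤ ∑ v ∈ S, (P.filter fun u => u + v ∈ H).card := Finset.card_biUnion_le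
      _ ≤ ∑ v ∈ S, H.ncard := by
          refine Finset.sum_le_sum fun v _ => ?_
          rw [hHc]
          refine Finset.card_le_card_of_injOn (fun u => u + v) ?_ ?_
          · intro u hu
            rw [Finset.mem_coe, Finset.mem_filter] at hu
            simpa using hu.2
          · intro u _ w _ h
            exact add_right_cancel h
      _ = S.card * H.ncard := by rw [Finset.sum_const, smul_eq_mul]
  have hN2 : (N : ℝ) ≤ (S.card + 1) * (H.ncard : ℝ) := by
    have h1 : (N : ℝ) ≤ ((S.card * H.ncard : ℕ) : ℝ) := by exact_mod_cast hcount.trans hcard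
    push_cast at h1
    have : (0 : ℝ) ≤ H.ncard := Nat.cast_nonneg _
    linarith
  have hTs : T ^ s = (1 / K) ^ s * (n : ℝ) ^ s := by
    rw [← Real.mul_rpow (by positivity) (by positivity), hT]
    congr 1
    ring
  have hSc : (0 : ℝ) < S.card + 1 := by positivity
  rw [div_mul_eq_mul_div, div_le_iff₀ hSc]
  calc b * (1 / K) ^ s * (n : ℝ) ^ s = b * T ^ s := by rw [hTs]; ring
    _ ≤ N := hN
    _ ≤ _ := hN2
    _ = _ := by ring

/-- **Irrational non-Liouville orbits.** -/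
theorem pointwise {p q : ℕ} (hp : 2 ≤ p) (hq : 2 ≤ q)
    (hirr : Irrational (Real.log (p : ℝ) / Real.log (q : ℝ))) {s : ℝ}
    (hs : Gr p q s) {U : Set TT} (hU : IsOpen U) (hne : U.Nonempty) {x : ℝ}
    (hx : Irrational x) (hL : ¬ Liouville x) :
    ∃ c : ℝ, 0 < c ∧ ∀ᶠ n : ℕ in atTop, c * (n : ℝ) ^ s ≤
      ((hits p q n U (x : TT)).ncard : ℝ) := by
  obtain ⟨d, hd, a, ha, hcore⟩ := core hp hq hirr hs hU hne
  obtain ⟨m, hm⟩ := nonliouville hx hL
  have hd0 : (0 : ℝ) < d := by exact_mod_cast hd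
  have hd1 : (1 : ℝ) ≤ d := by exact_mod_cast hd
  have hld : 0 ≤ Real.log d := Real.log_nonneg hd1
  have hlq : 0 < Real.log q := Real.log_pos (by exact_mod_cast (by omega : 1 < q))
  have hlp : 0 < Real.log p := Real.log_pos (by exact_mod_cast (by omega : 1 < p))
  set K0 : ℝ := m * (Real.log d + Real.log p + 2 * a) with hK0
  have hK00 : 0 ≤ K0 := by positivity
  obtain ⟨K, hK, c, hc, n0, hn0⟩ := hcore K0 hK00
  refine ⟨c, hc, ?_⟩
  filter_upwards [eventually_ge_atTop (n0 + ⌈K⌉₊)] with n hn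
  apply hn0 n (by omega)
  have hn1 : K ≤ n := by
    have h1 : (⌈K⌉₊ : ℝ) ≤ n := by exact_mod_cast (by omega : ⌈K⌉₊ ≤ n)
    exact (Nat.le_ceil _).trans h1
  set T : ℝ := n / K with hT
  have hT1 : 1 ≤ T := by rw [hT, one_le_div (by positivity)]; exact hn1
  have h2 : 2 ≤ cen p q d a T := by
    unfold cen
    have h1 : 2 ≤ p ^ (⌊a * T / Real.log p⌋₊ + 1) := le_trans hp (Nat.le_self_pow (by omega) p)
    have h2 : 1 ≤ q ^ ⌊a * T / Real.log q⌋₊ * d := Nat.one_le_iff_ne_zero.2 (by positivity)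
    calc 2 = 2 * 1 := by norm_num
      _ ≤ p ^ (⌊a * T / Real.log p⌋₊ + 1) * (q ^ ⌊a * T / Real.log q⌋₊ * d) :=
        Nat.mul_le_mul h1 h2
      _ = _ := by ring
  refine le_trans (Real.exp_le_exp.2 (neg_le_neg ?_)) (hm _ h2)
  unfold cen
  push_cast
  rw [Real.log_mul (by positivity) (by positivity), Real.log_mul (by positivity) (by positivity),
      Real.log_pow, Real.log_pow, hK0, mul_assoc]
  have hA2 : ((⌊a * T / Real.log p⌋₊ + 1 : ℕ) : ℝ) ≤ a * T / Real.log p + 1 := by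
    push_cast
    have : (⌊a * T / Real.log p⌋₊ : ℝ) ≤ a * T / Real.log p := Nat.floor_le (by positivity)
    linarith
  have hB2 : (⌊a * T / Real.log q⌋₊ : ℝ) ≤ a * T / Real.log q := Nat.floor_le (by positivity)
  have h1 : ((⌊a * T / Real.log p⌋₊ + 1 : ℕ) : ℝ) * Real.log p ≤ a * T + Real.log p := by
    have := mul_le_mul_of_nonneg_right hA2 hlp.le
    rw [add_mul, div_mul_cancel₀ _ hlp.ne', one_mul] at this
    exact this
  have h2 : (⌊a * T / Real.log q⌋₊ : ℝ) * Real.log q ≤ a * T := by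
    have := mul_le_mul_of_nonneg_right hB2 hlq.le
    rwa [div_mul_cancel₀ _ hlq.ne'] at this
  have h3 : Real.log d ≤ Real.log d * T := le_mul_of_one_le_right hld hT1
  have h4 : Real.log p ≤ Real.log p * T := le_mul_of_one_le_right hlp.le hT1
  apply mul_le_mul_of_nonneg_left _ (Nat.cast_nonneg m)
  nlinarith

/-- multiplication by a bounded factor of a point very close to `0` -/
lemma norm_step {y : TT} {k : ℕ} (hk : 1 ≤ k) (h : k * ‖y‖ < 1 / 2) : ‖y‖ ≤ ‖k • y‖ := by
  obtain ⟨v, hv, hvn⟩ := exists_rep_norm y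
  rw [← hvn] at h
  have hk1 : (1 : ℝ) ≤ k := by exact_mod_cast hk
  have h1 : ‖k • y‖ = k * |v| := by
    rw [← hv, ← AddCircle.coe_nsmul, nsmul_eq_mul]
    have h2 : |(k : ℝ) * v| < 1 / 2 := by rw [abs_mul, Nat.abs_cast]; exact h
    rw [UnitAddCircle.norm_eq, abs_sub_round_eq_min, ← abs_sub_round_eq_min]
    have h3 : round ((k : ℝ) * v) = 0 := by
      rw [round_eq_zero_iff]
      rw [abs_lt] at h2
      exact ⟨by linarith, h2.2⟩
    rw [h3, Int.cast_zero, sub_zero, abs_mul, Nat.abs_cast]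
  rw [h1, ← hvn]
  exact le_mul_of_one_le_left (abs_nonneg _) hk1

/-- **All irrational orbits**, infinitely often, with a uniform constant. -/
theorem pointwise_io {p q : ℕ} (hp : 2 ≤ p) (hq : 2 ≤ q)
    (hirr : Irrational (Real.log (p : ℝ) / Real.log (q : ℝ))) {s : ℝ}
    (hs : Gr p q s) {U : Set TT} (hU : IsOpen U) (hne : U.Nonempty) :
    ∃ c : ℝ, 0 < c ∧ ∀ x : ℝ, Irrational x → ∃ᶠ n : ℕ in atTop, c * (n : ℝ) ^ s ≤
      ((hits p q n U (x : TT)).ncard : ℝ) := by
  obtain ⟨d, hd, a, ha, hcore⟩ := core hp hq hirr hs hU hne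
  have hlq : 0 < Real.log q := Real.log_pos (by exact_mod_cast (by omega : 1 < q))
  have hlp : 0 < Real.log p := Real.log_pos (by exact_mod_cast (by omega : 1 < p))
  obtain ⟨K, hK, c, hc, n0, hn0⟩ := hcore 1 zero_le_one
  refine ⟨c, hc, fun x hx => ?_⟩
  by_contra hcon
  rw [Filter.not_frequently, eventually_atTop] at hcon
  obtain ⟨n1, hn1⟩ := hcon
  set f : ℕ → ℕ := fun n => cen p q d a (n / K) with hf
  -- the multiples are very close to `0`
  have hsmall : ∀ n, n0 + n1 ≤ n → ‖f n • (x : TT)‖ < Real.exp (-(1 * (n / K))) := by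
    intro n hn
    by_contra h
    push Not at h
    exact hn1 n (by omega) (hn0 n (by omega) _ h)
  -- bounded ratios
  set ρ : ℕ := p ^ (⌊a / K / Real.log p⌋₊ + 1) * q ^ (⌊a / K / Real.log q⌋₊ + 1) with hρ
  have hdiff : ∀ (l : ℝ), 0 < l → ∀ n : ℕ, ∃ e : ℕ, e ≤ ⌊a / K / l⌋₊ + 1 ∧
      ⌊a * (((n + 1 : ℕ) : ℝ) / K) / l⌋₊ = ⌊a * ((n : ℝ) / K) / l⌋₊ + e := by
    intro l hl n
    have e1 : a * (((n + 1 : ℕ) : ℝ) / K) / l = a * ((n : ℝ) / K) / l + a / K / l := by
      push_cast; field_simp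
    have h1 : ⌊a * ((n : ℝ) / K) / l⌋₊ ≤ ⌊a * (((n + 1 : ℕ) : ℝ) / K) / l⌋₊ := by
      apply Nat.floor_mono
      rw [e1]
      have : 0 ≤ a / K / l := by positivity
      linarith
    obtain ⟨e, he⟩ := Nat.exists_eq_add_of_le h1
    refine ⟨e, ?_, he⟩
    have h2 : (⌊a * (((n + 1 : ℕ) : ℝ) / K) / l⌋₊ : ℝ) ≤ a * (((n + 1 : ℕ) : ℝ) / K) / l :=
      Nat.floor_le (by positivity)
    have h3 := Nat.lt_floor_add_one (a * ((n : ℝ) / K) / l)
    have h4 := Nat.lt_floor_add_one (a / K / l)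
    rw [he] at h2
    push_cast at h2
    have h5 : (e : ℝ) < ⌊a / K / l⌋₊ + 1 + 1 := by
      have := e1
      push_cast at this
      linarith
    have h6 : e < ⌊a / K / l⌋₊ + 1 + 1 := by exact_mod_cast h5
    omega
  have hstep : ∀ n, ∃ k : ℕ, 1 ≤ k ∧ k ≤ ρ ∧ f (n + 1) = f n * k := by
    intro n
    obtain ⟨e1, h1, h1'⟩ := hdiff _ hlp n
    obtain ⟨e2, h2, h2'⟩ := hdiff _ hlq n
    refine ⟨p ^ e1 * q ^ e2, Nat.one_le_iff_ne_zero.2 (by positivity), ?_, ?_⟩
    · exact Nat.mul_le_mul (Nat.pow_le_pow_right (by omega) h1) (Nat.pow_le_pow_right (by omega) h2)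
    · simp only [hf, cen]
      rw [h1', h2']
      ring
  have hρ0 : 0 < ρ := by positivity
  -- exponentials are eventually small
  have hlim : Tendsto (fun n : ℕ => Real.exp (-(1 * ((n : ℝ) / K)))) atTop (𝓝 0) := by
    apply Real.tendsto_exp_neg_atTop_nhds_zero.comp
    simp only [one_mul]
    exact tendsto_natCast_atTop_atTop.atTop_div_const hK
  have hev1 : ∀ᶠ n : ℕ in atTop, Real.exp (-(1 * ((n : ℝ) / K))) < 1 / (2 * ρ) :=
    hlim.eventually (gt_mem_nhds (by positivity))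
  obtain ⟨n2, hn2⟩ := eventually_atTop.1 hev1
  set n3 := n0 + n1 + n2 with hn3
  have hmono : ∀ n, n3 ≤ n → ‖f n3 • (x : TT)‖ ≤ ‖f n • (x : TT)‖ := by
    intro n hn
    induction n, hn using Nat.le_induction with
    | base => exact le_rfl
    | succ n hn ih =>
      obtain ⟨k, hk1, hk2, hk3⟩ := hstep n
      refine ih.trans ?_
      rw [hk3, mul_comm, mul_nsmul']
      apply norm_step hk1
      have h1 := hsmall n (by omega)
      have h2 := hn2 n (by omega)
      have h3 : (k : ℝ) ≤ ρ := by exact_mod_cast hk2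
      have hρR : (0 : ℝ) < ρ := by exact_mod_cast hρ0
      calc (k : ℝ) * ‖f n • (x : TT)‖ ≤ ρ * ‖f n • (x : TT)‖ := by gcongr
        _ < ρ * (1 / (2 * ρ)) := by
          apply mul_lt_mul_of_pos_left (h1.trans h2) hρR
        _ = 1 / 2 := by field_simp
  have hpos : 0 < ‖f n3 • (x : TT)‖ := by
    rw [norm_pos_iff]
    intro h0
    rw [← AddCircle.coe_nsmul, AddCircle.coe_eq_zero_iff] at h0
    obtain ⟨m, hm⟩ := h0
    simp only [zsmul_eq_mul, mul_one, nsmul_eq_mul] at hm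
    have hf0 : f n3 ≠ 0 := by
      simp only [hf, cen]
      positivity
    have : Irrational ((f n3 : ℝ) * x) := hx.natCast_mul hf0
    exact this ⟨m, by rw [← hm]; push_cast; rfl⟩
  have hev2 : ∀ᶠ n : ℕ in atTop, Real.exp (-(1 * ((n : ℝ) / K))) < ‖f n3 • (x : TT)‖ :=
    hlim.eventually (gt_mem_nhds hpos)
  obtain ⟨n4, hn4⟩ := eventually_atTop.1 hev2
  have h1 := hn4 (n3 + n4) (by omega)
  have h2 := hmono (n3 + n4) (by omega)
  have h3 := hsmall (n3 + n4) (by omega)
  linarith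

end Pool.Agent.H847R3.XpXq
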