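import Mathlib
import Pool.Agent.H847R3.SuppD
import Pool.Agent.H819.Down3

/-!
Occurrences of words in the digits of the multiples of a non-Liouville number.
-/

set_option autoImplicit false

open Set Filter Topology MeasureTheory

namespace Pool.Agent.H847R3.XpXq

/-- growth of order `s` of the set of far points around any far point (two radii) -/
def Gr2 (p q : ℕ) (s : ℝ) : Prop :=
  ∃ r r' : ℝ, 0 < r' ∧ ((p : ℝ) + 1) * r ≤ 1 ∧ ∃ a : ℝ, 0 < a ∧ ∃ b : ℝ, 0 < b ∧
    ∀ T : ℝ, 1 ≤ T → ∃ N : ℕ, Pool.Agent.H819.G2 p q r r' (a * T) N ∧ b * T ^ s ≤ N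

lemma Gr2.of_Gr {p q : ℕ} {s : ℝ} (h : Gr p q s) : Gr2 p q s := by
  obtain ⟨r, hr, hrp, a, ha, b, hb, hG⟩ := h
  exact ⟨r, r, hr, hrp, a, ha, b, hb, hG⟩

lemma gr2_of_pow {p q : ℕ} {r r' : ℝ} (hr : 0 < r') (hrp : ((p : ℝ) + 1) * r ≤ 1) {A B : ℕ}
    (hA : 2 ≤ A) (hB : 2 ≤ B) {c : ℝ} (hc : 0 ≤ c)
    (h : ∀ j : ℕ, Pool.Agent.H819.G2 p q r r' (c * ((A : ℝ) ^ j - 1)) (B ^ j)) :
    Gr2 p q (Real.log B / Real.log A) := by
  have hAR : (2 : ℝ) ≤ A := by exact_mod_cast hA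
  have hBR : (2 : ℝ) ≤ B := by exact_mod_cast hB
  have hlA : 0 < Real.log (A : ℝ) := Real.log_pos (by linarith)
  have hlB : 0 < Real.log (B : ℝ) := Real.log_pos (by linarith)
  refine ⟨r, r', hr, hrp, c + 1, by linarith, 1 / B, by positivity, fun T hT => ?_⟩
  set j := ⌊Real.log T / Real.log A⌋₊ with hj
  have hlT : 0 ≤ Real.log T := Real.log_nonneg hT
  have hj1 : (A : ℝ) ^ j ≤ T := by
    have h1 : (j : ℝ) ≤ Real.log T / Real.log A := Nat.floor_le (by positivity)
    rw [le_div_iff₀ hlA] at h1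
    rw [← Real.log_le_log_iff (by positivity) (by linarith), Real.log_pow]
    exact h1
  have hj2 : Real.log T < (j + 1) * Real.log A := by
    have h1 := Nat.lt_floor_add_one (Real.log T / Real.log A)
    rwa [div_lt_iff₀ hlA] at h1
  refine ⟨B ^ j, ?_, ?_⟩
  · intro θ hθ
    obtain ⟨S, hS1, hS2⟩ := h j θ hθ
    have h1 : c * ((A : ℝ) ^ j - 1) ≤ (c + 1) * T := by
      have : c * ((A : ℝ) ^ j - 1) ≤ c * T := mul_le_mul_of_nonneg_left (by linarith) hc
      linarith
    exact ⟨S, hS1, fun v hv => ⟨(hS2 v hv).1, (hS2 v hv).2.1.trans h1, (hS2 v hv).2.2.trans h1⟩⟩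
  · have h6 : T ^ (Real.log B / Real.log A) ≤ (B : ℝ) ^ (j + 1) := by
      rw [Real.rpow_def_of_pos (by linarith), ← Real.log_le_log_iff (Real.exp_pos _) (by positivity),
        Real.log_exp, Real.log_pow]
      have h7 : Real.log T * (Real.log B / Real.log A) ≤
          ((j : ℝ) + 1) * Real.log A * (Real.log B / Real.log A) :=
        mul_le_mul_of_nonneg_right hj2.le (by positivity)
      have h8 : ((j : ℝ) + 1) * Real.log A * (Real.log B / Real.log A) =
          ((j : ℝ) + 1) * Real.log B := by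
        field_simp
      push_cast
      linarith
    push_cast
    rw [one_div, inv_mul_le_iff₀ (by linarith), ← pow_succ']
    exact h6

/-- growth, with the exponent `log 3 / log 2` for pairs generated by two coprime integers -/
theorem exists_gr2 {p q : ℕ} (hp : 2 ≤ p) (hq : 2 ≤ q)
    (hirr : Irrational (Real.log (p : ℝ) / Real.log (q : ℝ))) :
    ∃ s : ℝ, 1 < s ∧ (Pool.Agent.H819.TwoGen p q → s = Real.log 3 / Real.log 2) ∧ Gr2 p q s := by
  have h2 : 0 < Real.log 2 := Real.log_pos (by norm_num)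
  have h23 : Real.log 2 < Real.log 3 := Real.log_lt_log (by norm_num) (by norm_num)
  by_cases h : Pool.Agent.H819.TwoGen p q
  · obtain ⟨r, r', c, hr', hrp, hc, hG⟩ := h.growth
    refine ⟨Real.log 3 / Real.log 2, by rw [lt_div_iff₀ h2]; linarith, fun _ => rfl, ?_⟩
    have h1 := gr2_of_pow (A := 2) (B := 3) hr' hrp le_rfl (by norm_num) hc.le hG
    push_cast at h1
    exact h1
  · obtain ⟨s, hs1, -, -, hs⟩ := exists_gr hp hq hirr
    exact ⟨s, hs1, fun h' => absurd h' h, Gr2.of_Gr hs⟩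

/-- **Core**: the number of visits is large if some multiple is not too close to `0`. -/
theorem core2 {p q : ℕ} (hp : 2 ≤ p) (hq : 2 ≤ q)
    (hirr : Irrational (Real.log (p : ℝ) / Real.log (q : ℝ))) {s : ℝ}
    (hs : Gr2 p q s) {U : Set TT} (hU : IsOpen U) (hne : U.Nonempty) :
    ∃ d : ℕ, 1 ≤ d ∧ ∃ a : ℝ, 0 < a ∧ ∀ L : ℝ, 0 ≤ L → ∃ K : ℝ, 0 < K ∧ ∃ c : ℝ, 0 < c ∧
      ∃ n0 : ℕ, ∀ n : ℕ, n0 ≤ n → ∀ x : TT,
        Real.exp (-(L * (n / K))) ≤ ‖cen p q d a (n / K) • x‖ →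
        c * (n : ℝ) ^ s ≤ ((hits p q n U x).ncard : ℝ) := by
  classical
  obtain ⟨r0, r, hr, hrp, a, ha, b, hb, hG⟩ := hs
  obtain ⟨d, hd, hdK⟩ := exists_den hp (KU_finite hp hq hirr hU hne) (KU_inv p q U)
  have hd0 : (0 : ℝ) < d := by exact_mod_cast hd
  have hlq : 0 < Real.log q := Real.log_pos (by exact_mod_cast (by omega : 1 < q))
  have hlp : 0 < Real.log p := Real.log_pos (by exact_mod_cast (by omega : 1 < p))
  obtain ⟨S, hS⟩ := hit_cover (p := p) (q := q) hU (show 0 < r / d by positivity)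
  refine ⟨d, hd, a, ha, fun L hL => ?_⟩
  -- constants
  set K' : ℝ := 2 * (a / Real.log p) + 2 * (a / Real.log q) + L / Real.log p + 5 with hK'
  have hK'pos : 0 < K' := by positivity
  set K : ℝ := 2 * K' with hK
  have hKpos : 0 < K := by positivity
  set M : ℕ := ∑ s ∈ S, (s.1 + s.2) with hM
  have hMs : ∀ s ∈ S, s.1 + s.2 ≤ M := fun s hs =>
    Finset.single_le_sum (f := fun s : ℕ × ℕ => s.1 + s.2) (fun _ _ => Nat.zero_le _) hs
  refine ⟨K, hKpos, b * (1 / K) ^ s / (S.card + 1), by positivity, ⌈K⌉₊ + 2 * M,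
    fun n hn x hcen => ?_⟩
  have hn1 : K ≤ n := by
    have h1 : (⌈K⌉₊ : ℝ) ≤ n := by exact_mod_cast (by omega : ⌈K⌉₊ ≤ n)
    exact (Nat.le_ceil _).trans h1
  have hn2 : 2 * M ≤ n := by omega
  set T : ℝ := n / K with hT
  have hT1 : 1 ≤ T := by rw [hT, one_le_div (by positivity)]; exact hn1
  have hKT : K' * T = n / 2 := by rw [hT, hK]; field_simp
  obtain ⟨N, hGN, hN⟩ := hG T hT1
  unfold cen at hcen
  set A := ⌊a * T / Real.log p⌋₊ + 1 with hA
  set B := ⌊a * T / Real.log q⌋₊ with hB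
  set t : ℝ := L * T with ht
  set I := ⌈t / Real.log p⌉₊ with hI
  have hA1 : a * T < (A + 1) * Real.log p := by
    have h1 := Nat.lt_floor_add_one (a * T / Real.log p)
    rw [div_lt_iff₀ hlp] at h1
    rw [hA]; push_cast
    nlinarith
  have hB1 : a * T < (B + 1) * Real.log q := by
    have := Nat.lt_floor_add_one (a * T / Real.log q)
    rwa [div_lt_iff₀ hlq] at this
  have hI1 : t ≤ I * Real.log p := by
    have := Nat.le_ceil (t / Real.log p)
    rwa [div_le_iff₀ hlp] at this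
  have hA2 : (A : ℝ) ≤ a * T / Real.log p + 1 := by
    rw [hA]; push_cast
    have : (⌊a * T / Real.log p⌋₊ : ℝ) ≤ a * T / Real.log p := Nat.floor_le (by positivity)
    linarith
  have hB2 : (B : ℝ) ≤ a * T / Real.log q := Nat.floor_le (by positivity)
  have ht0 : 0 ≤ t := by positivity
  have hI2 : (I : ℝ) ≤ L * T / Real.log p + 1 := by
    rw [hI, ht]
    exact (Nat.ceil_lt_add_one (by positivity)).le
  -- the size of the box
  have e : K' * T =
      2 * (a * T / Real.log p) + 2 * (a * T / Real.log q) + L * T / Real.log p + 5 * T := by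
    rw [hK']; ring
  have hbox1 : (2 * A + I + 1 : ℝ) ≤ n / 2 := by
    rw [← hKT, e]
    have : 0 ≤ a * T / Real.log q := by positivity
    have h7 : a * T / Real.log p + 1 ≤ a * T / Real.log p + T := by linarith
    linarith
  have hbox2 : (2 * B + 1 : ℝ) ≤ n / 2 := by
    rw [← hKT, e]
    have h1 : 0 ≤ a * T / Real.log p := by positivity
    have h2 : 0 ≤ L * T / Real.log p := by positivity
    linarith
  have hbox1' : 2 * (2 * A + I + 1) ≤ n := by
    have : (2 * (2 * A + I + 1) : ℝ) ≤ n := by linarith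
    exact_mod_cast this
  have hbox2' : 2 * (2 * B + 1) ≤ n := by
    have : (2 * (2 * B + 1) : ℝ) ≤ n := by linarith
    exact_mod_cast this
  -- the centre is not too close to `0`
  rw [mul_nsmul'] at hcen
  have hcount := Pool.Agent.H819.count_far2 hp hq hrp hGN hA1 hB1 hI1 (d • x) hcen
  set P := (Finset.range (2 * A + I + 1) ×ˢ Finset.range (2 * B + 1)).filter
      (fun u => r ≤ ‖(p ^ u.1 * q ^ u.2) • (d • x)‖) with hP
  set H : Set (ℕ × ℕ) := hits p q n U x with hH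
  have hHfin : H.Finite := by
    apply ((Finset.range (n + 1) ×ˢ Finset.range (n + 1)).finite_toSet).subset
    intro u hu
    simp only [Finset.coe_product, mem_prod, Finset.mem_coe, Finset.mem_range]
    exact ⟨by have := hu.1; omega, by have := hu.2.1; omega⟩
  have hHc : H.ncard = hHfin.toFinset.card := Set.ncard_eq_toFinset_card _ hHfin
  have hsub : P ⊆ S.biUnion fun v => P.filter fun u => u + v ∈ H := by
    intro u hu
    rw [Finset.mem_biUnion]
    rw [hP, Finset.mem_filter, Finset.mem_product, Finset.mem_range, Finset.mem_range] at hu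
    obtain ⟨⟨hu1, hu2⟩, hu3⟩ := hu
    have hfar : ∀ k ∈ KU p q U, r / d ≤ dist ((p ^ u.1 * q ^ u.2) • x) k := by
      intro k hk
      have e1 : (p ^ u.1 * q ^ u.2) • (d • x) =
          d • ((p ^ u.1 * q ^ u.2) • x - k) := by
        rw [nsmul_sub, hdK k hk, sub_zero, ← mul_nsmul', ← mul_nsmul', mul_comm]
      rw [e1] at hu3
      have h6 := norm_smul_le d ((p ^ u.1 * q ^ u.2) • x - k)
      rw [dist_eq_norm, div_le_iff₀ hd0]
      linarith
    obtain ⟨v, hv, hvU⟩ := hS _ hfar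
    refine ⟨v, hv, ?_⟩
    rw [Finset.mem_filter]
    refine ⟨?_, ?_⟩
    · rw [hP, Finset.mem_filter, Finset.mem_product, Finset.mem_range, Finset.mem_range]
      exact ⟨⟨hu1, hu2⟩, hu3⟩
    · have hMv := hMs v hv
      rw [← mul_nsmul'] at hvU
      refine ⟨?_, ?_, ?_⟩
      · change u.1 + v.1 ≤ n
        omega
      · change u.2 + v.2 ≤ n
        omega
      · change (p ^ (u.1 + v.1) * q ^ (u.2 + v.2)) • x ∈ U
        convert hvU using 2
        ring
  have hcard : P.card ≤ S.card * H.ncard := by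
    calc P.card ≤ (S.biUnion fun v => P.filter fun u => u + v ∈ H).card := Finset.card_le_card hsub
      _ ≤ ∑ v ∈ S, (P.filter fun u => u + v ∈ H).card := Finset.card_biUnion_le
      _ ≤ ∑ v ∈ S, H.ncard := by
          refine Finset.sum_le_sum fun v _ => ?_
          rw [hHc]
          refine Finset.card_le_card_of_injOn (fun u => u + v) ?_ ?_
          · intro u hu
            rw [Finset.mem_coe, Finset.mem_filter] at hu
            simpa using hu.2
          · intro u _ w _ h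
            exact add_right_cancel h
      _ = S.card * H.ncard := by rw [Finset.sum_const, smul_eq_mul]
  have hN2 : (N : ℝ) ≤ (S.card + 1) * (H.ncard : ℝ) := by
    have h1 : (N : ℝ) ≤ ((S.card * H.ncard : ℕ) : ℝ) := by exact_mod_cast hcount.trans hcard
    push_cast at h1
    have : (0 : ℝ) ≤ H.ncard := Nat.cast_nonneg _
    linarith
  have hTs : T ^ s = (1 / K) ^ s * (n : ℝ) ^ s := by
    rw [← Real.mul_rpow (by positivity) (by positivity), hT]
    congr 1
    ring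
  have hSc : (0 : ℝ) < S.card + 1 := by positivity
  rw [div_mul_eq_mul_div, div_le_iff₀ hSc]
  calc b * (1 / K) ^ s * (n : ℝ) ^ s = b * T ^ s := by rw [hTs]; ring
    _ ≤ N := hN
    _ ≤ _ := hN2
    _ = _ := by ring

/-- **Irrational non-Liouville orbits.** -/
theorem pointwise2 {p q : ℕ} (hp : 2 ≤ p) (hq : 2 ≤ q)
    (hirr : Irrational (Real.log (p : ℝ) / Real.log (q : ℝ))) {s : ℝ}
    (hs : Gr2 p q s) {U : Set TT} (hU : IsOpen U) (hne : U.Nonempty) {x : ℝ}
    (hx : Irrational x) (hL : ¬ Liouville x) :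
    ∃ c : ℝ, 0 < c ∧ ∀ᶠ n : ℕ in atTop, c * (n : ℝ) ^ s ≤
      ((hits p q n U (x : TT)).ncard : ℝ) := by
  obtain ⟨d, hd, a, ha, hcore⟩ := core2 hp hq hirr hs hU hne
  obtain ⟨m, hm⟩ := nonliouville hx hL
  have hd0 : (0 : ℝ) < d := by exact_mod_cast hd
  have hd1 : (1 : ℝ) ≤ d := by exact_mod_cast hd
  have hld : 0 ≤ Real.log d := Real.log_nonneg hd1
  have hlq : 0 < Real.log q := Real.log_pos (by exact_mod_cast (by omega : 1 < q))
  have hlp : 0 < Real.log p := Real.log_pos (by exact_mod_cast (by omega : 1 < p))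
  set K0 : ℝ := m * (Real.log d + Real.log p + 2 * a) with hK0
  have hK00 : 0 ≤ K0 := by positivity
  obtain ⟨K, hK, c, hc, n0, hn0⟩ := hcore K0 hK00
  refine ⟨c, hc, ?_⟩
  filter_upwards [eventually_ge_atTop (n0 + ⌈K⌉₊)] with n hn
  apply hn0 n (by omega)
  have hn1 : K ≤ n := by
    have h1 : (⌈K⌉₊ : ℝ) ≤ n := by exact_mod_cast (by omega : ⌈K⌉₊ ≤ n)
    exact (Nat.le_ceil _).trans h1
  set T : ℝ := n / K with hT
  have hT1 : 1 ≤ T := by rw [hT, one_le_div (by positivity)]; exact hn1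
  have h2 : 2 ≤ cen p q d a T := by
    unfold cen
    have h1 : 2 ≤ p ^ (⌊a * T / Real.log p⌋₊ + 1) := le_trans hp (Nat.le_self_pow (by omega) p)
    have h2 : 1 ≤ q ^ ⌊a * T / Real.log q⌋₊ * d := Nat.one_le_iff_ne_zero.2 (by positivity)
    calc 2 = 2 * 1 := by norm_num
      _ ≤ p ^ (⌊a * T / Real.log p⌋₊ + 1) * (q ^ ⌊a * T / Real.log q⌋₊ * d) :=
        Nat.mul_le_mul h1 h2
      _ = _ := by ring
  refine le_trans (Real.exp_le_exp.2 (neg_le_neg ?_)) (hm _ h2)
  unfold cen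
  push_cast
  rw [Real.log_mul (by positivity) (by positivity), Real.log_mul (by positivity) (by positivity),
      Real.log_pow, Real.log_pow, hK0, mul_assoc]
  have hA2 : ((⌊a * T / Real.log p⌋₊ + 1 : ℕ) : ℝ) ≤ a * T / Real.log p + 1 := by
    push_cast
    have : (⌊a * T / Real.log p⌋₊ : ℝ) ≤ a * T / Real.log p := Nat.floor_le (by positivity)
    linarith
  have hB2 : (⌊a * T / Real.log q⌋₊ : ℝ) ≤ a * T / Real.log q := Nat.floor_le (by positivity)
  have h1 : ((⌊a * T / Real.log p⌋₊ + 1 : ℕ) : ℝ) * Real.log p ≤ a * T + Real.log p := by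
    have := mul_le_mul_of_nonneg_right hA2 hlp.le
    rw [add_mul, div_mul_cancel₀ _ hlp.ne', one_mul] at this
    exact this
  have h2 : (⌊a * T / Real.log q⌋₊ : ℝ) * Real.log q ≤ a * T := by
    have := mul_le_mul_of_nonneg_right hB2 hlq.le
    rwa [div_mul_cancel₀ _ hlq.ne'] at this
  have h3 : Real.log d ≤ Real.log d * T := le_mul_of_one_le_right hld hT1
  have h4 : Real.log p ≤ Real.log p * T := le_mul_of_one_le_right hlp.le hT1
  apply mul_le_mul_of_nonneg_left _ (Nat.cast_nonneg m)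
  nlinarith


/-- Occurrences of the word of length `k` with value `W` in the multiples `q ^ n x`. -/
theorem words {b q : ℕ} (hb : 2 ≤ b) (hq : 2 ≤ q)
    (hirr : Irrational (Real.log (b : ℝ) / Real.log (q : ℝ))) {s : ℝ} (hs : Gr2 b q s) {x : ℝ}
    (hx : Irrational x) (hL : ¬ Liouville x) (k W : ℕ) (hW : W < b ^ k) :
    ∃ c : ℝ, 0 < c ∧ ∀ᶠ M : ℕ in atTop, c * (M : ℝ) ^ s ≤
      (((Finset.range M ×ˢ Finset.range M).filter (fun u : ℕ × ℕ =>
        ⌊(b : ℝ) ^ (u.2 + k) * ((q : ℝ) ^ u.1 * x)⌋ % ((b : ℤ) ^ k) = (W : ℤ))).card : ℝ) := by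
  classical
  have hbk : (0 : ℝ) < (b : ℝ) ^ k := by positivity
  set V : Set ℝ := Set.Ioo ((W : ℝ) / (b : ℝ) ^ k) (((W : ℝ) + 1) / (b : ℝ) ^ k) with hV
  set U : Set TT := (fun z : ℝ => (z : TT)) '' V with hU
  have hUo : IsOpen U := by
    have : IsOpenMap (fun z : ℝ => (z : TT)) := QuotientAddGroup.isOpenMap_coe
    exact this V isOpen_Ioo
  have hne : U.Nonempty := by
    refine ⟨(((W : ℝ) + 1 / 2) / (b : ℝ) ^ k : ℝ), ((W : ℝ) + 1 / 2) / (b : ℝ) ^ k, ⟨?_, ?_⟩, rfl⟩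
    · gcongr; linarith
    · gcongr; norm_num
  obtain ⟨c, hc, hev⟩ := pointwise2 hb hq hirr hs hUo hne hx hL
  have hs0 : (0 : ℝ) < 2 ^ |s| := by positivity
  refine ⟨c / 2 ^ |s|, by positivity, ?_⟩
  have hev2 : ∀ᶠ M : ℕ in atTop, c * ((M - 1 : ℕ) : ℝ) ^ s ≤
      ((hits b q (M - 1) U (x : TT)).ncard : ℝ) :=
    (tendsto_sub_atTop_nat 1).eventually hev
  filter_upwards [hev2, eventually_ge_atTop 2] with M hM hM2
  have hM2R : (2 : ℝ) ≤ M := by exact_mod_cast hM2
  have hcast : ((M - 1 : ℕ) : ℝ) = (M : ℝ) - 1 := by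
    rw [Nat.cast_sub (by omega)]; simp
  have hle : (M : ℝ) ^ s / 2 ^ |s| ≤ ((M - 1 : ℕ) : ℝ) ^ s := by
    rw [hcast, div_le_iff₀ hs0]
    have hM1 : (0 : ℝ) < (M : ℝ) - 1 := by linarith
    rcases le_total 0 s with h | h
    · rw [abs_of_nonneg h, ← Real.mul_rpow hM1.le (by norm_num)]
      exact Real.rpow_le_rpow (by linarith) (by linarith) h
    · have h1 : (M : ℝ) ^ s ≤ ((M : ℝ) - 1) ^ s :=
        Real.rpow_le_rpow_of_nonpos hM1 (by linarith) h
      have h2 : (1 : ℝ) ≤ 2 ^ |s| := Real.one_le_rpow (by norm_num) (abs_nonneg _)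
      have h3 : 0 ≤ ((M : ℝ) - 1) ^ s := (Real.rpow_pos_of_pos hM1 _).le
      nlinarith
  calc c / 2 ^ |s| * (M : ℝ) ^ s = c * ((M : ℝ) ^ s / 2 ^ |s|) := by ring
    _ ≤ c * ((M - 1 : ℕ) : ℝ) ^ s := mul_le_mul_of_nonneg_left hle hc.le
    _ ≤ ((hits b q (M - 1) U (x : TT)).ncard : ℝ) := hM
    _ ≤ _ := by
      rw [← Set.ncard_coe_finset]
      apply Nat.cast_le.2
      refine Set.ncard_le_ncard_of_injOn (fun u : ℕ × ℕ => (u.2, u.1)) ?_ ?_ (Finset.finite_toSet _)
      · intro u hu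
        obtain ⟨h1, h2, z, hz, hzu⟩ := hu
        simp only [Finset.coe_filter, Finset.mem_product, Finset.mem_range, Set.mem_ofPred_eq]
        refine ⟨⟨by omega, by omega⟩, ?_⟩
        have h3 : ((z : ℝ) : TT) = (((b ^ u.1 * q ^ u.2 : ℕ) : ℝ) * x : ℝ) := by
          rw [← nsmul_eq_mul, AddCircle.coe_nsmul]; exact hzu
        rw [← sub_eq_zero, ← AddCircle.coe_sub, AddCircle.coe_eq_zero_iff] at h3
        obtain ⟨m, hm⟩ := h3
        simp only [zsmul_eq_mul, mul_one] at hm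
        have h4 : (b : ℝ) ^ (u.1 + k) * ((q : ℝ) ^ u.2 * x) =
            (b : ℝ) ^ k * z + (((b : ℤ) ^ k * (-m) : ℤ) : ℝ) := by
          push_cast at hm ⊢
          rw [pow_add]
          linear_combination ((b : ℝ) ^ k) * hm
        have h5 : ⌊(b : ℝ) ^ k * z⌋ = (W : ℤ) := by
          rw [Int.floor_eq_iff]
          obtain ⟨hz1, hz2⟩ := hz
          rw [div_lt_iff₀ hbk] at hz1
          rw [lt_div_iff₀ hbk] at hz2
          push_cast
          constructor <;> linarith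
        rw [h4, Int.floor_add_intCast, h5, Int.add_mul_emod_self_left]
        exact Int.emod_eq_of_lt (by positivity) (by exact_mod_cast hW)
      · intro u _ v _ h
        simp only [Prod.mk.injEq] at h
        exact Prod.ext h.2 h.1

/-- a finite irrationality measure excludes Liouville numbers -/
lemma not_liouville_of_dio {x κ : ℝ} (Q0 : ℕ)
    (h : ∀ Q : ℕ, Q0 ≤ Q → ∀ P : ℤ, (Q : ℝ) ^ (-κ) ≤ |Q * x - P|) : ¬ Liouville x := by
  intro hL
  obtain ⟨n, hn⟩ := exists_nat_ge (κ + 1)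
  obtain ⟨Q, ⟨a, hne, hlt⟩, hQ⟩ := ((hL.frequently_exists_num n).and_eventually
    (eventually_ge_atTop (max Q0 2))).exists
  have hQ0 : Q0 ≤ Q := (le_max_left _ _).trans hQ
  have hQ2 : 2 ≤ Q := (le_max_right _ _).trans hQ
  have hQR : (2 : ℝ) ≤ Q := by exact_mod_cast hQ2
  have hQpos : (0 : ℝ) < Q := by linarith
  have h1 := h Q hQ0 a
  have e : (Q : ℝ) * x - a = Q * (x - a / Q) := by field_simp
  rw [e, abs_mul, abs_of_pos hQpos] at h1
  have h2 : (Q : ℝ) * |x - a / Q| < Q * (1 / (Q : ℝ) ^ n) := mul_lt_mul_of_pos_left hlt hQpos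
  have h3 : (Q : ℝ) * (1 / (Q : ℝ) ^ n) ≤ (Q : ℝ) ^ (-κ) := by
    have e1 : (Q : ℝ) * (1 / (Q : ℝ) ^ n) = (Q : ℝ) ^ (1 - (n : ℝ)) := by
      rw [Real.rpow_sub hQpos, Real.rpow_one, Real.rpow_natCast]; ring
    rw [e1]
    exact Real.rpow_le_rpow_of_exponent_le (by linarith) (by linarith)
  linarith

end Pool.Agent.H847R3.XpXq
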