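import Mathlib
import Pool.Agent.H847R3.SuppE
import Pool.Agent.H819.Consts

set_option autoImplicit false

open Set Filter Topology

namespace Pool.Agent.H847R3.XpXq

lemma irrational_of_dio {x κ : ℝ} (Q0 : ℕ)
    (h : ∀ Q : ℕ, Q0 ≤ Q → ∀ P : ℤ, (Q : ℝ) ^ (-κ) ≤ |Q * x - P|) : Irrational x := by
  rintro ⟨r, rfl⟩
  have hd : 0 < r.den := r.den_pos
  have h1 := h (r.den * (Q0 + 1)) (by nlinarith) (r.num * (Q0 + 1))
  have h2 : ((r.den * (Q0 + 1) : ℕ) : ℝ) * (r : ℝ) - ((r.num * (Q0 + 1) : ℤ) : ℝ) = 0 := by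
    have h3 : (r.den : ℝ) * (r : ℝ) = r.num := by
      have := Rat.den_mul_eq_num r
      exact_mod_cast this
    push_cast
    linear_combination ((Q0 : ℝ) + 1) * h3
  rw [h2, abs_zero] at h1
  have h4 : (0 : ℝ) < ((r.den * (Q0 + 1) : ℕ) : ℝ) := by exact_mod_cast Nat.mul_pos hd (by omega)
  have h5 := Real.rpow_pos_of_pos h4 (-κ)
  linarith

lemma e_good : Irrational (Real.exp 1) ∧ ¬ Liouville (Real.exp 1) := by
  obtain ⟨Q0, h⟩ := Pool.Agent.H819.dio_e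
  exact ⟨irrational_of_dio Q0 h, not_liouville_of_dio Q0 h⟩

lemma pi_good : Irrational Real.pi ∧ ¬ Liouville Real.pi := by
  obtain ⟨Q0, h⟩ := Pool.Agent.H819.dio_pi
  exact ⟨irrational_of_dio Q0 h, not_liouville_of_dio Q0 h⟩

lemma sqrt_two_good : Irrational (√2) ∧ ¬ Liouville (√2) := by
  refine ⟨irrational_sqrt_two, fun h => h.transcendental ?_⟩
  refine ⟨Polynomial.X ^ 2 - Polynomial.C 2, ?_, ?_⟩
  · exact Polynomial.X_pow_sub_C_ne_zero (by norm_num) 2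
  · rw [map_sub, map_pow, Polynomial.aeval_X, Polynomial.aeval_C]
    norm_num

end Pool.Agent.H847R3.XpXq
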