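import Mathlib

/-!
Measure part: couplings of two invariant measures of the circle, one of whose difference tends to a
point with dense orbit, are dominated by Lebesgue measure.
-/

set_option autoImplicit false

open MeasureTheory Filter Topology Set

namespace Pool.Agent.H847R3.XpXq

abbrev T := UnitAddCircle

instance : IsProbabilityMeasure (volume : Measure T) := ⟨UnitAddCircle.measure_univ⟩

/-- ergodic average of `f` along `p^i` minus its Lebesgue mean, in absolute value -/
noncomputable def G (p : ℕ) (f : C(T, ℂ)) (N : ℕ) (z : T) : ℝ :=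
  ‖(N : ℂ)⁻¹ * ∑ i ∈ Finset.range N, f (p ^ i • z) - ∫ x, f x‖

lemma G_cont (p : ℕ) (f : C(T, ℂ)) (N : ℕ) : Continuous (G p f N) := by
  unfold G
  refine Continuous.norm (Continuous.sub (continuous_const.mul ?_) continuous_const)
  exact continuous_finsetSum _ fun i _ => f.continuous.comp (continuous_const_smul _)

lemma G_nonneg (p : ℕ) (f : C(T, ℂ)) (N : ℕ) (z : T) : 0 ≤ G p f N z := norm_nonneg _

lemma integrable_of_cont {f : T → ℝ} (hf : Continuous f) (μ : Measure T) [IsFiniteMeasure μ] :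
    Integrable f μ := by
  obtain ⟨C, hC⟩ := (isCompact_range hf).isBounded.exists_norm_le
  exact Integrable.of_bound hf.aestronglyMeasurable C
    (Eventually.of_forall fun x => hC _ (mem_range_self x))

lemma integrable_of_contC {f : T → ℂ} (hf : Continuous f) (μ : Measure T) [IsFiniteMeasure μ] :
    Integrable f μ := by
  obtain ⟨C, hC⟩ := (isCompact_range hf).isBounded.exists_norm_le
  exact Integrable.of_bound hf.aestronglyMeasurable C
    (Eventually.of_forall fun x => hC _ (mem_range_self x))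

/-- the property that the averages of `f` along `p^i` converge in `L^1` of Lebesgue measure -/
def Good (p : ℕ) (f : C(T, ℂ)) : Prop :=
  ∀ ε : ℝ, 0 < ε → ∃ N0 : ℕ, ∀ N : ℕ, N0 ≤ N → 1 ≤ N → ∫ z, G p f N z < ε

lemma good_add {p : ℕ} {f g : C(T, ℂ)} (hf : Good p f) (hg : Good p g) : Good p (f + g) := by
  intro ε hε
  obtain ⟨N1, h1⟩ := hf (ε / 2) (by positivity)
  obtain ⟨N2, h2⟩ := hg (ε / 2) (by positivity)
  refine ⟨max N1 N2, fun N hN hN1 => ?_⟩
  have a1 := h1 N (le_trans (le_max_left _ _) hN) hN1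
  have a2 := h2 N (le_trans (le_max_right _ _) hN) hN1
  have hle : ∀ z, G p (f + g) N z ≤ G p f N z + G p g N z := by
    intro z
    unfold G
    have e : (N : ℂ)⁻¹ * ∑ i ∈ Finset.range N, (f + g) (p ^ i • z) - ∫ x, (f + g) x
        = ((N : ℂ)⁻¹ * ∑ i ∈ Finset.range N, f (p ^ i • z) - ∫ x, f x)
          + ((N : ℂ)⁻¹ * ∑ i ∈ Finset.range N, g (p ^ i • z) - ∫ x, g x) := by
      have : ∫ x, (f + g) x = (∫ x, f x) + ∫ x, g x := by
        simp only [ContinuousMap.add_apply]
        exact integral_add (integrable_of_contC f.continuous _) (integrable_of_contC g.continuous _)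
      rw [this]
      simp only [ContinuousMap.add_apply, Finset.sum_add_distrib]
      ring
    rw [e]
    exact norm_add_le _ _
  calc ∫ z, G p (f + g) N z ≤ ∫ z, (G p f N z + G p g N z) :=
        integral_mono (integrable_of_cont (G_cont _ _ _) _)
          ((integrable_of_cont (G_cont _ _ _) _).add (integrable_of_cont (G_cont _ _ _) _)) hle
    _ = (∫ z, G p f N z) + ∫ z, G p g N z :=
        integral_add (integrable_of_cont (G_cont _ _ _) _) (integrable_of_cont (G_cont _ _ _) _)
    _ < ε := by linarith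

lemma good_smul {p : ℕ} {f : C(T, ℂ)} (c : ℂ) (hf : Good p f) : Good p (c • f) := by
  intro ε hε
  obtain ⟨N1, h1⟩ := hf (ε / (‖c‖ + 1)) (by positivity)
  refine ⟨N1, fun N hN hN1 => ?_⟩
  have a1 := h1 N hN hN1
  have heq : ∀ z, G p (c • f) N z = ‖c‖ * G p f N z := by
    intro z
    unfold G
    rw [← norm_mul]
    congr 1
    have : ∫ x, (c • f) x = c * ∫ x, f x := by
      simp only [ContinuousMap.smul_apply, smul_eq_mul]
      exact integral_const_mul _ _
    rw [this]
    simp only [ContinuousMap.smul_apply, smul_eq_mul, ← Finset.mul_sum]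
    ring
  simp_rw [heq]
  rw [integral_const_mul]
  have h0 : 0 ≤ ∫ z, G p f N z := integral_nonneg fun z => G_nonneg _ _ _ _
  calc ‖c‖ * ∫ z, G p f N z ≤ (‖c‖ + 1) * ∫ z, G p f N z := by nlinarith
    _ < (‖c‖ + 1) * (ε / (‖c‖ + 1)) := by
        apply mul_lt_mul_of_pos_left a1 (by positivity)
    _ = ε := by field_simp

lemma good_closure {p : ℕ} {f : C(T, ℂ)} (h : ∀ ε : ℝ, 0 < ε → ∃ g, Good p g ∧ ‖f - g‖ ≤ ε) :
    Good p f := by
  intro ε hε
  obtain ⟨g, hg, hfg⟩ := h (ε / 4) (by positivity)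
  obtain ⟨N1, h1⟩ := hg (ε / 2) (by positivity)
  refine ⟨N1, fun N hN hN1 => ?_⟩
  have a1 := h1 N hN hN1
  have hpt : ∀ z, ‖f z - g z‖ ≤ ε / 4 := fun z => by
    have := (f - g).norm_coe_le_norm z
    simp only [ContinuousMap.sub_apply] at this
    linarith
  have hle : ∀ z, G p f N z ≤ G p g N z + ε / 2 := by
    intro z
    unfold G
    have e : (N : ℂ)⁻¹ * ∑ i ∈ Finset.range N, f (p ^ i • z) - ∫ x, f x
        = ((N : ℂ)⁻¹ * ∑ i ∈ Finset.range N, g (p ^ i • z) - ∫ x, g x)
          + ((N : ℂ)⁻¹ * ∑ i ∈ Finset.range N, (f (p ^ i • z) - g (p ^ i • z)))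
          - ∫ x, (f x - g x) := by
      have : ∫ x, (f x - g x) = (∫ x, f x) - ∫ x, g x :=
        integral_sub (integrable_of_contC f.continuous _) (integrable_of_contC g.continuous _)
      rw [this]
      simp only [Finset.sum_sub_distrib]
      ring
    rw [e]
    have hN0 : (0 : ℝ) < N := by exact_mod_cast hN1
    have b1 : ‖(N : ℂ)⁻¹ * ∑ i ∈ Finset.range N, (f (p ^ i • z) - g (p ^ i • z))‖ ≤ ε / 4 := by
      rw [norm_mul, norm_inv, Complex.norm_natCast]
      have : ‖∑ i ∈ Finset.range N, (f (p ^ i • z) - g (p ^ i • z))‖ ≤ N * (ε / 4) := by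
        refine (norm_sum_le _ _).trans ?_
        refine (Finset.sum_le_sum fun i _ => hpt _).trans ?_
        simp
      calc (N : ℝ)⁻¹ * ‖∑ i ∈ Finset.range N, (f (p ^ i • z) - g (p ^ i • z))‖
          ≤ (N : ℝ)⁻¹ * (N * (ε / 4)) := by gcongr
        _ = ε / 4 := by field_simp
    have b2 : ‖∫ x, (f x - g x)‖ ≤ ε / 4 := by
      have := norm_integral_le_of_norm_le_const (μ := (volume : Measure T)) (C := ε / 4)
        (f := fun x => f x - g x) (Eventually.of_forall hpt)
      simpa using this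
    calc _ ≤ ‖((N : ℂ)⁻¹ * ∑ i ∈ Finset.range N, g (p ^ i • z) - ∫ x, g x)
          + ((N : ℂ)⁻¹ * ∑ i ∈ Finset.range N, (f (p ^ i • z) - g (p ^ i • z)))‖
          + ‖∫ x, (f x - g x)‖ := norm_sub_le _ _
      _ ≤ ‖((N : ℂ)⁻¹ * ∑ i ∈ Finset.range N, g (p ^ i • z) - ∫ x, g x)‖
          + ‖((N : ℂ)⁻¹ * ∑ i ∈ Finset.range N, (f (p ^ i • z) - g (p ^ i • z)))‖
          + ‖∫ x, (f x - g x)‖ := by gcongr; exact norm_add_le _ _
      _ ≤ _ := by linarith
  calc ∫ z, G p f N z ≤ ∫ z, (G p g N z + ε / 2) :=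
        integral_mono (integrable_of_cont (G_cont _ _ _) _)
          ((integrable_of_cont (G_cont _ _ _) _).add (integrable_const _)) hle
    _ = (∫ z, G p g N z) + ε / 2 := by
        rw [integral_add (integrable_of_cont (G_cont _ _ _) _) (integrable_const _)]
        simp
    _ < ε := by linarith

lemma integral_fourier_zero {n : ℤ} (hn : n ≠ 0) : ∫ x : T, fourier n x = 0 := by
  have h := orthonormal_fourier (T := (1 : ℝ))
  have h1 := h.2 (i := 0) (j := n) (Ne.symm hn)
  have e : (AddCircle.haarAddCircle : Measure (AddCircle (1 : ℝ))) = volume := by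
    rw [AddCircle.volume_eq_smul_haarAddCircle]; simp
  have h2 := ContinuousMap.inner_toLp (𝕜 := ℂ) (AddCircle.haarAddCircle : Measure (AddCircle (1:ℝ)))
    (fourier 0) (fourier n)
  rw [show inner ℂ (ContinuousMap.toLp 2 AddCircle.haarAddCircle ℂ (fourier (T := (1:ℝ)) 0))
    (ContinuousMap.toLp 2 AddCircle.haarAddCircle ℂ (fourier (T := (1:ℝ)) n)) = (0 : ℂ) from h1] at h2
  rw [e] at h2
  simpa using h2.symm

lemma integral_G_fourier {p : ℕ} (hp : 2 ≤ p) {n : ℤ} (hn : n ≠ 0) {N : ℕ} (hN : 1 ≤ N) :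
    ∫ z, (G p (fourier n) N z) ^ 2 = (N : ℝ)⁻¹ := by
  have key : ∀ z : T, (((G p (fourier n) N z) ^ 2 : ℝ) : ℂ) =
      ((N : ℂ)⁻¹) ^ 2 * ∑ i ∈ Finset.range N, ∑ j ∈ Finset.range N,
        fourier (n * (p ^ i : ℕ) - n * (p ^ j : ℕ)) z := by
    intro z
    unfold G
    rw [integral_fourier_zero hn, sub_zero]
    have h1 : ∀ w : ℂ, ((‖w‖ ^ 2 : ℝ) : ℂ) = w * (starRingEnd ℂ) w := by
      intro w
      rw [Complex.mul_conj, Complex.normSq_eq_norm_sq]
    rw [h1, map_mul, map_sum]
    have h2 : (starRingEnd ℂ) ((N : ℂ)⁻¹) = (N : ℂ)⁻¹ := by simp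
    rw [h2]
    have h3 : ∀ i : ℕ, (fourier n) (p ^ i • z) = fourier (n * (p ^ i : ℕ)) z := by
      intro i
      rw [fourier_apply, fourier_apply]
      congr 2
      rw [mul_zsmul, ← Nat.cast_smul_eq_nsmul ℤ]
    have h4 : ∀ i : ℕ, (starRingEnd ℂ) ((fourier n) (p ^ i • z))
        = fourier (-(n * (p ^ i : ℕ))) z := by
      intro i
      rw [h3, fourier_neg]
    simp_rw [h4]
    simp_rw [h3]
    have h5 : ∀ i j : ℕ, fourier (n * (p ^ i : ℕ) - n * (p ^ j : ℕ)) z
        = fourier (n * (p ^ i : ℕ)) z * fourier (-(n * (p ^ j : ℕ))) z := by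
      intro i j
      rw [sub_eq_add_neg, fourier_add]
    simp_rw [h5]
    rw [← Finset.sum_mul_sum]
    ring
  have hinj : ∀ i j : ℕ, i ≠ j → n * (p ^ i : ℕ) - n * (p ^ j : ℕ) ≠ 0 := by
    intro i j hij h
    apply hij
    have h1 : n * (p ^ i : ℕ) = n * (p ^ j : ℕ) := by linarith
    have h2 : ((p ^ i : ℕ) : ℤ) = (p ^ j : ℕ) := mul_left_cancel₀ hn h1
    have h3 : p ^ i = p ^ j := by exact_mod_cast h2
    exact Nat.pow_right_injective hp h3
  have hint : ((∫ z, (G p (fourier n) N z) ^ 2 : ℝ) : ℂ) = ((N : ℝ)⁻¹ : ℝ) := by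
    rw [← integral_complex_ofReal]
    simp_rw [key]
    rw [integral_const_mul, integral_finsetSum]
    · have : ∀ i ∈ Finset.range N, ∫ z : T, ∑ j ∈ Finset.range N,
          fourier (n * (p ^ i : ℕ) - n * (p ^ j : ℕ)) z = 1 := by
        intro i hi
        rw [integral_finsetSum]
        · rw [Finset.sum_eq_single i]
          · simp
          · intro j _ hj
            exact integral_fourier_zero (hinj i j (Ne.symm hj))
          · intro h; exact absurd hi h
        · intro j _
          exact integrable_of_contC (fourier _).continuous _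
      rw [Finset.sum_congr rfl this]
      simp
      have : (N : ℂ) ≠ 0 := by exact_mod_cast (by omega : N ≠ 0)
      field_simp
    · intro i _
      exact integrable_finsetSum _ fun j _ => integrable_of_contC (fourier _).continuous _
  exact_mod_cast hint

lemma good_fourier {p : ℕ} (hp : 2 ≤ p) (n : ℤ) : Good p (fourier n) := by
  rcases eq_or_ne n 0 with rfl | hn
  · intro ε hε
    refine ⟨1, fun N _ hN => ?_⟩
    have : ∀ z : T, G p (fourier 0) N z = 0 := by
      intro z
      unfold G
      have : (N : ℂ) ≠ 0 := by exact_mod_cast (by omega : N ≠ 0)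
      simp [this]
    simp_rw [this]
    simpa using hε
  · intro ε hε
    obtain ⟨N0, hN0⟩ := exists_nat_gt (1 / ε ^ 2)
    refine ⟨N0, fun N hN hN1 => ?_⟩
    have hNR : (0 : ℝ) < N := by exact_mod_cast hN1
    have h1 := integral_G_fourier hp hn hN1
    -- `G ≤ (δ + G²/δ)/2`
    have h2 : ∀ z, G p (fourier n) N z ≤ (ε + (G p (fourier n) N z) ^ 2 / ε) / 2 := by
      intro z
      have := sq_nonneg (G p (fourier n) N z - ε)
      rw [le_div_iff₀ (by norm_num)]
      have e : ε + (G p (fourier n) N z) ^ 2 / ε = (ε ^ 2 + (G p (fourier n) N z) ^ 2) / ε := by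
        field_simp
      rw [e, le_div_iff₀ hε]
      nlinarith
    have hc : Continuous fun z => (ε + (G p (fourier n) N z) ^ 2 / ε) / 2 :=
      ((continuous_const.add (((G_cont _ _ _).pow 2).div_const _)).div_const _)
    calc ∫ z, G p (fourier n) N z ≤ ∫ z, (ε + (G p (fourier n) N z) ^ 2 / ε) / 2 :=
          integral_mono (integrable_of_cont (G_cont _ _ _) _) (integrable_of_cont hc _) h2
      _ = (ε + (N : ℝ)⁻¹ / ε) / 2 := by
          have hi : Integrable (fun z => G p (fourier n) N z ^ 2 / ε) (volume : Measure T) :=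
            integrable_of_cont (((G_cont _ _ _).pow 2).div_const _) _
          have e1 : ∫ z : T, (ε + (G p (fourier n) N z) ^ 2 / ε)
              = (∫ z : T, ε) + ∫ z : T, (G p (fourier n) N z) ^ 2 / ε :=
            integral_add (integrable_const _) hi
          rw [integral_div, e1, integral_div, h1]
          simp
      _ < ε := by
          have h3 : 1 / ε ^ 2 < N := lt_of_lt_of_le hN0 (by exact_mod_cast hN)
          have h4 : (N : ℝ)⁻¹ < ε ^ 2 := by
            rw [inv_lt_comm₀ hNR (by positivity)]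
            simpa using h3
          have h5 : (N : ℝ)⁻¹ / ε < ε := by
            rw [div_lt_iff₀ hε]; nlinarith
          linarith

theorem good_all {p : ℕ} (hp : 2 ≤ p) (f : C(T, ℂ)) : Good p f := by
  have hspan : ∀ g ∈ Submodule.span ℂ (range (fourier (T := (1 : ℝ)))), Good p g := by
    intro g hg
    induction hg using Submodule.span_induction with
    | mem x hx => obtain ⟨n, rfl⟩ := hx; exact good_fourier hp n
    | zero =>
      intro ε hε
      refine ⟨0, fun N _ _ => ?_⟩
      have : ∀ z : T, G p 0 N z = 0 := by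
        intro z
        unfold G
        simp
      simp_rw [this]
      simpa using hε
    | add x y _ _ hx hy => exact good_add hx hy
    | smul a x _ hx => exact good_smul a hx
  refine good_closure fun ε hε => ?_
  have hf : f ∈ (Submodule.span ℂ (range (fourier (T := (1 : ℝ))))).topologicalClosure := by
    rw [span_fourier_closure_eq_top]; trivial
  have hf' : f ∈ closure ((Submodule.span ℂ (range (fourier (T := (1 : ℝ)))) :
      Submodule ℂ C(T, ℂ)) : Set C(T, ℂ)) := hf
  obtain ⟨g, hg, hd⟩ := Metric.mem_closure_iff.1 hf' ε hε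
  exact ⟨g, hspan g hg, by rw [← dist_eq_norm]; exact hd.le⟩

end Pool.Agent.H847R3.XpXq
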