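import Mathlib
import Pool.Agent.H847R3.XpXqA

set_option autoImplicit false

open MeasureTheory Filter Topology Set

namespace Pool.Agent.H847R3.XpXq

lemma meas_smul (s : ℕ) : Measurable (fun x : T => s • x) :=
  (continuous_const_smul s).measurable

lemma mp_mul {μ : Measure T} {m n : ℕ} (hm : MeasurePreserving (fun x : T => m • x) μ μ)
    (hn : MeasurePreserving (fun x : T => n • x) μ μ) :
    MeasurePreserving (fun x : T => (m * n) • x) μ μ := by
  have h := hm.comp hn
  have e : ((fun x : T => m • x) ∘ fun x => n • x) = fun x : T => (m * n) • x := by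
    funext x
    simp only [Function.comp]
    rw [mul_nsmul']
  rwa [e] at h

lemma mp_pow {μ : Measure T} {m : ℕ} (hm : MeasurePreserving (fun x : T => m • x) μ μ) (i : ℕ) :
    MeasurePreserving (fun x : T => (m ^ i) • x) μ μ := by
  induction i with
  | zero =>
    have e : (fun x : T => (m ^ 0) • x) = id := by funext x; simp
    rw [e]; exact MeasurePreserving.id μ
  | succ i ih => rw [pow_succ]; exact mp_mul ih hm

lemma mp_S {μ : Measure T} {p q : ℕ} (hp : MeasurePreserving (fun x : T => p • x) μ μ)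
    (hq : MeasurePreserving (fun x : T => q • x) μ μ) (i j : ℕ) :
    MeasurePreserving (fun x : T => (p ^ i * q ^ j) • x) μ μ :=
  mp_mul (mp_pow hp i) (mp_pow hq j)

variable {Ω : Type*} [MeasurableSpace Ω]

lemma map_smul_le {κ : Measure Ω} {X : Ω → T} (hX : Measurable X) {μ : Measure T}
    (h : κ.map X ≤ μ) {s : ℕ} (hs : MeasurePreserving (fun x : T => s • x) μ μ) :
    κ.map (fun ω => s • X ω) ≤ μ := by
  have : κ.map (fun ω => s • X ω) = (κ.map X).map (fun x : T => s • x) := by
    rw [Measure.map_map (meas_smul s) hX]; rfl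
  rw [this]
  calc (κ.map X).map (fun x : T => s • x) ≤ μ.map (fun x : T => s • x) :=
        Measure.map_mono h (meas_smul s)
    _ = μ := hs.map_eq

lemma integral_le_of_map {κ : Measure Ω} {X : Ω → T} (hX : Measurable X) {μ : Measure T}
    [IsFiniteMeasure μ] (h : κ.map X ≤ μ) {g : T → ℝ} (hg : Continuous g) (h0 : ∀ x, 0 ≤ g x) :
    ∫ ω, g (X ω) ∂κ ≤ ∫ x, g x ∂μ := by
  rw [← integral_map hX.aemeasurable hg.aestronglyMeasurable]
  exact integral_mono_measure h (Eventually.of_forall h0) (integrable_of_cont hg μ)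

/-- **Core inequality.** -/
theorem core {p q : ℕ} (hp : 2 ≤ p) {μ ν : Measure T} [IsFiniteMeasure μ] [IsFiniteMeasure ν]
    (hμp : MeasurePreserving (fun x : T => p • x) μ μ)
    (hμq : MeasurePreserving (fun x : T => q • x) μ μ)
    (hνp : MeasurePreserving (fun x : T => p • x) ν ν)
    (hνq : MeasurePreserving (fun x : T => q • x) ν ν)
    {κ : Measure Ω} [IsFiniteMeasure κ] {X Y : Ω → T} (hX : Measurable X) (hY : Measurable Y)
    (hXμ : κ.map X ≤ μ) (hYν : κ.map Y ≤ ν) {y : T}
    (hdense : Dense {w : T | ∃ i j : ℕ, w = (p ^ i * q ^ j) • y})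
    {m : ℕ → ℕ} (hm : ∀ k, ∃ i j : ℕ, m k = p ^ i * q ^ j)
    (hconv : ∀ᵐ ω ∂κ, Tendsto (fun k => m k • (Y ω - X ω)) atTop (𝓝 y))
    (f : C(T, ℝ)) (hf : ∀ x, 0 ≤ f x) :
    κ.real univ * ∫ x, f x ≤ ∫ x, f x ∂ν := by
  refine le_of_forall_pos_le_add fun ε hε => ?_
  set g : C(T, ℂ) := ⟨fun x => (f x : ℂ), Complex.continuous_ofReal.comp f.continuous⟩ with hg
  set M : ℝ := μ.real univ with hM
  have hM0 : 0 ≤ M := measureReal_nonneg
  obtain ⟨N0, hN0⟩ := good_all hp g (ε / 2 / (M + 1)) (by positivity)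
  set N := max N0 1 with hN
  have hN1 : 1 ≤ N := le_max_right _ _
  have hGint := hN0 N (le_max_left _ _) hN1
  set H : T → ℝ := G p g N with hH
  have hHc : Continuous H := G_cont _ _ _
  have hH0 : ∀ z, 0 ≤ H z := G_nonneg _ _ _
  obtain ⟨C, hC⟩ := (isCompact_range hHc).isBounded.exists_norm_le
  have hC' : ∀ z, ‖H z‖ ≤ C := fun z => hC _ (mem_range_self z)
  set W : T → ℝ := fun y' => ∫ x, H (x + y') ∂μ with hW
  have hWc : Continuous W := by
    refine continuous_of_dominated (bound := fun _ => C) ?_ ?_ (integrable_const _) ?_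
    · intro y'
      exact (hHc.comp (continuous_id.add continuous_const)).aestronglyMeasurable
    · intro y'
      exact Eventually.of_forall fun x => hC' _
    · exact Eventually.of_forall fun x => hHc.comp (continuous_const.add continuous_id)
  have hWint : ∫ y', W y' = M * ∫ z, H z := by
    rw [hW]
    rw [integral_integral_swap]
    · have : ∀ x : T, ∫ y' : T, H (x + y') = ∫ z, H z := fun x =>
        integral_add_left_eq_self (μ := (volume : Measure T)) H x
      simp_rw [this]
      rw [integral_const, smul_eq_mul]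
    · have hc2 : Continuous (fun z : T × T => H (z.2 + z.1)) :=
        hHc.comp (continuous_snd.add continuous_fst)
      exact Integrable.of_bound hc2.aestronglyMeasurable C (Eventually.of_forall fun z => hC' _)
  have hWlt : ∫ y', W y' < ε / 2 := by
    rw [hWint]
    have h0 : 0 ≤ ∫ z, H z := integral_nonneg hH0
    calc M * ∫ z, H z ≤ (M + 1) * ∫ z, H z := by nlinarith
      _ < (M + 1) * (ε / 2 / (M + 1)) := mul_lt_mul_of_pos_left hGint (by positivity)
      _ = ε / 2 := by field_simp
  obtain ⟨y', hy'⟩ : ∃ y', W y' < ε / 2 := by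
    by_contra hcon
    push Not at hcon
    have : ∫ _y' : T, ε / 2 ≤ ∫ y', W y' :=
      integral_mono (integrable_const _) (integrable_of_cont hWc _) hcon
    simp at this
    linarith
  obtain ⟨w, ⟨i, j, hwij⟩, hwW⟩ := hdense.exists_mem_open (isOpen_lt hWc continuous_const) ⟨y', hy'⟩
  set u : ℕ := p ^ i * q ^ j with hu
  have hwW' : W (u • y) < ε / 2 := by rw [← hwij]; exact hwW
  -- dominated convergence
  have hcv : Tendsto (fun k => ∫ ω, (H ((u * m k) • Y ω) - H ((u * m k) • X ω + u • y)) ∂κ) atTop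
      (𝓝 (∫ _ω : Ω, (0 : ℝ) ∂κ)) := by
    refine tendsto_integral_of_dominated_convergence (fun _ => C + C) ?_ (integrable_const _) ?_ ?_
    · intro k
      have h1 : Measurable fun ω => H ((u * m k) • Y ω) := hHc.measurable.comp ((meas_smul _).comp hY)
      have h2 : Measurable fun ω => H ((u * m k) • X ω + u • y) :=
        hHc.measurable.comp (((meas_smul _).comp hX).add_const _)
      exact (h1.sub h2).aestronglyMeasurable
    · intro k
      exact Eventually.of_forall fun ω => (norm_sub_le _ _).trans (add_le_add (hC' _) (hC' _))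
    · filter_upwards [hconv] with ω hω
      have huc : UniformContinuous H := CompactSpace.uniformContinuous_of_continuous hHc
      rw [Metric.tendsto_atTop]
      intro η hη
      obtain ⟨δ, hδ, hδ'⟩ := Metric.uniformContinuous_iff.1 huc η hη
      have h1 : Tendsto (fun k => u • (m k • (Y ω - X ω))) atTop (𝓝 (u • y)) :=
        ((continuous_const_smul u).tendsto _).comp hω
      obtain ⟨K, hK⟩ := Metric.tendsto_atTop.1 h1 δ hδ
      refine ⟨K, fun k hk => ?_⟩
      have h2 := hK k hk
      have h3 : (u * m k) • Y ω = (u * m k) • X ω + u • (m k • (Y ω - X ω)) := by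
        rw [mul_nsmul' (Y ω) u (m k), mul_nsmul' (X ω) u (m k), nsmul_sub, nsmul_sub]
        abel
      have h4 : dist ((u * m k) • Y ω) ((u * m k) • X ω + u • y) < δ := by
        rw [h3, dist_add_left]; exact h2
      have h5 := hδ' h4
      rw [Real.dist_eq] at h5
      rw [Real.dist_eq, sub_zero]
      exact h5
  rw [integral_zero] at hcv
  obtain ⟨K, hK⟩ := Metric.tendsto_atTop.1 hcv (ε / 2) (by positivity)
  have hK1 := hK K le_rfl
  obtain ⟨i', j', hmK⟩ := hm K
  have hS : u * m K = p ^ (i + i') * q ^ (j + j') := by rw [hu, hmK]; ring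
  have hμS : MeasurePreserving (fun x : T => (u * m K) • x) μ μ := by
    rw [hS]; exact mp_S hμp hμq _ _
  have hΨ : ∫ ω, H ((u * m K) • X ω + u • y) ∂κ ≤ W (u • y) :=
    integral_le_of_map (κ := κ) (X := fun ω => (u * m K) • X ω) ((meas_smul _).comp hX)
      (map_smul_le hX hXμ hμS) (g := fun x => H (x + u • y))
      (hHc.comp (continuous_id.add continuous_const)) (fun x => hH0 _)
  have hI1 : Integrable (fun ω => H ((u * m K) • Y ω)) κ :=
    Integrable.of_bound (hHc.measurable.comp ((meas_smul _).comp hY)).aestronglyMeasurable C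
      (Eventually.of_forall fun ω => hC' _)
  have hI2 : Integrable (fun ω => H ((u * m K) • X ω + u • y)) κ :=
    Integrable.of_bound (hHc.measurable.comp
      (((meas_smul _).comp hX).add_const _)).aestronglyMeasurable C
      (Eventually.of_forall fun ω => hC' _)
  have hΦ : ∫ ω, H ((u * m K) • Y ω) ∂κ < ε := by
    rw [Real.dist_eq, sub_zero, integral_sub hI1 hI2] at hK1
    have := (abs_lt.1 hK1).2
    linarith
  -- averages
  have hNR : (0 : ℝ) < N := by exact_mod_cast hN1
  have hterm : ∀ l : ℕ, ∫ ω, f (p ^ l • ((u * m K) • Y ω)) ∂κ ≤ ∫ x, f x ∂ν := by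
    intro l
    have e : ∀ ω, p ^ l • ((u * m K) • Y ω) = (p ^ l * (u * m K)) • Y ω := fun ω => by
      rw [← mul_nsmul']
    simp_rw [e]
    have hνS : MeasurePreserving (fun x : T => (p ^ l * (u * m K)) • x) ν ν := by
      rw [hS]; exact mp_mul (mp_pow hνp l) (mp_S hνp hνq _ _)
    exact integral_le_of_map (κ := κ) (X := fun ω => (p ^ l * (u * m K)) • Y ω)
      ((meas_smul _).comp hY) (map_smul_le hY hYν hνS) f.continuous hf
  have hfint : ∀ l : ℕ, Integrable (fun ω => f (p ^ l • ((u * m K) • Y ω))) κ := by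
    intro l
    refine Integrable.of_bound (f.continuous.measurable.comp
      ((meas_smul _).comp ((meas_smul _).comp hY))).aestronglyMeasurable ‖f‖
      (Eventually.of_forall fun ω => f.norm_coe_le_norm _)
  have hpt : ∀ ω, (∫ x, f x) ≤ H ((u * m K) • Y ω) +
      (N : ℝ)⁻¹ * ∑ l ∈ Finset.range N, f (p ^ l • ((u * m K) • Y ω)) := by
    intro ω
    have e : H ((u * m K) • Y ω) = |(N : ℝ)⁻¹ * ∑ l ∈ Finset.range N,
        f (p ^ l • ((u * m K) • Y ω)) - ∫ x, f x| := by
      rw [hH]
      unfold G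
      have h1 : ∫ x, g x = ((∫ x, f x : ℝ) : ℂ) := by
        rw [← integral_complex_ofReal]; rfl
      rw [h1]
      have h2 : (N : ℂ)⁻¹ * ∑ i ∈ Finset.range N, g (p ^ i • ((u * m K) • Y ω)) -
          ((∫ x, f x : ℝ) : ℂ) = (((N : ℝ)⁻¹ * ∑ l ∈ Finset.range N,
            f (p ^ l • ((u * m K) • Y ω)) - ∫ x, f x : ℝ) : ℂ) := by
        push_cast
        rfl
      rw [h2, Complex.norm_real, Real.norm_eq_abs]
    rw [e]
    have := neg_abs_le ((N : ℝ)⁻¹ * ∑ l ∈ Finset.range N,
        f (p ^ l • ((u * m K) • Y ω)) - ∫ x, f x)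
    linarith
  have hint : ∫ _ω : Ω, (∫ x, f x) ∂κ ≤ ∫ ω, (H ((u * m K) • Y ω) +
      (N : ℝ)⁻¹ * ∑ l ∈ Finset.range N, f (p ^ l • ((u * m K) • Y ω))) ∂κ :=
    integral_mono (integrable_const _)
      (hI1.add ((integrable_finsetSum _ fun l _ => hfint l).const_mul _)) hpt
  rw [integral_const, smul_eq_mul, integral_add hI1
    ((integrable_finsetSum _ fun l _ => hfint l).const_mul _), integral_const_mul,
    integral_finsetSum _ fun l _ => hfint l] at hint
  have hsum : ∑ l ∈ Finset.range N, ∫ ω, f (p ^ l • ((u * m K) • Y ω)) ∂κ ≤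
      N * ∫ x, f x ∂ν := by
    refine (Finset.sum_le_sum fun l _ => hterm l).trans ?_
    simp
  have hsum' : (N : ℝ)⁻¹ * ∑ l ∈ Finset.range N, ∫ ω, f (p ^ l • ((u * m K) • Y ω)) ∂κ ≤
      ∫ x, f x ∂ν := by
    calc _ ≤ (N : ℝ)⁻¹ * (N * ∫ x, f x ∂ν) := by gcongr
      _ = _ := by field_simp
  linarith

end Pool.Agent.H847R3.XpXq
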