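import Mathlib
import Pool.Agent.H847R3.XpXqB

set_option autoImplicit false

open MeasureTheory Filter Topology Set

namespace Pool.Agent.H847R3.XpXq

lemma closed_le {ν : Measure T} [IsFiniteMeasure ν] {c : ℝ}
    (h : ∀ f : C(T, ℝ), (∀ x, 0 ≤ f x) → c * ∫ x, f x ≤ ∫ x, f x ∂ν) {F : Set T}
    (hF : IsClosed F) : c * (volume : Measure T).real F ≤ ν.real F := by
  have hδ : ∀ n : ℕ, 0 < (1 : ℝ) / (n + 1) := fun n => by positivity
  have hlim : Tendsto (fun n : ℕ => (1 : ℝ) / (n + 1)) atTop (𝓝 0) :=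
    tendsto_one_div_add_atTop_nhds_zero_nat
  have t1 := tendsto_integral_thickenedIndicator_of_isClosed (volume : Measure T) hF hδ hlim
  have t2 := tendsto_integral_thickenedIndicator_of_isClosed ν hF hδ hlim
  refine le_of_tendsto_of_tendsto' (t1.const_mul c) t2 fun n => ?_
  have := h ⟨fun x => (thickenedIndicator (hδ n) F x : ℝ),
    NNReal.continuous_coe.comp (thickenedIndicator (hδ n) F).continuous⟩
    (fun x => NNReal.coe_nonneg _)
  exact this

lemma measure_le {ν : Measure T} [IsFiniteMeasure ν] {c : ℝ} (hc : 0 ≤ c)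
    (h : ∀ f : C(T, ℝ), (∀ x, 0 ≤ f x) → c * ∫ x, f x ≤ ∫ x, f x ∂ν) :
    ENNReal.ofReal c • (volume : Measure T) ≤ ν := by
  refine Measure.le_intro fun A hA _ => ?_
  have hfin : (ENNReal.ofReal c • (volume : Measure T)) A ≠ ⊤ := by
    rw [Measure.smul_apply, smul_eq_mul]
    exact ENNReal.mul_ne_top ENNReal.ofReal_ne_top (measure_ne_top _ _)
  have hf1 : IsFiniteMeasure (ENNReal.ofReal c • (volume : Measure T)) :=
    ⟨by rw [Measure.smul_apply, smul_eq_mul]
        exact ENNReal.mul_lt_top ENNReal.ofReal_lt_top (measure_lt_top _ _)⟩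
  refine ENNReal.le_of_forall_pos_le_add fun ε hε _ => ?_
  obtain ⟨K, hKA, hKc, hK⟩ := hA.exists_isClosed_lt_add hfin (ε := (ε : ENNReal))
    (by exact_mod_cast hε.ne')
  have h1 := closed_le h hKc
  have h2 : (ENNReal.ofReal c • (volume : Measure T)) K ≤ ν K := by
    rw [Measure.smul_apply, smul_eq_mul, ← ENNReal.toReal_le_toReal
      (ENNReal.mul_ne_top ENNReal.ofReal_ne_top (measure_ne_top _ _)) (measure_ne_top _ _),
      ENNReal.toReal_mul, ENNReal.toReal_ofReal hc]
    exact h1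
  calc _ ≤ (ENNReal.ofReal c • (volume : Measure T)) K + ε := hK.le
    _ ≤ ν K + ε := by gcongr
    _ ≤ ν A + ε := by gcongr

/-- **Core theorem, measure form, both sides.** -/
theorem core_measure {Ω : Type*} [MeasurableSpace Ω] {p q : ℕ} (hp : 2 ≤ p) {μ ν : Measure T}
    [IsFiniteMeasure μ] [IsFiniteMeasure ν]
    (hμp : MeasurePreserving (fun x : T => p • x) μ μ)
    (hμq : MeasurePreserving (fun x : T => q • x) μ μ)
    (hνp : MeasurePreserving (fun x : T => p • x) ν ν)
    (hνq : MeasurePreserving (fun x : T => q • x) ν ν)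
    {κ : Measure Ω} [IsFiniteMeasure κ] {X Y : Ω → T} (hX : Measurable X) (hY : Measurable Y)
    (hXμ : κ.map X ≤ μ) (hYν : κ.map Y ≤ ν) {y : T}
    (hdense : Dense {w : T | ∃ i j : ℕ, w = (p ^ i * q ^ j) • y})
    {m : ℕ → ℕ} (hm : ∀ k, ∃ i j : ℕ, m k = p ^ i * q ^ j)
    (hconv : ∀ᵐ ω ∂κ, Tendsto (fun k => m k • (Y ω - X ω)) atTop (𝓝 y)) :
    κ univ • (volume : Measure T) ≤ μ ∧ κ univ • (volume : Measure T) ≤ ν := by
  have e : κ univ = ENNReal.ofReal (κ.real univ) := by simp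
  rw [e]
  refine ⟨measure_le measureReal_nonneg fun f hf => ?_, measure_le measureReal_nonneg fun f hf => ?_⟩
  · have hdense' : Dense {w : T | ∃ i j : ℕ, w = (p ^ i * q ^ j) • (-y)} := by
      have := hdense.preimage (f := fun x : T => -x) (Homeomorph.neg T).isOpenMap
      refine this.mono ?_
      rintro w ⟨i, j, hw⟩
      exact ⟨i, j, by rw [smul_neg, ← hw, neg_neg]⟩
    refine core hp hνp hνq hμp hμq hY hX hYν hXμ hdense' hm ?_ f hf
    filter_upwards [hconv] with ω hω
    have := hω.neg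
    refine this.congr fun k => ?_
    rw [← smul_neg, neg_sub]
  · exact core hp hμp hμq hνp hνq hX hY hXμ hYν hdense hm hconv f hf

end Pool.Agent.H847R3.XpXq
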