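import Mathlib
import Pool.Agent.H847R3.XpXqC
import Pool.Agent.H847R3.XpXqD

set_option autoImplicit false

open MeasureTheory Filter Topology Set

namespace Pool.Agent.H847R3.XpXq

lemma meas_zsmul (a : ℤ) : Measurable (fun x : T => a • x) :=
  (continuous_zsmul a).measurable

lemma mp_vol {a : ℤ} (ha : a ≠ 0) :
    MeasurePreserving (fun x : T => a • x) (volume : Measure T) volume :=
  Measure.measurePreserving_zsmul volume ha

/-- a measurable section of multiplication by `a`, up to multiples of `1 / a` -/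
noncomputable def sec (a : ℤ) (y : T) : T :=
  (((AddCircle.measurableEquivIoc 1 0 y : ℝ) / a : ℝ) : T)

lemma meas_sec (a : ℤ) : Measurable (sec a) := by
  unfold sec
  exact AddCircle.measurable_mk'.comp
    ((measurable_subtype_coe.comp (AddCircle.measurableEquivIoc 1 0).measurable).div_const _)

lemma sec_spec {a : ℤ} (ha : a ≠ 0) (x : T) :
    ∃ k : ℤ, sec a (a • x) = x + (((k : ℝ) / a : ℝ) : T) := by
  have haR : (a : ℝ) ≠ 0 := by exact_mod_cast ha
  obtain ⟨r, rfl⟩ := QuotientAddGroup.mk_surjective x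
  set w : ℝ := (AddCircle.measurableEquivIoc 1 0 (a • ((r : ℝ) : T)) : ℝ) with hw
  have h1 : ((w : ℝ) : T) = a • ((r : ℝ) : T) :=
    (AddCircle.equivIoc (1 : ℝ) 0).symm_apply_apply (a • ((r : ℝ) : T))
  have h2 : (((w - a * r : ℝ)) : T) = 0 := by
    rw [AddCircle.coe_sub, h1, ← zsmul_eq_mul, AddCircle.coe_zsmul, sub_self]
  rw [AddCircle.coe_eq_zero_iff] at h2
  obtain ⟨k, hk⟩ := h2
  refine ⟨k, ?_⟩
  have h3 : w / a = r + (k : ℝ) / a := by
    have : w = a * r + k := by
      have : (k : ℝ) = w - a * r := by simpa using hk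
      linarith
    rw [this]; field_simp
  show (((w / a : ℝ)) : T) = _
  rw [h3, AddCircle.coe_add]

lemma sing_map {μ : Measure T} {a : ℤ} (ha : a ≠ 0) (h : μ ⟂ₘ (volume : Measure T)) :
    μ.map (fun x : T => a • x) ⟂ₘ (volume : Measure T) := by
  obtain ⟨S, hS, hS1, hS2⟩ := h
  -- `μ S = 0`, `volume Sᶜ = 0`
  set E : Set T := ⋃ k : ℤ, {x | x + (((k : ℝ) / a : ℝ) : T) ∈ Sᶜ} with hE
  have hEm : MeasurableSet E :=
    MeasurableSet.iUnion fun k => (measurable_add_const _) hS.compl
  have hE0 : (volume : Measure T) E = 0 := by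
    rw [hE, measure_iUnion_null_iff]
    intro k
    have := measure_preimage_add_right (volume : Measure T) (((k : ℝ) / a : ℝ) : T) Sᶜ
    rw [hS2] at this
    exact this
  have hSE : Sᶜ ⊆ E := by
    intro x hx
    refine mem_iUnion.2 ⟨0, ?_⟩
    simpa using hx
  have hsat : ∀ x : T, ∀ k : ℤ, x + (((k : ℝ) / a : ℝ) : T) ∈ E ↔ x ∈ E := by
    intro x k
    constructor
    · intro hx
      obtain ⟨l, hl⟩ := mem_iUnion.1 hx
      refine mem_iUnion.2 ⟨k + l, ?_⟩
      have e : x + ((((k + l : ℤ) : ℝ) / a : ℝ) : T)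
          = x + (((k : ℝ) / a : ℝ) : T) + (((l : ℝ) / a : ℝ) : T) := by
        push_cast
        rw [add_div, AddCircle.coe_add, add_assoc]
      rw [mem_ofPred_eq, e]
      exact hl
    · intro hx
      obtain ⟨l, hl⟩ := mem_iUnion.1 hx
      refine mem_iUnion.2 ⟨l - k, ?_⟩
      have e : x + (((k : ℝ) / a : ℝ) : T) + ((((l - k : ℤ) : ℝ) / a : ℝ) : T)
          = x + (((l : ℝ) / a : ℝ) : T) := by
        push_cast
        rw [sub_div, AddCircle.coe_sub]
        abel
      rw [mem_ofPred_eq, e]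
      exact hl
  set A : Set T := sec a ⁻¹' E with hA
  have hAm : MeasurableSet A := meas_sec a hEm
  have hpre : (fun x : T => a • x) ⁻¹' A = E := by
    ext x
    obtain ⟨k, hk⟩ := sec_spec ha x
    rw [mem_preimage, hA, mem_preimage, hk, hsat]
  refine ⟨Aᶜ, hAm.compl, ?_, ?_⟩
  · rw [Measure.map_apply (meas_zsmul a) hAm.compl, preimage_compl, hpre]
    exact measure_mono_null (compl_subset_comm.1 hSE) hS1
  · rw [compl_compl]
    have := (mp_vol ha).measure_preimage hAm.nullMeasurableSet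
    rw [hpre, hE0] at this
    exact this.symm

variable {Ω : Type*} [MeasurableSpace Ω]

/-- truncation: on large sets the law of `X` is dominated by a multiple of `μ` -/
lemma trunc {κ : Measure Ω} [IsFiniteMeasure κ] {X : Ω → T} (hX : Measurable X) {μ : Measure T}
    [IsFiniteMeasure μ] (h : κ.map X ≪ μ) :
    ∃ B : ℕ → Set Ω, (∀ n, MeasurableSet (B n)) ∧ Monotone B ∧ κ (⋃ n, B n)ᶜ = 0 ∧
      ∀ (n : ℕ) (D : Set Ω), MeasurableSet D → D ⊆ B n →
        (κ.restrict D).map X ≤ (n : ENNReal) • μ := by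
  set g := (κ.map X).rnDeriv μ with hg
  have hgm : Measurable g := Measure.measurable_rnDeriv _ _
  refine ⟨fun n => {ω | g (X ω) ≤ n}, fun n => ?_, ?_, ?_, ?_⟩
  · exact measurableSet_le (hgm.comp hX) measurable_const
  · intro m n hmn ω hω
    exact le_trans (show g (X ω) ≤ m from hω) (by exact_mod_cast hmn)
  · have h1 : ∀ᵐ x ∂(κ.map X), g x < ⊤ := h.ae_le (Measure.rnDeriv_lt_top _ _)
    have h2 : ∀ᵐ ω ∂κ, g (X ω) < ⊤ := ae_of_ae_map hX.aemeasurable h1
    refine measure_mono_null (fun ω hω => ?_) (ae_iff.1 h2)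
    intro hlt
    apply hω
    obtain ⟨n, hn⟩ := ENNReal.exists_nat_gt (ne_of_lt hlt)
    exact mem_iUnion.2 ⟨n, hn.le⟩
  · intro n D hD hDn
    refine Measure.le_intro fun A hA _ => ?_
    rw [Measure.map_apply hX hA, Measure.restrict_apply (hX hA)]
    calc κ (X ⁻¹' A ∩ D) ≤ κ (X ⁻¹' (A ∩ {x | g x ≤ n})) := by
          refine measure_mono ?_
          rintro ω ⟨h1, h2⟩
          exact ⟨h1, hDn h2⟩
      _ = (κ.map X) (A ∩ {x | g x ≤ n}) := by
          rw [Measure.map_apply hX (hA.inter (measurableSet_le hgm measurable_const))]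
      _ = ∫⁻ x in A ∩ {x | g x ≤ n}, g x ∂μ := by
          rw [Measure.setLIntegral_rnDeriv h]
      _ ≤ ∫⁻ _x in A ∩ {x | g x ≤ n}, (n : ENNReal) ∂μ := by
          refine setLIntegral_mono measurable_const fun x hx => hx.2
      _ = n * μ (A ∩ {x | g x ≤ n}) := by simp
      _ ≤ n * μ A := by gcongr; exact inter_subset_left
      _ = ((n : ENNReal) • μ) A := by simp

lemma mp_map {μ : Measure T} {s : ℕ} (h : MeasurePreserving (fun x : T => s • x) μ μ) (a : ℤ) :
    MeasurePreserving (fun x : T => s • x) (μ.map (fun x : T => a • x))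
      (μ.map (fun x : T => a • x)) := by
  refine ⟨meas_smul s, ?_⟩
  rw [Measure.map_map (meas_smul s) (meas_zsmul a)]
  have e : ((fun x : T => s • x) ∘ fun x : T => a • x) = (fun x : T => a • x) ∘ fun x => s • x := by
    funext x
    simp only [Function.comp]
    exact smul_comm _ _ _
  rw [e, ← Measure.map_map (meas_zsmul a) (meas_smul s), h.map_eq]

lemma mp_smul {μ : Measure T} {s : ℕ} (h : MeasurePreserving (fun x : T => s • x) μ μ)
    (c : ENNReal) : MeasurePreserving (fun x : T => s • x) (c • μ) (c • μ) :=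
  ⟨meas_smul s, by rw [Measure.map_smul, h.map_eq]⟩

lemma not_fin {θ : ℝ} (hθ : Irrational θ) : ¬ IsOfFinAddOrder (θ : T) := by
  intro h
  obtain ⟨n, hn, hnθ⟩ := isOfFinAddOrder_iff_nsmul_eq_zero.1 h
  rw [← AddCircle.coe_nsmul, AddCircle.coe_eq_zero_iff] at hnθ
  obtain ⟨k, hk⟩ := hnθ
  simp only [zsmul_eq_mul, mul_one, nsmul_eq_mul] at hk
  apply hθ
  refine ⟨(k : ℚ) / n, ?_⟩
  have : (n : ℝ) ≠ 0 := by exact_mod_cast hn.ne'
  push_cast
  rw [hk]; field_simp

lemma zero_of_le {c : ENNReal} {μ : Measure T} (h : c • (volume : Measure T) ≤ μ)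
    (hs : μ ⟂ₘ (volume : Measure T)) : c = 0 := by
  have h1 : (c • (volume : Measure T)) ⟂ₘ (volume : Measure T) :=
    hs.mono_ac h.absolutelyContinuous Measure.AbsolutelyContinuous.rfl
  have h2 : (c • (volume : Measure T)) ⟂ₘ (c • (volume : Measure T)) :=
    h1.mono_ac Measure.AbsolutelyContinuous.rfl
      (Measure.AbsolutelyContinuous.rfl.smul_left c)
  have h3 := (Measure.MutuallySingular.self_iff _).1 h2
  have h4 : (c • (volume : Measure T)) univ = 0 := by rw [h3]; simp
  simpa using h4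

/-- **Couplings.** -/
theorem coupling {p q : ℕ} (hp : 2 ≤ p) (hq : 2 ≤ q)
    (hirr : Irrational (Real.log p / Real.log q)) {μ ν : Measure T} [IsFiniteMeasure μ]
    [IsFiniteMeasure ν]
    (hμp : MeasurePreserving (fun x : T => p • x) μ μ)
    (hμq : MeasurePreserving (fun x : T => q • x) μ μ)
    (hνp : MeasurePreserving (fun x : T => p • x) ν ν)
    (hνq : MeasurePreserving (fun x : T => q • x) ν ν)
    (hsing : μ ⟂ₘ (volume : Measure T) ∨ ν ⟂ₘ (volume : Measure T))
    {κ : Measure Ω} [IsFiniteMeasure κ] {X Y : Ω → T} (hX : Measurable X) (hY : Measurable Y)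
    (hXμ : κ.map X ≪ μ) (hYν : κ.map Y ≪ ν) {a b : ℤ} (ha : a ≠ 0) (hb : b ≠ 0) {θ : ℝ}
    (hθ : Irrational θ) {m : ℕ → ℕ} (hm : ∀ k, ∃ i j : ℕ, m k = p ^ i * q ^ j) :
    κ {ω | Tendsto (fun k => m k • (b • Y ω - a • X ω)) atTop (𝓝 (θ : T))} = 0 := by
  set E : Set Ω := {ω | Tendsto (fun k => m k • (b • Y ω - a • X ω)) atTop (𝓝 (θ : T))} with hE
  have hEm : MeasurableSet E := measurableSet_tendsto _ fun k =>
    (meas_smul (m k)).comp (((meas_zsmul b).comp hY).sub ((meas_zsmul a).comp hX))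
  obtain ⟨B, hBm, hBmono, hB0, hB⟩ := trunc hX hXμ
  obtain ⟨B', hBm', hBmono', hB0', hB'⟩ := trunc hY hYν
  have hdense := dense_orbit hp hq hirr (not_fin hθ)
  have hn : ∀ n : ℕ, κ (E ∩ B n ∩ B' n) = 0 := by
    intro n
    set D := E ∩ B n ∩ B' n with hD
    have hDm : MeasurableSet D := (hEm.inter (hBm n)).inter (hBm' n)
    have h1 := hB n D hDm (fun ω hω => hω.1.2)
    have h2 := hB' n D hDm (fun ω hω => hω.2)
    have hfin1 : IsFiniteMeasure (((n : ENNReal) • μ).map (fun x : T => a • x)) := by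
      have : IsFiniteMeasure ((n : ENNReal) • μ) := by
        refine ⟨?_⟩
        simp only [Measure.smul_apply, smul_eq_mul]
        exact ENNReal.mul_lt_top (ENNReal.natCast_lt_top n) (measure_lt_top _ _)
      infer_instance
    have hfin2 : IsFiniteMeasure (((n : ENNReal) • ν).map (fun x : T => b • x)) := by
      have : IsFiniteMeasure ((n : ENNReal) • ν) := by
        refine ⟨?_⟩
        simp only [Measure.smul_apply, smul_eq_mul]
        exact ENNReal.mul_lt_top (ENNReal.natCast_lt_top n) (measure_lt_top _ _)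
      infer_instance
    have h3 : (κ.restrict D).map (fun ω => a • X ω) ≤
        ((n : ENNReal) • μ).map (fun x : T => a • x) := by
      have e : (κ.restrict D).map (fun ω => a • X ω)
          = ((κ.restrict D).map X).map (fun x : T => a • x) := by
        rw [Measure.map_map (meas_zsmul a) hX]; rfl
      rw [e]
      exact Measure.map_mono h1 (meas_zsmul a)
    have h4 : (κ.restrict D).map (fun ω => b • Y ω) ≤
        ((n : ENNReal) • ν).map (fun x : T => b • x) := by
      have e : (κ.restrict D).map (fun ω => b • Y ω)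
          = ((κ.restrict D).map Y).map (fun x : T => b • x) := by
        rw [Measure.map_map (meas_zsmul b) hY]; rfl
      rw [e]
      exact Measure.map_mono h2 (meas_zsmul b)
    have hconv : ∀ᵐ ω ∂(κ.restrict D), Tendsto (fun k => m k • (b • Y ω - a • X ω)) atTop
        (𝓝 (θ : T)) := by
      filter_upwards [ae_restrict_mem hDm] with ω hω
      exact hω.1.1
    obtain ⟨k1, k2⟩ := core_measure hp (mp_map (mp_smul hμp n) a) (mp_map (mp_smul hμq n) a)
      (mp_map (mp_smul hνp n) b) (mp_map (mp_smul hνq n) b) ((meas_zsmul a).comp hX)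
      ((meas_zsmul b).comp hY) h3 h4 hdense hm hconv
    have h5 : (κ.restrict D) univ = 0 := by
      rcases hsing with h | h
      · exact zero_of_le k1 (sing_map ha (h.smul n))
      · exact zero_of_le k2 (sing_map hb (h.smul n))
    simpa using h5
  have hsub : E ⊆ (⋃ n, (E ∩ B n ∩ B' n)) ∪ ((⋃ n, B n)ᶜ ∪ (⋃ n, B' n)ᶜ) := by
    intro ω hω
    by_cases h1 : ω ∈ ⋃ n, B n
    · by_cases h2 : ω ∈ ⋃ n, B' n
      · obtain ⟨n1, hn1⟩ := mem_iUnion.1 h1
        obtain ⟨n2, hn2⟩ := mem_iUnion.1 h2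
        left
        exact mem_iUnion.2 ⟨max n1 n2, ⟨hω, hBmono (le_max_left _ _) hn1⟩,
          hBmono' (le_max_right _ _) hn2⟩
      · right; right; exact h2
    · right; left; exact h1
  refine measure_mono_null hsub ?_
  rw [measure_union_null_iff, measure_union_null_iff, measure_iUnion_null_iff]
  exact ⟨hn, hB0, hB0'⟩

end Pool.Agent.H847R3.XpXq
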