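import Mathlib
import Pool.Agent.H847R3.XpXqE

set_option autoImplicit false

open MeasureTheory Filter Topology Set

namespace Pool.Agent.H847R3.XpXq

/-- **Maps.** -/
theorem maps {p q : ℕ} (hp : 2 ≤ p) (hq : 2 ≤ q)
    (hirr : Irrational (Real.log p / Real.log q)) {μ ν : Measure T} [IsFiniteMeasure μ]
    [IsFiniteMeasure ν]
    (hμp : MeasurePreserving (fun x : T => p • x) μ μ)
    (hμq : MeasurePreserving (fun x : T => q • x) μ μ)
    (hνp : MeasurePreserving (fun x : T => p • x) ν ν)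
    (hνq : MeasurePreserving (fun x : T => q • x) ν ν)
    (hsing : μ ⟂ₘ (volume : Measure T) ∨ ν ⟂ₘ (volume : Measure T))
    {C : Set (ℝ × (ℕ → ℕ))} (hC : C.Countable)
    (hC' : ∀ c ∈ C, Irrational c.1 ∧ ∀ k, ∃ i j : ℕ, c.2 k = p ^ i * q ^ j)
    {f : T → T} (hf : Measurable f)
    (hfC : ∀ᵐ x ∂μ, ∃ a b : ℤ, a ≠ 0 ∧ b ≠ 0 ∧ ∃ c ∈ C,
      Tendsto (fun k => c.2 k • (b • f x - a • x)) atTop (𝓝 (c.1 : T))) :
    μ.map f ⟂ₘ ν := by
  have hfin : IsFiniteMeasure (μ.map f) := inferInstance
  have hleb : (μ.map f).HaveLebesgueDecomposition ν :=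
    Measure.haveLebesgueDecomposition_of_sigmaFinite (μ.map f) ν
  obtain ⟨hmeas, hs, hadd⟩ := Measure.haveLebesgueDecomposition_spec (μ.map f) ν
  obtain ⟨S, hSm, hS1, hS2⟩ := hs
  have hac : ((μ.restrict (f ⁻¹' S)).map f) ≪ ν := by
    refine Measure.AbsolutelyContinuous.mk fun A hA hA0 => ?_
    rw [Measure.map_apply hf hA, Measure.restrict_apply (hf hA)]
    have h1 : μ (f ⁻¹' A ∩ f ⁻¹' S) = (μ.map f) (A ∩ S) := by
      rw [Measure.map_apply hf (hA.inter hSm)]; rfl
    rw [h1, hadd, Measure.add_apply]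
    have h2 : (μ.map f).singularPart ν (A ∩ S) = 0 := measure_mono_null inter_subset_right hS1
    have h3 : ν.withDensity ((μ.map f).rnDeriv ν) (A ∩ S) = 0 :=
      withDensity_absolutelyContinuous _ _ (measure_mono_null inter_subset_left hA0)
    rw [h2, h3, add_zero]
  have hid : (μ.restrict (f ⁻¹' S)).map (fun x : T => x) ≪ μ := by
    have e : (μ.restrict (f ⁻¹' S)).map (fun x : T => x) = μ.restrict (f ⁻¹' S) := Measure.map_id
    rw [e]
    exact Measure.absolutelyContinuous_of_le Measure.restrict_le_self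
  have hnull : ∀ a b : ℤ, a ≠ 0 → b ≠ 0 → ∀ c ∈ C, (μ.restrict (f ⁻¹' S))
      {x | Tendsto (fun k => c.2 k • (b • f x - a • x)) atTop (𝓝 (c.1 : T))} = 0 := by
    intro a b ha hb c hc
    exact coupling hp hq hirr hμp hμq hνp hνq hsing (κ := μ.restrict (f ⁻¹' S))
      (X := fun x => x) (Y := f) measurable_id hf hid hac ha hb (hC' c hc).1 (hC' c hc).2
  have hcov : ∀ᵐ x ∂(μ.restrict (f ⁻¹' S)), ∃ a b : ℤ, a ≠ 0 ∧ b ≠ 0 ∧ ∃ c ∈ C,
      Tendsto (fun k => c.2 k • (b • f x - a • x)) atTop (𝓝 (c.1 : T)) :=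
    ae_mono Measure.restrict_le_self hfC
  have hall : ∀ᵐ x ∂(μ.restrict (f ⁻¹' S)), ∀ a b : ℤ, a ≠ 0 → b ≠ 0 → ∀ c ∈ C,
      ¬ Tendsto (fun k => c.2 k • (b • f x - a • x)) atTop (𝓝 (c.1 : T)) := by
    rw [ae_all_iff]; intro a
    rw [ae_all_iff]; intro b
    by_cases ha : a = 0
    · exact Eventually.of_forall fun x h => absurd ha h
    by_cases hb : b = 0
    · exact Eventually.of_forall fun x _ h => absurd hb h
    have := (ae_ball_iff hC (μ := μ.restrict (f ⁻¹' S)) (p := fun x c _ =>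
      ¬ Tendsto (fun k => c.2 k • (b • f x - a • x)) atTop (𝓝 (c.1 : T)))).2 (by
        intro c hc
        rw [ae_iff]
        simpa using hnull a b ha hb c hc)
    filter_upwards [this] with x hx _ _ c hc
    exact hx c hc
  have hfalse : ∀ᵐ x ∂(μ.restrict (f ⁻¹' S)), False := by
    filter_upwards [hcov, hall] with x h1 h2
    obtain ⟨a, b, ha, hb, c, hc, ht⟩ := h1
    exact h2 a b ha hb c hc ht
  have hzero : μ (f ⁻¹' S) = 0 := by
    rw [ae_iff] at hfalse
    simpa using hfalse
  refine ⟨S, hSm, ?_, hS2⟩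
  rw [Measure.map_apply hf hSm, hzero]

lemma sing_inv {μ : Measure T} [IsFiniteMeasure μ] {s : ℕ} (hs : s ≠ 0)
    (h : MeasurePreserving (fun x : T => s • x) μ μ) :
    MeasurePreserving (fun x : T => s • x) (μ.singularPart volume) (μ.singularPart volume) := by
  refine ⟨meas_smul s, ?_⟩
  obtain ⟨hmeas, hsing, hadd⟩ := Measure.haveLebesgueDecomposition_spec μ (volume : Measure T)
  have hsZ : (s : ℤ) ≠ 0 := by exact_mod_cast hs
  have efun : (fun x : T => (s : ℤ) • x) = fun x : T => s • x := by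
    funext x; exact natCast_zsmul x s
  have h1 : (μ.singularPart volume).map (fun x : T => s • x) ⟂ₘ (volume : Measure T) := by
    have := sing_map hsZ hsing
    rwa [efun] at this
  have hvol : MeasurePreserving (fun x : T => s • x) (volume : Measure T) volume := by
    have := mp_vol hsZ
    rwa [efun] at this
  set W := ((volume : Measure T).withDensity (μ.rnDeriv volume)).map (fun x : T => s • x) with hW
  have hWac : W ≪ (volume : Measure T) := by
    have h2 := (withDensity_absolutelyContinuous (volume : Measure T)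
      (μ.rnDeriv volume)).map (meas_smul s)
    rw [hvol.map_eq] at h2
    exact h2
  have hfinW0 : IsFiniteMeasure ((volume : Measure T).withDensity (μ.rnDeriv volume)) :=
    inferInstance
  have hfinW : IsFiniteMeasure W := by rw [hW]; infer_instance
  have hWd : (volume : Measure T).withDensity (W.rnDeriv volume) = W :=
    Measure.withDensity_rnDeriv_eq _ _ hWac
  have hadd2 : μ = (μ.singularPart volume).map (fun x : T => s • x)
      + (volume : Measure T).withDensity (W.rnDeriv volume) := by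
    rw [hWd, hW, ← Measure.map_add _ _ (meas_smul s), ← hadd, h.map_eq]
  exact Measure.eq_singularPart (Measure.measurable_rnDeriv _ _) h1 hadd2

/-- **Rigidity.** -/
theorem rigid {p q : ℕ} (hp : 2 ≤ p) (hq : 2 ≤ q)
    (hirr : Irrational (Real.log p / Real.log q)) {μ ν : Measure T} [IsProbabilityMeasure μ]
    [IsFiniteMeasure ν]
    (hμp : MeasurePreserving (fun x : T => p • x) μ μ)
    (hμq : MeasurePreserving (fun x : T => q • x) μ μ)
    (hνp : MeasurePreserving (fun x : T => p • x) ν ν)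
    (hνq : MeasurePreserving (fun x : T => q • x) ν ν)
    {C : Set (ℝ × (ℕ → ℕ))} (hC : C.Countable)
    (hC' : ∀ c ∈ C, Irrational c.1 ∧ ∀ k, ∃ i j : ℕ, c.2 k = p ^ i * q ^ j)
    {f : T → T} (hf : Measurable f)
    (hfC : ∀ᵐ x ∂μ, ∃ a b : ℤ, a ≠ 0 ∧ b ≠ 0 ∧ ∃ c ∈ C,
      Tendsto (fun k => c.2 k • (b • f x - a • x)) atTop (𝓝 (c.1 : T)))
    (hac : μ.map f ≪ ν) : μ = volume := by
  obtain ⟨hmeas, hsing, hadd⟩ := Measure.haveLebesgueDecomposition_spec μ (volume : Measure T)
  have hle : μ.singularPart volume ≤ μ := Measure.singularPart_le _ _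
  have h1 := maps hp hq hirr (sing_inv (by omega) hμp) (sing_inv (by omega) hμq) hνp hνq
    (Or.inl hsing) hC hC' hf (ae_mono hle hfC)
  have h2 : (μ.singularPart volume).map f ≪ ν :=
    (Measure.map_mono hle hf).absolutelyContinuous.trans hac
  have h3 : (μ.singularPart volume).map f = 0 := by
    have := h1.mono_ac (Measure.AbsolutelyContinuous.rfl) h2
    exact (Measure.MutuallySingular.self_iff _).1 this
  have h4 : μ.singularPart volume = 0 := by
    have : ((μ.singularPart volume).map f) univ = 0 := by rw [h3]; simp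
    rw [Measure.map_apply hf MeasurableSet.univ, preimage_univ] at this
    exact Measure.measure_univ_eq_zero.1 this
  have h5 : μ ≪ (volume : Measure T) := by
    rw [hadd, h4, zero_add]
    exact withDensity_absolutelyContinuous _ _
  exact (AddCircle.ergodic_nsmul (T := (1 : ℝ)) (n := p) (by omega)).eq_of_absolutelyContinuous
    hμp h5

end Pool.Agent.H847R3.XpXq
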